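import Pool.Agent.Lib_helper36.Mat.Defs

open Set

namespace H36Mat

universe u
variable {α : Type u} {M : Matroid α}

lemma inU24_of_bases {X Q A : Set α} (hXQ : X ⊆ Q) (hQE : Q ⊆ M.E) (hQ : Q.encard = 4)
    (hAQ : Disjoint A Q) (h : ∀ P ⊆ Q, P.encard = 2 → M.IsBase (A ∪ P)) : InU24Minor M X := by
  classical
  obtain ⟨P₀, hP₀Q, hP₀⟩ : ∃ P ⊆ Q, P.encard = 2 := by
    apply Set.exists_subset_encard_eq
    rw [hQ]; norm_num
  have hbase := h P₀ hP₀Q hP₀
  have hA : M.Indep A := hbase.indep.subset subset_union_left
  have hAE : A ⊆ M.E := hA.subset_ground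
  refine ⟨hXQ.trans hQE, A, M.E \ (A ∪ Q), ?_, ?_, ?_, ?_⟩
  · exact disjoint_sdiff_right.mono_left subset_union_left
  · exact subset_sdiff.2 ⟨hAE, hAQ.mono_right hXQ⟩
  · exact sdiff_subset_sdiff_right (hXQ.trans subset_union_right)
  have hE : ((M.contract A).delete (M.E \ (A ∪ Q))).E = Q := by
    rw [Matroid.delete_ground, Matroid.contract_ground]
    ext e
    simp only [mem_sdiff, mem_union, not_and, not_not]
    constructor
    · rintro ⟨⟨h1, h2⟩, h3⟩
      rcases h3 h1 with h4 | h4
      · exact absurd h4 h2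
      · exact h4
    · intro he
      refine ⟨⟨hQE he, fun h2 => hAQ.ne_of_mem h2 he rfl⟩, fun _ => Or.inr he⟩
  have hbP : ∀ P ⊆ Q, P.encard = 2 → (M.contract A).IsBase P := by
    intro P hPQ hP
    rw [hA.contract_isBase_iff]
    exact ⟨by rw [union_comm]; exact h P hPQ hP, (hAQ.mono_right hPQ).symm⟩
  have hQE' : Q ⊆ (M.contract A).E := by
    rw [Matroid.contract_ground]
    exact subset_sdiff.2 ⟨hQE, hAQ.symm⟩
  have hrk : (M.contract A).eRk Q = 2 := by
    apply le_antisymm
    · calc (M.contract A).eRk Q ≤ (M.contract A).eRank := Matroid.eRk_le_eRank _ _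
        _ = P₀.encard := (hbP P₀ hP₀Q hP₀).encard_eq_eRank.symm
        _ = 2 := hP₀
    · calc (2 : ℕ∞) = P₀.encard := hP₀.symm
        _ ≤ (M.contract A).eRk Q :=
          (hbP P₀ hP₀Q hP₀).indep.encard_le_eRk_of_subset hP₀Q
  constructor
  · rw [hE, hQ]
  intro B hB
  rw [hE] at hB
  rw [Matroid.delete_isBase_iff]
  have hE2 : (M.contract A).E \ (M.E \ (A ∪ Q)) = Q := by
    rw [← Matroid.delete_ground, hE]
  rw [hE2]
  constructor
  · intro hb
    rw [hb.encard_eq_eRk, hrk]
  · intro hb
    have := hbP B hB hb
    exact this.indep.isBasis_of_subset_of_subset_closure hB (by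
      rw [this.closure_eq]; exact hQE')

/-- six-bases form -/
lemma inU24_of_six {x y z w : α} {A : Set α} (hxy : x ≠ y) (hxz : x ≠ z) (hyz : y ≠ z)
    (hwx : w ≠ x) (hwy : w ≠ y) (hwz : w ≠ z)
    (hAx : x ∉ A) (hAy : y ∉ A) (hAz : z ∉ A) (hAw : w ∉ A)
    (h1 : M.IsBase (A ∪ {x, y})) (h2 : M.IsBase (A ∪ {x, z})) (h3 : M.IsBase (A ∪ {y, z}))
    (h4 : M.IsBase (A ∪ {w, x})) (h5 : M.IsBase (A ∪ {w, y})) (h6 : M.IsBase (A ∪ {w, z})) :
    InU24Minor M {x, y, z} := by
  classical
  have hxE : x ∈ M.E := h1.subset_ground (by simp)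
  have hyE : y ∈ M.E := h1.subset_ground (by simp)
  have hzE : z ∈ M.E := h2.subset_ground (by simp)
  have hwE : w ∈ M.E := h4.subset_ground (by simp)
  apply inU24_of_bases (Q := {x, y, z, w}) (A := A)
  · intro e he; simp only [mem_insert_iff, mem_singleton_iff] at he ⊢; tauto
  · intro e he; simp only [mem_insert_iff, mem_singleton_iff] at he
    rcases he with rfl | rfl | rfl | rfl <;> assumption
  · rw [encard_insert_of_notMem, encard_insert_of_notMem, encard_insert_of_notMem,
      encard_singleton]
    · norm_num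
    · simpa using hwz.symm
    · simp only [mem_insert_iff, mem_singleton_iff, not_or]; exact ⟨hyz, hwy.symm⟩
    · simp only [mem_insert_iff, mem_singleton_iff, not_or]; exact ⟨hxy, hxz, hwx.symm⟩
  · rw [disjoint_right]
    intro e he
    simp only [mem_insert_iff, mem_singleton_iff] at he
    rcases he with rfl | rfl | rfl | rfl <;> assumption
  · intro P hP hP2
    obtain ⟨a, b, hab, rfl⟩ := encard_eq_two.1 hP2
    have ha : a ∈ ({x, y, z, w} : Set α) := hP (by simp)
    have hb : b ∈ ({x, y, z, w} : Set α) := hP (by simp)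
    simp only [mem_insert_iff, mem_singleton_iff] at ha hb
    rcases ha with rfl | rfl | rfl | rfl <;> rcases hb with rfl | rfl | rfl | rfl <;>
      first
        | exact absurd rfl hab
        | assumption
        | (rw [Set.pair_comm]; assumption)

/-- If `X` is in a `U_{2,4}`-minor, there are a four-element set `Q ⊇ X` and a set `A` disjoint
from `Q` such that `A` together with any two elements of `Q` is a base. -/
lemma bases_of_inU24 {X : Set α} (h : InU24Minor M X) :
    ∃ Q A : Set α, X ⊆ Q ∧ Q ⊆ M.E ∧ Q.encard = 4 ∧ Disjoint A Q ∧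
      ∀ P ⊆ Q, P.encard = 2 → M.IsBase (A ∪ P) := by
  classical
  obtain ⟨hXE, C, D, hCD, hC, hD, hN, hU⟩ := h
  set N := (M.contract C).delete D with hNdef
  set Q := N.E with hQdef
  have hQ' : Q = (M.E \ C) \ D := by
    rw [hQdef, hNdef, Matroid.delete_ground, Matroid.contract_ground]
  have hXQ : X ⊆ Q := by
    rw [hQ']
    exact subset_sdiff.2 ⟨subset_sdiff.2 ⟨hXE, (subset_sdiff.1 hC).2.symm⟩,
      (subset_sdiff.1 hD).2.symm⟩
  have hQE : Q ⊆ M.E := by rw [hQ']; exact sdiff_subset.trans sdiff_subset
  have hQC : Disjoint Q C := by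
    rw [hQ']; exact (disjoint_sdiff_left).mono_left sdiff_subset
  have hQD : Disjoint Q D := by rw [hQ']; exact disjoint_sdiff_left
  obtain ⟨P₀, hP₀Q, hP₀⟩ : ∃ P ⊆ Q, P.encard = 2 := by
    apply Set.exists_subset_encard_eq
    rw [hN]; norm_num
  have hb : ∀ P ⊆ Q, P.encard = 2 → (M.contract C).IsBasis P Q := by
    intro P hP hP2
    have := (hU P hP).2 hP2
    rw [hNdef, Matroid.delete_isBase_iff] at this
    rwa [hQ', ← Matroid.contract_ground]
  obtain ⟨I, hI⟩ := M.exists_isBasis C ((subset_sdiff.1 hC).1)
  -- extend P₀ to a base of M / C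
  obtain ⟨B₀, hB₀, hPB⟩ := (hb P₀ hP₀Q hP₀).indep.exists_isBase_superset
  set J := B₀ \ P₀ with hJ
  have hB₀Q : B₀ ∩ Q = P₀ := by
    apply subset_antisymm
    · have h1 : (M.contract C).Indep (B₀ ∩ Q) := hB₀.indep.subset inter_subset_left
      have h2 := (hb P₀ hP₀Q hP₀).eq_of_subset_indep h1 (subset_inter hPB hP₀Q) inter_subset_right
      rw [← h2]
    · exact subset_inter hPB hP₀Q
  have hJQ : Disjoint J Q := by
    rw [disjoint_left]
    intro e he heQ
    have : e ∈ B₀ ∩ Q := ⟨he.1, heQ⟩
    rw [hB₀Q] at this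
    exact he.2 this
  have hB₀E : B₀ ⊆ M.E \ C := hB₀.subset_ground
  have hclP : ∀ P ⊆ Q, P.encard = 2 → (M.contract C).closure P = (M.contract C).closure P₀ := by
    intro P hP hP2
    rw [(hb P hP hP2).closure_eq_closure, (hb P₀ hP₀Q hP₀).closure_eq_closure]
  have hbase : ∀ P ⊆ Q, P.encard = 2 → (M.contract C).IsBase (J ∪ P) := by
    intro P hP hP2
    have hPg : P ⊆ (M.contract C).E := by
      rw [Matroid.contract_ground]
      exact hP.trans (subset_sdiff.2 ⟨hQE, hQC⟩)
    have hJg : J ⊆ (M.contract C).E := sdiff_subset.trans hB₀.subset_ground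
    have hsp : (M.contract C).Spanning (J ∪ P) := by
      rw [Matroid.spanning_iff_closure_eq (hS := union_subset hJg hPg),
        ← Matroid.closure_union_closure_right_eq, hclP P hP hP2,
        Matroid.closure_union_closure_right_eq]
      have : J ∪ P₀ = B₀ := by rw [hJ]; exact sdiff_union_of_subset hPB
      rw [this, hB₀.closure_eq]
    obtain ⟨B, hBb, hBs⟩ := hsp.exists_isBase_subset
    -- B ⊆ J ∪ P with same cardinality
    by_contra hcon
    have hne : B ≠ J ∪ P := fun h => hcon (h ▸ hBb)
    obtain ⟨e, heJP, heB⟩ : ∃ e ∈ J ∪ P, e ∉ B := by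
      by_contra h
      push Not at h
      exact hne (subset_antisymm hBs h)
    rcases heJP with heJ | heP
    · -- then e is in the closure of B \subseteq (J \ e) ∪ P
      have h1 : B ⊆ (J \ {e}) ∪ P := by
        intro f hf
        rcases hBs hf with h | h
        · exact Or.inl ⟨h, fun h' => heB (h' ▸ hf)⟩
        · exact Or.inr h
      have h2 : (M.contract C).Spanning ((J \ {e}) ∪ P) :=
        hBb.spanning.superset h1 (union_subset (sdiff_subset.trans hJg) hPg)
      have h3 : (M.contract C).Spanning ((J \ {e}) ∪ P₀) := by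
        rw [Matroid.spanning_iff_closure_eq (hS := union_subset (sdiff_subset.trans hJg)
            (hPB.trans hB₀.subset_ground)),
          ← Matroid.closure_union_closure_right_eq, ← hclP P hP hP2,
            Matroid.closure_union_closure_right_eq, h2.closure_eq]
      have h4 : (J \ {e}) ∪ P₀ ⊆ B₀ :=
        union_subset (sdiff_subset.trans sdiff_subset) hPB
      obtain ⟨B', hB', hB's⟩ := h3.exists_isBase_subset
      have h5 : B' = B₀ := hB'.eq_of_subset_isBase hB₀ (hB's.trans h4)
      have h6 : e ∈ B₀ := heJ.1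
      rw [← h5] at h6
      rcases hB's h6 with h | h
      · exact h.2 rfl
      · exact heJ.2 h
    · -- e ∈ P, e ∉ B : then B ⊆ J ∪ (P \ e), one element
      have hPi : (M.contract C).Indep P := (hb P hP hP2).indep
      have heJ' : e ∉ J := fun h => hJQ.ne_of_mem h (hP heP) rfl
      have h1 : B ⊆ J ∪ (P \ {e}) := by
        intro f hf
        rcases hBs hf with h | h
        · exact Or.inl h
        · exact Or.inr ⟨h, fun h' => heB (h' ▸ hf)⟩
      -- cardinalities via eRk
      have hc1 : (M.contract C).eRank = B₀.encard := hB₀.encard_eq_eRank.symm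
      have hc2 : (M.contract C).eRank = B.encard := hBb.encard_eq_eRank.symm
      -- use exchange in B₀ : P \ {e} ⊆ Q independent, compare closures
      -- (J ∪ (P \ e)) spans; replace by J ∪ {g}, g ∈ P₀ closure ...
      obtain ⟨g, hg⟩ : ∃ g, P \ {e} = {g} := by
        rw [← encard_eq_one]
        have := encard_sdiff_singleton_add_one heP
        rw [hP2] at this
        have h3 : (P \ {e}).encard + 1 = 1 + 1 := by rw [this]; norm_num
        exact WithTop.add_right_cancel ENat.one_ne_top h3
      rw [hg] at h1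
      have hgQ : g ∈ Q := hP ((hg ▸ mem_singleton g : g ∈ P \ {e}).1)
      -- choose P' = {g, h} with h ∈ P₀, base-like : there is a two-element P' containing g
      -- with an element p of P₀ ; J ∪ P' spans; J ∪ {g} spans.
      have hgg : {g} ⊆ (M.contract C).E := by
        rw [Matroid.contract_ground]
        exact singleton_subset_iff.2 ((subset_sdiff.2 ⟨hQE, hQC⟩) hgQ)
      have hspg : (M.contract C).Spanning (J ∪ {g}) :=
        hBb.spanning.superset h1 (union_subset hJg hgg)
      -- J is independent with J ∪ P₀ = B₀ a base; so r(M/C) = |J| + 2 ; but J ∪ {g} spans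
      -- get p ∈ P₀ with J ∪ {p} spanning? use exchange
      obtain ⟨p, q, hpq, hP₀eq⟩ := encard_eq_two.1 hP₀
      have hJp : (M.contract C).Indep (J ∪ {p}) := hB₀.indep.subset (by
        apply union_subset sdiff_subset
        rw [singleton_subset_iff]; apply hPB; rw [hP₀eq]; simp)
      have hJpq : (M.contract C).Indep (insert q (J ∪ {p})) := hB₀.indep.subset (by
        rw [insert_subset_iff]
        refine ⟨hPB (by rw [hP₀eq]; simp), ?_⟩
        apply union_subset sdiff_subset
        rw [singleton_subset_iff]; apply hPB; rw [hP₀eq]; simp)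
      have hJ1 : (M.contract C).Indep J := hJp.subset subset_union_left
      have hpJ : p ∉ J := fun h => h.2 (by rw [hP₀eq]; simp)
      have hqJ : q ∉ J ∪ {p} := by
        rintro (h | h)
        · exact h.2 (by rw [hP₀eq]; simp)
        · exact hpq h.symm
      have hclg : (M.contract C).closure (J ∪ {g}) = (M.contract C).E := hspg.closure_eq
      have hpcl : p ∈ (M.contract C).closure (insert g J) := by
        rw [← union_singleton, hclg]
        exact hJp.subset_ground (by simp)
      have hpcl' : p ∉ (M.contract C).closure J :=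
        (hJ1.notMem_closure_iff_of_notMem hpJ (hJp.subset_ground (by simp))).2
          (by rw [← union_singleton]; exact hJp)
      have hgcl := (Matroid.closure_exchange ⟨hpcl, hpcl'⟩).1
      have hall : (M.contract C).closure (insert p J) = (M.contract C).E := by
        apply subset_antisymm (Matroid.closure_subset_ground _ _)
        rw [← hclg]
        apply Matroid.closure_subset_closure_of_subset_closure
        apply union_subset
        · exact (subset_insert _ _).trans
            ((M.contract C).subset_closure _ (by rw [← union_singleton]; exact hJp.subset_ground))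
        · exact singleton_subset_iff.2 hgcl
      have hqcl : q ∈ (M.contract C).closure (J ∪ {p}) := by
        rw [union_singleton, hall]
        exact hJpq.subset_ground (by simp)
      exact ((hJp.notMem_closure_iff_of_notMem hqJ (hJpq.subset_ground (by simp))).2 hJpq) hqcl
  refine ⟨Q, I ∪ J, hXQ, hQE, hN, ?_, ?_⟩
  · rw [disjoint_union_left]
    exact ⟨(hQC.mono_right hI.subset).symm, hJQ⟩
  · intro P hP hP2
    have h1 := hbase P hP hP2
    have hIC : M.contract C = (M.contract I).delete (C \ I) := hI.contract_eq_contract_delete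
    rw [hIC, Matroid.delete_isBase_iff] at h1
    have hspan : (M.contract I).Spanning ((M.contract I).E \ (C \ I)) := by
      rw [Matroid.spanning_iff_closure_eq (hS := sdiff_subset)]
      apply subset_antisymm (Matroid.closure_subset_ground _ _)
      intro e he
      by_cases heC : e ∈ C \ I
      · have : e ∈ (M.contract I).loops := hI.sdiff_subset_loops_contract heC
        exact Matroid.closure_subset_closure _ (empty_subset _) this
      · exact Matroid.mem_closure_of_mem _ ⟨he, heC⟩ sdiff_subset
    have h2 : (M.contract I).IsBase (J ∪ P) := by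
      rw [Matroid.isBase_iff_indep_closure_eq]
      refine ⟨h1.indep, ?_⟩
      rw [h1.closure_eq_closure, hspan.closure_eq]
    rw [hI.indep.contract_isBase_iff] at h2
    have h3 : I ∪ J ∪ P = J ∪ P ∪ I := by
      rw [union_assoc, union_comm]
    rw [h3]
    exact h2.1

end H36Mat
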