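import Pool.Agent.Lib_helper36.Mat.Rep
import Pool.Agent.Lib_helper36.Mat.U24

/-!
In a matroid represented by vectors with at most two nonzero coordinates, no circuit contains
three elements whose vectors have only one nonzero coordinate.
-/

open Set

namespace H36Mat

universe u

variable {α : Type u} {M : Matroid α} {F : Type*} [Field F] {ι : Type*}

/-- projection onto a set of coordinates -/
noncomputable def proj (F : Type*) [Field F] {ι : Type*} (U : Set ι) : (ι → F) →ₗ[F] (ι → F) :=
  open Classical in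
  { toFun := fun f u => if u ∈ U then f u else 0
    map_add' := fun f g => by
      ext u; simp only [Pi.add_apply]; split_ifs <;> simp
    map_smul' := fun c f => by
      ext u; simp only [Pi.smul_apply, RingHom.id_apply]; split_ifs <;> simp }

lemma proj_apply (U : Set ι) (f : ι → F) (u : ι) [Decidable (u ∈ U)] :
    proj F U f u = if u ∈ U then f u else 0 := by
  classical
  simp only [proj, LinearMap.coe_mk, AddHom.coe_mk]
  split_ifs <;> rfl

lemma proj_eq_self {U : Set ι} {f : ι → F} (h : ∀ u, f u ≠ 0 → u ∈ U) : proj F U f = f := by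
  classical
  ext u
  rw [proj_apply]
  split_ifs with hu
  · rfl
  · by_contra hne
    exact hu (h u (Ne.symm hne))

lemma proj_eq_zero {U : Set ι} {f : ι → F} (h : ∀ u ∈ U, f u = 0) : proj F U f = 0 := by
  classical
  ext u
  rw [proj_apply]
  split_ifs with hu
  · exact h u hu
  · rfl

theorem Rep.no_circuit_three_joints {v : α → (ι → F)} (hM : Rep F M v)
    (hsupp : ∀ e ∈ M.E, ∃ p q, ∀ u, v e u ≠ 0 → u = p ∨ u = q) {x y z : α}
    (hxy : x ≠ y) (hxz : x ≠ z) (hyz : y ≠ z) {px py pz : ι}
    (hx : ∀ u, v x u ≠ 0 → u = px) (hy : ∀ u, v y u ≠ 0 → u = py)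
    (hz : ∀ u, v z u ≠ 0 → u = pz) {C : Set α} (hC : M.IsCircuit C)
    (hxC : x ∈ C) (hyC : y ∈ C) (hzC : z ∈ C) : False := by
  classical
  set WS := Submodule.span F (v '' (C \ {y, z})) with hWS
  set W0 := Submodule.span F (v '' (C \ {x, y, z})) with hW0
  set U : Set ι := {u | (Pi.single u (1 : F) : ι → F) ∈ WS} with hU
  have hCE := hC.subset_ground
  have indep_off : ∀ t ∈ C, LinearIndepOn F v (C \ {t}) := fun t ht =>
    (hM _ (sdiff_subset.trans hCE)).1 (hC.sdiff_singleton_indep ht)
  -- vectors with one nonzero coordinate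
  have single_eq : ∀ (w : ι → F) (p : ι), (∀ u, w u ≠ 0 → u = p) → w = w p • Pi.single p 1 := by
    intro w p hw
    ext u
    rw [Pi.smul_apply, smul_eq_mul, Pi.single_apply]
    split_ifs with hup
    · rw [hup, mul_one]
    · rw [mul_zero]
      by_contra hne
      exact hup (hw u hne)
  have hxne : v x ≠ 0 := by
    have h1 := (indep_off y hyC).mono (t := {x}) (by
      rw [singleton_subset_iff]; exact ⟨hxC, hxy⟩)
    have := h1.ne_zero (i := x) (mem_singleton x)
    exact this
  have hxpx : v x px ≠ 0 := by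
    intro h0
    apply hxne
    rw [single_eq _ _ hx, h0, zero_smul]
  have hpxU : px ∈ U := by
    have h1 : v x ∈ WS := Submodule.subset_span ⟨x, ⟨hxC, by simp [hxy, hxz]⟩, rfl⟩
    rw [single_eq _ _ hx] at h1
    exact (Submodule.smul_mem_iff _ hxpx).1 h1
  have e1 : insert y (C \ {y, z}) = C \ {z} := by
    ext t
    simp only [mem_insert_iff, mem_sdiff, mem_singleton_iff, not_or]
    constructor
    · rintro (rfl | ⟨h1, h2, h3⟩)
      · exact ⟨hyC, hyz⟩
      · exact ⟨h1, h3⟩
    · rintro ⟨h1, h2⟩
      by_cases h3 : t = y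
      · exact Or.inl h3
      · exact Or.inr ⟨h1, h3, h2⟩
  have e2 : insert z (C \ {y, z}) = C \ {y} := by
    ext t
    simp only [mem_insert_iff, mem_sdiff, mem_singleton_iff, not_or]
    constructor
    · rintro (rfl | ⟨h1, h2, h3⟩)
      · exact ⟨hzC, hyz.symm⟩
      · exact ⟨h1, h2⟩
    · rintro ⟨h1, h2⟩
      by_cases h3 : t = z
      · exact Or.inl h3
      · exact Or.inr ⟨h1, h2, h3⟩
  have hyWS : v y ∉ WS := by
    have h1 := indep_off z hzC
    rw [← e1, linearIndepOn_insert (by simp)] at h1
    exact h1.2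
  have hzWS : v z ∉ WS := by
    have h1 := indep_off y hyC
    rw [← e2, linearIndepOn_insert (by simp)] at h1
    exact h1.2
  have hyU : ∀ u ∈ U, v y u = 0 := by
    intro u hu
    by_contra hne
    apply hyWS
    rw [single_eq _ _ hy]
    apply Submodule.smul_mem
    rw [← hy u hne]
    exact hu
  have hzU : ∀ u ∈ U, v z u = 0 := by
    intro u hu
    by_contra hne
    apply hzWS
    rw [single_eq _ _ hz]
    apply Submodule.smul_mem
    rw [← hz u hne]
    exact hu
  have hstep : ∀ e ∈ C \ {y, z}, ∀ u ∈ U, v e u ≠ 0 → ∀ u', v e u' ≠ 0 → u' ∈ U := by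
    intro e he u hu hne u' hne'
    by_cases huu : u' = u
    · rw [huu]; exact hu
    obtain ⟨p, q, hpq⟩ := hsupp e (hCE he.1)
    have hs : ∀ t, v e t ≠ 0 → t = u ∨ t = u' := by
      intro t ht
      rcases hpq u hne with h1 | h1 <;> rcases hpq u' hne' with h2 | h2 <;>
        rcases hpq t ht with h3 | h3
      · exact Or.inl (h3.trans h1.symm)
      · exact absurd (h2.trans h1.symm) huu
      · exact Or.inl (h3.trans h1.symm)
      · exact Or.inr (h3.trans h2.symm)
      · exact Or.inr (h3.trans h2.symm)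
      · exact Or.inl (h3.trans h1.symm)
      · exact absurd (h2.trans h1.symm) huu
      · exact Or.inl (h3.trans h1.symm)
    have heq : v e = v e u • Pi.single u 1 + v e u' • Pi.single u' 1 := by
      ext t
      rw [Pi.add_apply, Pi.smul_apply, Pi.smul_apply, smul_eq_mul, smul_eq_mul, Pi.single_apply,
        Pi.single_apply]
      by_cases h1 : t = u
      · have h2 : t ≠ u' := fun h => huu (h.symm.trans h1)
        rw [if_pos h1, if_neg h2, h1]; ring
      · by_cases h2 : t = u'
        · rw [if_neg h1, if_pos h2, h2]; ring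
        · rw [if_neg h1, if_neg h2]
          by_contra hne3
          rcases hs t (by intro h0; apply hne3; rw [h0]; ring) with h3 | h3
          · exact h1 h3
          · exact h2 h3
    have h1 : v e ∈ WS := Submodule.subset_span ⟨e, he, rfl⟩
    have h2 : v e u' • (Pi.single u' (1 : F) : ι → F) ∈ WS := by
      have : v e u' • (Pi.single u' (1 : F) : ι → F) = v e - v e u • Pi.single u 1 := by
        rw [heq]
        simp only [Pi.add_apply, Pi.smul_apply, Pi.single_apply]
        rw [eq_sub_iff_add_eq]
        have hu1 : ¬ u = u' := fun h => huu h.symm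
        simp [huu, hu1]
        rw [add_comm]
      rw [this]
      exact WS.sub_mem h1 (WS.smul_mem _ hu)
    exact (Submodule.smul_mem_iff _ hne').1 h2
  -- now project
  have hxcl : v x ∈ Submodule.span F (v '' (C \ {x})) := by
    rw [← hM.mem_closure_iff (sdiff_subset.trans hCE) (hCE hxC)]
    exact hC.mem_closure_sdiff_singleton_of_mem hxC
  have h1 : proj F U (v x) ∈ Submodule.map (proj F U) (Submodule.span F (v '' (C \ {x}))) :=
    Submodule.mem_map_of_mem hxcl
  have h2 : Submodule.map (proj F U) (Submodule.span F (v '' (C \ {x}))) ≤ W0 := by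
    rw [Submodule.map_span, Submodule.span_le]
    rintro _ ⟨_, ⟨e, he, rfl⟩, rfl⟩
    by_cases hey : e = y
    · rw [hey, proj_eq_zero hyU]; exact W0.zero_mem
    by_cases hez : e = z
    · rw [hez, proj_eq_zero hzU]; exact W0.zero_mem
    have he' : e ∈ C \ {y, z} := ⟨he.1, by simp [hey, hez]⟩
    by_cases hex : ∃ u ∈ U, v e u ≠ 0
    · obtain ⟨u, hu, hne⟩ := hex
      rw [proj_eq_self (hstep e he' u hu hne)]
      apply Submodule.subset_span
      refine ⟨e, ⟨he.1, ?_⟩, rfl⟩
      have := he.2
      simp only [mem_singleton_iff] at this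
      simp [this, hey, hez]
    · push Not at hex
      rw [proj_eq_zero hex]; exact W0.zero_mem
  have h3 : v x ∈ W0 := by
    have h4 := h2 h1
    rwa [proj_eq_self (fun u hu => by rw [hx u hu]; exact hpxU)] at h4
  have h5 := indep_off z hzC
  have h6 := h5.mono (t := insert x (C \ {x, y, z})) (by
    intro t ht
    rcases ht with rfl | ht
    · exact ⟨hxC, hxz⟩
    · refine ⟨ht.1, ?_⟩
      have := ht.2
      simp only [mem_insert_iff, mem_singleton_iff, not_or] at this
      exact this.2.2)
  rw [linearIndepOn_insert (by simp)] at h6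
  exact h6.2 h3

/-- If no circuit contains the three-element set, it is in no `U_{2,4}`-minor. -/
theorem not_inU24_of_no_circuit {x y z : α} (hxy : x ≠ y) (hxz : x ≠ z) (hyz : y ≠ z)
    (h : ∀ C, M.IsCircuit C → ¬ ({x, y, z} : Set α) ⊆ C) : ¬ InU24Minor M {x, y, z} := by
  classical
  intro hin
  obtain ⟨Q, A, hXQ, hQE, hQ, hAQ, hb⟩ := bases_of_inU24 hin
  have hn : ∀ t ∈ Q, t ∉ A := fun t ht h => hAQ.ne_of_mem h ht rfl
  have hx : x ∈ Q := hXQ (by simp)
  have hy : y ∈ Q := hXQ (by simp)
  have hz : z ∈ Q := hXQ (by simp)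
  have hp : ∀ s ∈ Q, ∀ t ∈ Q, s ≠ t → M.IsBase (A ∪ {s, t}) := by
    intro s hs t ht hst
    refine hb _ ?_ (encard_pair hst)
    intro e he; simp only [mem_insert_iff, mem_singleton_iff] at he
    rcases he with rfl | rfl <;> assumption
  have b1 := hp x hx y hy hxy
  have b2 := hp x hx z hz hxz
  have b3 := hp y hy z hz hyz
  have hzn : z ∉ A ∪ {x, y} := by
    simp only [mem_union, mem_insert_iff, mem_singleton_iff, not_or]
    exact ⟨hn z hz, hxz.symm, hyz.symm⟩
  have hC := b1.fundCircuit_isCircuit (hQE hz) hzn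
  have hzcl : z ∈ M.closure (A ∪ {x, y}) := by rw [b1.closure_eq]; exact hQE hz
  apply h _ hC
  intro e he
  simp only [mem_insert_iff, mem_singleton_iff] at he
  rcases he with rfl | rfl | rfl
  · rw [b1.indep.mem_fundCircuit_iff hzcl hzn]
    apply b3.indep.subset
    intro t ht
    simp only [mem_sdiff, mem_insert_iff, mem_union, mem_singleton_iff] at ht ⊢
    tauto
  · rw [b1.indep.mem_fundCircuit_iff hzcl hzn]
    apply b2.indep.subset
    intro t ht
    simp only [mem_sdiff, mem_insert_iff, mem_union, mem_singleton_iff] at ht ⊢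
    tauto
  · exact M.mem_fundCircuit _ _

end H36Mat
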