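import Pool.Agent.Lib_helper36.Mat.Conn

/-!
Relaxations of circuit-hyperplanes and three-element sets in no `U_{2,4}`-minor.
-/

open Set

namespace H36Mat

universe u
variable {α : Type u} {M N : Matroid α}

/-- `H` is a circuit-hyperplane of `N`: a circuit which is also a flat of rank `r(N) - 1`. -/
def IsCircuitHyperplane (N : Matroid α) (H : Set α) : Prop :=
  N.IsCircuit H ∧ N.IsFlat H ∧ N.eRk H + 1 = N.eRank

/-- `M` is obtained from `N` by relaxing every member of the family `𝓗` of
circuit-hyperplanes of `N`: same ground set, and the bases of `M` are the bases of `N` together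
with the members of `𝓗`. -/
def IsRelaxation (N M : Matroid α) (𝓗 : Set (Set α)) : Prop :=
  M.E = N.E ∧ (∀ H ∈ 𝓗, IsCircuitHyperplane N H) ∧ ∀ B, M.IsBase B ↔ (N.IsBase B ∨ B ∈ 𝓗)

lemma IsCircuitHyperplane.encard_eq {H : Set α} (h : IsCircuitHyperplane N H) :
    H.encard = N.eRank := by
  rw [← h.2.2, h.1.eRk_add_one_eq]

lemma IsCircuitHyperplane.isBase [N.Finite] {H : Set α} (h : IsCircuitHyperplane N H) {e f : α}
    (he : e ∈ H) (hf : f ∈ N.E) (hfH : f ∉ H) : N.IsBase (insert f (H \ {e})) := by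
  have hi : N.Indep (H \ {e}) := h.1.sdiff_singleton_indep he
  have hcl : N.closure (H \ {e}) = H := by
    rw [h.1.closure_sdiff_singleton_eq, h.2.1.closure]
  have hfn : f ∉ H \ {e} := fun h' => hfH h'.1
  have hI : N.Indep (insert f (H \ {e})) := by
    rw [hi.insert_indep_iff_of_notMem hfn, hcl]
    exact ⟨hf, hfH⟩
  apply hI.isBase_of_eRk_ge (N.ground_finite.subset hI.subset_ground)
  rw [hI.eRk_eq_encard, encard_insert_of_notMem hfn, encard_sdiff_singleton_add_one he,
    h.encard_eq]

/-- In a binary matroid there are no `A` and four further elements such that `A` together with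
any two of them is a base. -/
lemma Binary.no_six (hN : Binary N) {x y z w : α} {A : Set α}
    (hxy : x ≠ y) (hxz : x ≠ z) (hyz : y ≠ z) (hwx : w ≠ x) (hwy : w ≠ y) (hwz : w ≠ z)
    (hAx : x ∉ A) (hAy : y ∉ A) (hAz : z ∉ A) (hAw : w ∉ A)
    (h1 : N.IsBase (A ∪ {x, y})) (h2 : N.IsBase (A ∪ {x, z})) (h3 : N.IsBase (A ∪ {y, z}))
    (h4 : N.IsBase (A ∪ {w, x})) (h5 : N.IsBase (A ∪ {w, y})) (h6 : N.IsBase (A ∪ {w, z})) :
    False := by
  classical
  have hz2 : ∀ a : ZMod 2, a = 0 ∨ a = 1 := by decide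
  obtain ⟨k, v, hv⟩ := hN
  set W := Submodule.span (ZMod 2) (v '' A) with hW
  -- key: for each pair of bases
  have key : ∀ p q s : α, p ≠ q → p ≠ s → q ≠ s → p ∉ A → q ∉ A → s ∉ A →
      N.IsBase (A ∪ {p, q}) → N.IsBase (A ∪ {p, s}) → N.IsBase (A ∪ {q, s}) →
      v p + v q + v s ∈ W := by
    intro p q s hpq hps hqs hAp hAq hAs b1 b2 b3
    have e1 : A ∪ {p, q} = insert p (insert q A) := by
      ext t; simp only [mem_union, mem_insert_iff, mem_singleton_iff]; tauto
    have e2 : A ∪ {p, s} = insert s (insert p A) := by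
      ext t; simp only [mem_union, mem_insert_iff, mem_singleton_iff]; tauto
    have e3 : A ∪ {q, s} = insert s (insert q A) := by
      ext t; simp only [mem_union, mem_insert_iff, mem_singleton_iff]; tauto
    have i1 : LinearIndepOn (ZMod 2) v (insert p (insert q A)) := by
      rw [← e1]; exact (hv _ b1.subset_ground).1 b1.indep
    have i2 : LinearIndepOn (ZMod 2) v (insert s (insert p A)) := by
      rw [← e2]; exact (hv _ b2.subset_ground).1 b2.indep
    have i3 : LinearIndepOn (ZMod 2) v (insert s (insert q A)) := by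
      rw [← e3]; exact (hv _ b3.subset_ground).1 b3.indep
    have hsE : s ∈ N.E := b2.subset_ground (by simp)
    have hsp : v s ∈ Submodule.span (ZMod 2) (v '' (insert p (insert q A))) := by
      by_contra hcon
      have i4 := i1.insert hcon
      rw [← e1] at i4
      have hsub : insert s (A ∪ {p, q}) ⊆ N.E := insert_subset hsE b1.subset_ground
      have i5 : N.Indep (insert s (A ∪ {p, q})) := (hv _ hsub).2 i4
      have := b1.eq_of_subset_indep i5 (subset_insert _ _)
      have hs : s ∈ A ∪ {p, q} := by rw [this]; simp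
      simp only [mem_union, mem_insert_iff, mem_singleton_iff] at hs
      rcases hs with h | h | h
      · exact hAs h
      · exact hps h.symm
      · exact hqs h.symm
    rw [image_insert_eq, image_insert_eq, Submodule.mem_span_insert'] at hsp
    obtain ⟨a, ha⟩ := hsp
    rw [Submodule.mem_span_insert'] at ha
    obtain ⟨b, hb⟩ := ha
    have hsqA : s ∉ insert q A := by
      simp only [mem_insert_iff, not_or]; exact ⟨hqs.symm, hAs⟩
    have hspA : s ∉ insert p A := by
      simp only [mem_insert_iff, not_or]; exact ⟨hps.symm, hAs⟩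
    have ha1 : a = 1 := by
      rcases hz2 a with h | h
      · exfalso
        have i6 := ((linearIndepOn_insert hsqA).1 i3).2
        apply i6
        rw [image_insert_eq, Submodule.mem_span_insert']
        refine ⟨b, ?_⟩
        rw [h, zero_smul, add_zero] at hb
        exact hb
      · exact h
    have hb1 : b = 1 := by
      rcases hz2 b with h | h
      · exfalso
        have i6 := ((linearIndepOn_insert hspA).1 i2).2
        apply i6
        rw [image_insert_eq, Submodule.mem_span_insert']
        refine ⟨a, ?_⟩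
        rw [h, zero_smul, add_zero] at hb
        exact hb
      · exact h
    rw [ha1, hb1, one_smul, one_smul] at hb
    have : v p + v q + v s = v s + v p + v q := by abel
    rw [this]; exact hb
  have k1 := key x y z hxy hxz hyz hAx hAy hAz h1 h2 h3
  have k2 := key w x y hwx hwy hxy hAw hAx hAy h4 h5 h1
  have k3 : v z + v w ∈ W := by
    have h := W.add_mem k1 k2
    have h2 : ∀ u : Fin k → ZMod 2, u + u = 0 := fun u => by
      ext i; simp only [Pi.add_apply, Pi.zero_apply]; exact CharTwo.add_self_eq_zero _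
    have e : v x + v y + v z + (v w + v x + v y) = v z + v w := by
      calc v x + v y + v z + (v w + v x + v y)
          = (v x + v x) + (v y + v y) + (v z + v w) := by abel
        _ = _ := by rw [h2, h2, zero_add, zero_add]
    rwa [e] at h
  have e6 : A ∪ {w, z} = insert z (insert w A) := by
    ext t; simp only [mem_union, mem_insert_iff, mem_singleton_iff]; tauto
  have i6 : LinearIndepOn (ZMod 2) v (insert z (insert w A)) := by
    rw [← e6]; exact (hv _ h6.subset_ground).1 h6.indep
  have hzwA : z ∉ insert w A := by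
    simp only [mem_insert_iff, not_or]; exact ⟨hwz.symm, hAz⟩
  apply ((linearIndepOn_insert hzwA).1 i6).2
  rw [image_insert_eq, Submodule.mem_span_insert']
  exact ⟨1, by rwa [one_smul]⟩

/-- A binary matroid has no `U_{2,4}`-minor. -/
lemma Binary.not_inU24 (hN : Binary N) {X : Set α} : ¬ InU24Minor N X := by
  intro h
  obtain ⟨Q, A, hXQ, hQE, hQ, hAQ, hb⟩ := bases_of_inU24 h
  rw [show (4 : ℕ∞) = 3 + 1 by norm_num] at hQ
  obtain ⟨w, T, hwT, hTQ, hT⟩ := Set.encard_eq_add_one_iff.1 hQ
  obtain ⟨x, y, z, hxy, hxz, hyz, rfl⟩ := Set.encard_eq_three.1 hT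
  have hn : ∀ t ∈ Q, t ∉ A := fun t ht h => hAQ.ne_of_mem h ht rfl
  have hx : x ∈ Q := by rw [← hTQ]; simp
  have hy : y ∈ Q := by rw [← hTQ]; simp
  have hz : z ∈ Q := by rw [← hTQ]; simp
  have hw : w ∈ Q := by rw [← hTQ]; simp
  simp only [mem_insert_iff, mem_singleton_iff, not_or] at hwT
  have hp : ∀ s ∈ Q, ∀ t ∈ Q, s ≠ t → N.IsBase (A ∪ {s, t}) := by
    intro s hs t ht hst
    exact hb _ (by intro e he; simp only [mem_insert_iff, mem_singleton_iff] at he; rcases he with rfl | rfl <;> assumption)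
      (encard_pair hst)
  exact hN.no_six hxy hxz hyz hwT.1 hwT.2.1 hwT.2.2 (hn x hx) (hn y hy) (hn z hz) (hn w hw)
    (hp x hx y hy hxy) (hp x hx z hz hxz) (hp y hy z hz hyz) (hp w hw x hx hwT.1)
    (hp w hw y hy hwT.2.1) (hp w hw z hz hwT.2.2)

lemma IsRelaxation.eRank_eq {𝓗 : Set (Set α)} (h : IsRelaxation N M 𝓗) : M.eRank = N.eRank := by
  obtain ⟨B, hB⟩ := N.exists_isBase
  have hB' := (h.2.2 B).2 (Or.inl hB)
  rw [← hB.encard_eq_eRank, ← hB'.encard_eq_eRank]

/-- Case one: a member of the family containing exactly one element of `X`. -/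
lemma IsRelaxation.case_one [M.Finite] [N.Finite] {𝓗 : Set (Set α)} (h : IsRelaxation N M 𝓗)
    (hM : TutteConnected 4 M) (h4 : 4 ≤ M.E.encard) {H : Set α} (hH : H ∈ 𝓗) {x y z : α}
    (hxy : x ≠ y) (hxz : x ≠ z) (hyz : y ≠ z) (hyE : y ∈ M.E) (hzE : z ∈ M.E)
    (hx : x ∈ H) (hy : y ∉ H) (hz : z ∉ H) : InU24Minor M {x, y, z} := by
  classical
  have hch := h.2.1 H hH
  have hyE' : y ∈ N.E := h.1 ▸ hyE
  have hzE' : z ∈ N.E := h.1 ▸ hzE
  have hHE : H ⊆ N.E := hch.1.subset_ground
  have hbase : ∀ B, N.IsBase B → M.IsBase B := fun B hB => (h.2.2 B).2 (Or.inl hB)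
  have hyz2 : ({y, z} : Set α).encard = 2 := encard_pair hyz
  have hyzM : M.Indep {y, z} := by
    refine hM.indep_of_encard (k := 2) ?_ (by rw [hyz2]; rfl) ?_ (by norm_num)
    · intro e he; simp only [mem_insert_iff, mem_singleton_iff] at he
      rcases he with rfl | rfl <;> assumption
    · have h5 := encard_sdiff_add_encard_of_subset (s := {y, z}) (t := M.E) (by
        intro e he; simp only [mem_insert_iff, mem_singleton_iff] at he
        rcases he with rfl | rfl <;> assumption)
      rw [hyz2] at h5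
      have h6 : (2 : ℕ∞) + 2 ≤ (M.E \ {y, z}).encard + 2 := by
        rw [h5]; exact le_trans (by norm_num) h4
      exact (ENat.add_le_add_iff_right (by norm_num)).1 h6
  -- find `h`
  obtain ⟨t, htH, htx, htb⟩ : ∃ t ∈ H, t ≠ x ∧ M.IsBase ((H \ {x, t}) ∪ {y, z}) := by
    by_cases hd : N.Indep {y, z}
    · have hB0 : N.IsBase (insert y (H \ {x})) := hch.isBase hx hyE' hy
      have hzB0 : z ∉ insert y (H \ {x}) := by
        simp only [mem_insert_iff, not_or]
        exact ⟨hyz.symm, fun h' => hz h'.1⟩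
      have hC := hB0.fundCircuit_isCircuit hzE' hzB0
      have hzcl : z ∈ N.closure (insert y (H \ {x})) := by rw [hB0.closure_eq]; exact hzE'
      have : ¬ N.fundCircuit z (insert y (H \ {x})) ⊆ {y, z} := by
        intro hsub
        exact hC.not_indep (hd.subset hsub)
      rw [not_subset] at this
      obtain ⟨t, ht, htn⟩ := this
      have htI := N.fundCircuit_subset_insert z (insert y (H \ {x})) ht
      simp only [mem_insert_iff, mem_singleton_iff, not_or] at htn
      have htHx : t ∈ H \ {x} := by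
        rcases htI with h' | h' | h'
        · exact absurd h' htn.2
        · exact absurd h' htn.1
        · exact h'
      refine ⟨t, htHx.1, htHx.2, ?_⟩
      rw [hB0.indep.mem_fundCircuit_iff hzcl hzB0] at ht
      have hb := hB0.exchange_isBase_of_indep' (Or.inr htHx) hzB0 ht
      apply hbase
      have e : H \ {x, t} ∪ {y, z} = insert z (insert y (H \ {x})) \ {t} := by
        ext s
        simp only [mem_union, mem_sdiff, mem_insert_iff, mem_singleton_iff, not_or]
        constructor
        · rintro (⟨h1, h2, h3⟩ | h1 | h1)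
          · exact ⟨Or.inr (Or.inr ⟨h1, h2⟩), h3⟩
          · exact ⟨Or.inr (Or.inl h1), fun h' => htn.1 (h' ▸ h1)⟩
          · exact ⟨Or.inl h1, fun h' => htn.2 (h' ▸ h1)⟩
        · rintro ⟨h1 | h1 | ⟨h1, h2⟩, h3⟩
          · exact Or.inr (Or.inr h1)
          · exact Or.inr (Or.inl h1)
          · exact Or.inl ⟨h1, h2, h3⟩
      rw [e]; exact hb
    · obtain ⟨B, hB, hyzB⟩ := hyzM.exists_isBase_superset
      rcases (h.2.2 B).1 hB with hBN | hBH
      · exact absurd (hBN.indep.subset hyzB) hd
      have hBc := (h.2.1 B hBH)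
      have hBeq : ({y, z} : Set α) = B := hBc.1.eq_of_not_indep_subset hd hyzB
      have hr : H.encard = 2 := by rw [hch.encard_eq, ← hBc.encard_eq, ← hBeq, hyz2]
      obtain ⟨p, q, hpq, hHpq⟩ := encard_eq_two.1 hr
      have hxpq : x = p ∨ x = q := by rw [hHpq] at hx; simpa using hx
      rcases hxpq with hxp | hxq
      · refine ⟨q, by rw [hHpq]; simp, by rw [hxp]; exact hpq.symm, ?_⟩
        have : H \ {x, q} = ∅ := by
          rw [hHpq, hxp]; exact Set.sdiff_self
        rw [this, empty_union, hBeq]; exact hB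
      · refine ⟨p, by rw [hHpq]; simp, by rw [hxq]; exact hpq, ?_⟩
        have : H \ {x, p} = ∅ := by
          rw [hHpq, hxq, pair_comm]; exact Set.sdiff_self
        rw [this, empty_union, hBeq]; exact hB
  have hty : t ≠ y := fun h' => hy (h' ▸ htH)
  have htz : t ≠ z := fun h' => hz (h' ▸ htH)
  have e1 : H \ {x, t} ∪ {x, y} = insert y (H \ {t}) := by
    ext s
    simp only [mem_union, mem_sdiff, mem_insert_iff, mem_singleton_iff, not_or]
    constructor
    · rintro (⟨h1, h2, h3⟩ | h1 | h1)
      · exact Or.inr ⟨h1, h3⟩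
      · exact Or.inr ⟨h1 ▸ hx, h1 ▸ htx.symm⟩
      · exact Or.inl h1
    · rintro (h1 | ⟨h1, h2⟩)
      · exact Or.inr (Or.inr h1)
      · by_cases hsx : s = x
        · exact Or.inr (Or.inl hsx)
        · exact Or.inl ⟨h1, hsx, h2⟩
  have e2 : H \ {x, t} ∪ {x, z} = insert z (H \ {t}) := by
    ext s
    simp only [mem_union, mem_sdiff, mem_insert_iff, mem_singleton_iff, not_or]
    constructor
    · rintro (⟨h1, h2, h3⟩ | h1 | h1)
      · exact Or.inr ⟨h1, h3⟩
      · exact Or.inr ⟨h1 ▸ hx, h1 ▸ htx.symm⟩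
      · exact Or.inl h1
    · rintro (h1 | ⟨h1, h2⟩)
      · exact Or.inr (Or.inr h1)
      · by_cases hsx : s = x
        · exact Or.inr (Or.inl hsx)
        · exact Or.inl ⟨h1, hsx, h2⟩
  have e4 : H \ {x, t} ∪ {t, x} = H := by
    ext s
    simp only [mem_union, mem_sdiff, mem_insert_iff, mem_singleton_iff, not_or]
    constructor
    · rintro (⟨h1, h2, h3⟩ | h1 | h1)
      · exact h1
      · exact h1 ▸ htH
      · exact h1 ▸ hx
    · intro h1
      by_cases hsx : s = x
      · exact Or.inr (Or.inr hsx)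
      · by_cases hst : s = t
        · exact Or.inr (Or.inl hst)
        · exact Or.inl ⟨h1, hsx, hst⟩
  have e5 : ∀ u, H \ {x, t} ∪ {t, u} = insert u (H \ {x}) := by
    intro u
    ext s
    simp only [mem_union, mem_sdiff, mem_insert_iff, mem_singleton_iff, not_or]
    constructor
    · rintro (⟨h1, h2, h3⟩ | h1 | h1)
      · exact Or.inr ⟨h1, h2⟩
      · exact Or.inr ⟨h1 ▸ htH, h1 ▸ htx⟩
      · exact Or.inl h1
    · rintro (h1 | ⟨h1, h2⟩)
      · exact Or.inr (Or.inr h1)
      · by_cases hst : s = t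
        · exact Or.inr (Or.inl hst)
        · exact Or.inl ⟨h1, h2, hst⟩
  apply inU24_of_six (w := t) (A := H \ {x, t}) hxy hxz hyz htx hty htz
  · simp
  · exact fun h' => hy h'.1
  · exact fun h' => hz h'.1
  · simp
  · rw [e1]; exact hbase _ (hch.isBase htH hyE' hy)
  · rw [e2]; exact hbase _ (hch.isBase htH hzE' hz)
  · exact htb
  · rw [e4]; exact (h.2.2 H).2 (Or.inr hH)
  · rw [e5]; exact hbase _ (hch.isBase hx hyE' hy)
  · rw [e5]; exact hbase _ (hch.isBase hx hzE' hz)

/-- Case two: a member of the family containing exactly two elements of `X`. -/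
lemma IsRelaxation.case_two [M.Finite] [N.Finite] {𝓗 : Set (Set α)} (h : IsRelaxation N M 𝓗)
    (hM : TutteConnected 4 M) (h4 : 4 ≤ M.E.encard) {H : Set α} (hH : H ∈ 𝓗) {x y z : α}
    (hxy : x ≠ y) (hxz : x ≠ z) (hyz : y ≠ z) (hzE : z ∈ M.E)
    (hx : x ∈ H) (hy : y ∈ H) (hz : z ∉ H) : InU24Minor M {x, y, z} := by
  classical
  have hch := h.2.1 H hH
  have hzE' : z ∈ N.E := h.1 ▸ hzE
  have hHE : H ⊆ N.E := hch.1.subset_ground
  have hHE' : H ⊆ M.E := h.1 ▸ hHE
  have hbase : ∀ B, N.IsBase B → M.IsBase B := fun B hB => (h.2.2 B).2 (Or.inl hB)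
  have hxy2 : ({x, y} : Set α).encard = 2 := encard_pair hxy
  have hxyE : ({x, y} : Set α) ⊆ M.E := by
    intro e he; simp only [mem_insert_iff, mem_singleton_iff] at he
    rcases he with rfl | rfl
    · exact hHE' hx
    · exact hHE' hy
  have hsp : M.Spanning (M.E \ {x, y}) := by
    refine hM.spanning_compl (k := 2) hxyE (by rw [hxy2]; rfl) ?_ (by norm_num)
    have h5 := encard_sdiff_add_encard_of_subset hxyE
    rw [hxy2] at h5
    have h6 : (2 : ℕ∞) + 2 ≤ (M.E \ {x, y}).encard + 2 := by
      rw [h5]; exact le_trans (by norm_num) h4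
    exact (ENat.add_le_add_iff_right (by norm_num)).1 h6
  set A := H \ {x, y} with hA
  have hAE : A ⊆ N.E := sdiff_subset.trans hHE
  have eyz : ∀ u, A ∪ {y, u} = insert u (H \ {x}) := by
    intro u
    ext s
    simp only [hA, mem_union, mem_sdiff, mem_insert_iff, mem_singleton_iff, not_or]
    constructor
    · rintro (⟨h1, h2, h3⟩ | h1 | h1)
      · exact Or.inr ⟨h1, h2⟩
      · exact Or.inr ⟨h1 ▸ hy, h1 ▸ hxy.symm⟩
      · exact Or.inl h1
    · rintro (h1 | ⟨h1, h2⟩)
      · exact Or.inr (Or.inr h1)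
      · by_cases hst : s = y
        · exact Or.inr (Or.inl hst)
        · exact Or.inl ⟨h1, h2, hst⟩
  have exz : ∀ u, A ∪ {x, u} = insert u (H \ {y}) := by
    intro u
    ext s
    simp only [hA, mem_union, mem_sdiff, mem_insert_iff, mem_singleton_iff, not_or]
    constructor
    · rintro (⟨h1, h2, h3⟩ | h1 | h1)
      · exact Or.inr ⟨h1, h3⟩
      · exact Or.inr ⟨h1 ▸ hx, h1 ▸ hxy⟩
      · exact Or.inl h1
    · rintro (h1 | ⟨h1, h2⟩)
      · exact Or.inr (Or.inr h1)
      · by_cases hst : s = x
        · exact Or.inr (Or.inl hst)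
        · exact Or.inl ⟨h1, hst, h2⟩
  have exy : A ∪ {x, y} = H := by
    ext s
    simp only [hA, mem_union, mem_sdiff, mem_insert_iff, mem_singleton_iff, not_or]
    constructor
    · rintro (⟨h1, h2, h3⟩ | h1 | h1)
      · exact h1
      · exact h1 ▸ hx
      · exact h1 ▸ hy
    · intro h1
      by_cases hsx : s = x
      · exact Or.inr (Or.inl hsx)
      · by_cases hst : s = y
        · exact Or.inr (Or.inr hst)
        · exact Or.inl ⟨h1, hsx, hst⟩
  have hzA : z ∉ A := fun h' => hz h'.1
  -- find `w`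
  obtain ⟨w, hwH, hwz, hwb⟩ : ∃ w, w ∉ H ∧ w ≠ z ∧ M.IsBase (A ∪ {w, z}) := by
    by_contra hcon
    push Not at hcon
    have hIind : N.Indep (A ∪ {z}) := by
      apply (hch.isBase hx hzE' hz).indep.subset
      rw [← eyz]
      apply union_subset_union_right
      simp
    have hcl : N.E \ {x, y} ⊆ N.closure (A ∪ {z}) := by
      intro w hw
      by_cases hwA : w ∈ A ∪ {z}
      · exact N.mem_closure_of_mem hwA hIind.subset_ground
      have hwH : w ∉ H := by
        intro h'
        apply hwA
        exact Or.inl ⟨h', hw.2⟩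
      have hwz : w ≠ z := fun h' => hwA (Or.inr h')
      by_contra hncl
      have hi : N.Indep (insert w (A ∪ {z})) :=
        (hIind.insert_indep_iff_of_notMem hwA).2 ⟨hw.1, hncl⟩
      have e : insert w (A ∪ {z}) = A ∪ {w, z} := by
        ext s; simp only [mem_union, mem_insert_iff, mem_singleton_iff]; tauto
      rw [e] at hi
      apply hcon w hwH hwz
      apply hbase
      apply hi.isBase_of_eRk_ge (N.ground_finite.subset hi.subset_ground)
      have hwzd : Disjoint A {w, z} := by
        rw [disjoint_right]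
        intro s hs
        simp only [mem_insert_iff, mem_singleton_iff] at hs
        rcases hs with rfl | rfl
        · exact fun h' => hwH h'.1
        · exact hzA
      have hxyd : Disjoint A {x, y} := by
        rw [hA]; exact disjoint_sdiff_left
      rw [hi.eRk_eq_encard, encard_union_eq hwzd, encard_pair hwz, ← hch.encard_eq]
      conv_lhs => rw [← exy, encard_union_eq hxyd, encard_pair hxy]
    obtain ⟨B, hB, hBs⟩ := hsp.exists_isBase_subset
    rw [h.1] at hBs
    rcases (h.2.2 B).1 hB with hBN | hBH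
    · -- then `x ∈ closure (A ∪ {z})`
      have h1 : N.closure B ⊆ N.closure (A ∪ {z}) :=
        N.closure_subset_closure_of_subset_closure (hBs.trans hcl)
      rw [hBN.closure_eq] at h1
      have hb2 := hch.isBase hy hzE' hz
      rw [← exz] at hb2
      have hxn : x ∉ A ∪ {z} := by
        simp only [mem_union, mem_singleton_iff, not_or]
        exact ⟨fun h' => h'.2 (by simp), hxz⟩
      have hi : N.Indep (insert x (A ∪ {z})) := by
        have e : insert x (A ∪ {z}) = A ∪ {x, z} := by
          ext s; simp only [mem_union, mem_insert_iff, mem_singleton_iff]; tauto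
        rw [e]; exact hb2.indep
      exact ((hIind.insert_indep_iff_of_notMem hxn).1 hi).2 (h1 (hHE hx))
    · have hBc := h.2.1 B hBH
      -- B = N.closure (A ∪ {z})
      have h1 : B ⊆ N.closure (A ∪ {z}) := hBs.trans hcl
      have hrk : N.eRk (A ∪ {z}) ≤ N.eRk B := by
        have h2 : N.eRk (A ∪ {z}) + 1 ≤ N.eRk B + 1 := by
          rw [hBc.2.2, hIind.eRk_eq_encard]
          have hxyd : Disjoint A {z, y} := by
            rw [disjoint_right]
            intro s hs
            simp only [mem_insert_iff, mem_singleton_iff] at hs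
            rcases hs with rfl | rfl
            · exact hzA
            · exact fun h' => h'.2 (by simp)
          have h3 : (A ∪ {z}).encard + 1 = (A ∪ {y, z}).encard := by
            rw [show A ∪ {y, z} = insert y (A ∪ {z}) by
              ext s; simp only [mem_union, mem_insert_iff, mem_singleton_iff]; tauto]
            rw [encard_insert_of_notMem]
            simp only [mem_union, mem_singleton_iff, not_or]
            exact ⟨fun h' => h'.2 (by simp), hyz⟩
          rw [h3, eyz, (hch.isBase hx hzE' hz).encard_eq_eRank]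
        exact (ENat.add_le_add_iff_right ENat.one_ne_top).1 h2
      have hBcl : B = N.closure (A ∪ {z}) := by
        have h3 : N.closure B = N.closure (N.closure (A ∪ {z})) := by
          apply (N.isRkFinite_set B).closure_eq_closure_of_subset_of_eRk_ge_eRk h1
          rw [N.eRk_closure_eq]; exact hrk
        rw [N.closure_closure, hBc.2.1.closure] at h3
        exact h3
      have hBeq : B = N.E \ {x, y} := subset_antisymm hBs (hBcl ▸ hcl)
      -- cardinalities
      have hcard : B.encard = H.encard := by rw [hBc.encard_eq, hch.encard_eq]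
      have hAB : A ⊆ B := by
        rw [hBeq]; exact sdiff_subset_sdiff_left hHE
      have hzB : z ∈ B := by
        rw [hBeq]
        refine ⟨hzE', ?_⟩
        simp only [mem_insert_iff, mem_singleton_iff, not_or]
        exact ⟨hxz.symm, hyz.symm⟩
      have hxyd : Disjoint A {x, y} := by
        rw [hA]; exact disjoint_sdiff_left
      have hAfin : A.Finite := N.ground_finite.subset hAE
      have h5 : (B \ A).encard = 2 := by
        have h6 := encard_sdiff_add_encard_of_subset hAB
        have h7 : H.encard = A.encard + 2 := by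
          conv_lhs => rw [← exy, encard_union_eq hxyd, encard_pair hxy]
        rw [hcard, h7, add_comm] at h6
        exact WithTop.add_left_cancel hAfin.encard_lt_top.ne h6
      obtain ⟨p, q, hpq, hpq2⟩ := encard_eq_two.1 h5
      have hzBA : z ∈ B \ A := ⟨hzB, hzA⟩
      -- the other element
      obtain ⟨w, hw, hwz⟩ : ∃ w, B \ A = {w, z} ∧ w ≠ z := by
        rw [hpq2] at hzBA
        simp only [mem_insert_iff, mem_singleton_iff] at hzBA
        rcases hzBA with h' | h'
        · exact ⟨q, by rw [hpq2, h', pair_comm], by rw [h']; exact hpq.symm⟩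
        · exact ⟨p, by rw [hpq2, h'], by rw [h']; exact hpq⟩
      have hwBA : w ∈ B \ A := by rw [hw]; simp
      have hwH : w ∉ H := by
        intro h'
        apply hwBA.2
        have := hwBA.1
        rw [hBeq] at this
        exact ⟨h', this.2⟩
      apply hcon w hwH hwz
      rw [← hw, union_sdiff_cancel hAB]
      exact hB
  have hwx : w ≠ x := fun h' => hwH (h' ▸ hx)
  have hwy : w ≠ y := fun h' => hwH (h' ▸ hy)
  have hwE : w ∈ N.E := by rw [← h.1]; exact hwb.subset_ground (by simp)
  apply inU24_of_six (w := w) (A := A) hxy hxz hyz hwx hwy hwz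
  · exact fun h' => h'.2 (by simp)
  · exact fun h' => h'.2 (by simp)
  · exact hzA
  · exact fun h' => hwH h'.1
  · rw [exy]; exact (h.2.2 H).2 (Or.inr hH)
  · rw [exz]; exact hbase _ (hch.isBase hy hzE' hz)
  · rw [eyz]; exact hbase _ (hch.isBase hx hzE' hz)
  · rw [pair_comm, exz]; exact hbase _ (hch.isBase hy hwE hwH)
  · rw [pair_comm, eyz]; exact hbase _ (hch.isBase hx hwE hwH)
  · exact hwb

/-- the four-element set and the six bases for a three-element set -/
lemma exists_six_of_inU24 {x y z : α} (hxy : x ≠ y) (hxz : x ≠ z) (hyz : y ≠ z)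
    (h : InU24Minor M {x, y, z}) : ∃ (w : α) (A : Set α), w ≠ x ∧ w ≠ y ∧ w ≠ z ∧
      x ∉ A ∧ y ∉ A ∧ z ∉ A ∧ w ∉ A ∧
      M.IsBase (A ∪ {x, y}) ∧ M.IsBase (A ∪ {x, z}) ∧ M.IsBase (A ∪ {y, z}) ∧
      M.IsBase (A ∪ {w, x}) ∧ M.IsBase (A ∪ {w, y}) ∧ M.IsBase (A ∪ {w, z}) := by
  obtain ⟨Q, A, hXQ, hQE, hQ, hAQ, hb⟩ := bases_of_inU24 h
  have hT : ({x, y, z} : Set α).encard = 3 := by
    rw [encard_eq_three]; exact ⟨x, y, z, hxy, hxz, hyz, rfl⟩
  have h1 : (Q \ {x, y, z}).encard = 1 := by
    have h6 := encard_sdiff_add_encard_of_subset hXQ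
    rw [hT, hQ, show (4 : ℕ∞) = 1 + 3 by norm_num] at h6
    exact WithTop.add_right_cancel (ENat.natCast_ne_top 3) h6
  obtain ⟨w, hw⟩ := encard_eq_one.1 h1
  have hwQ : w ∈ Q \ {x, y, z} := by rw [hw]; simp
  have hn : ∀ t ∈ Q, t ∉ A := fun t ht h => hAQ.ne_of_mem h ht rfl
  have hx : x ∈ Q := hXQ (by simp)
  have hy : y ∈ Q := hXQ (by simp)
  have hz : z ∈ Q := hXQ (by simp)
  have hwn := hwQ.2
  simp only [mem_insert_iff, mem_singleton_iff, not_or] at hwn
  have hp : ∀ s ∈ Q, ∀ t ∈ Q, s ≠ t → M.IsBase (A ∪ {s, t}) := by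
    intro s hs t ht hst
    refine hb _ ?_ (encard_pair hst)
    intro e he; simp only [mem_insert_iff, mem_singleton_iff] at he
    rcases he with rfl | rfl <;> assumption
  exact ⟨w, A, hwn.1, hwn.2.1, hwn.2.2, hn x hx, hn y hy, hn z hz, hn w hwQ.1,
    hp x hx y hy hxy, hp x hx z hz hxz, hp y hy z hz hyz, hp w hwQ.1 x hx hwn.1,
    hp w hwQ.1 y hy hwn.2.1, hp w hwQ.1 z hz hwn.2.2⟩

lemma IsRelaxation.iff_aux [M.Finite] [N.Finite] {𝓗 : Set (Set α)} (h : IsRelaxation N M 𝓗)
    (hM : TutteConnected 4 M) (h4 : 4 ≤ M.E.encard) {X : Set α} (hX : X ⊆ M.E)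
    (hX3 : X.encard = 3) :
    ¬ InU24Minor M X ↔ (¬ InU24Minor N X ∧ ∀ H ∈ 𝓗, X ⊆ H ∨ Disjoint X H) := by
  classical
  obtain ⟨x, y, z, hxy, hxz, hyz, rfl⟩ := Set.encard_eq_three.1 hX3
  have hbase : ∀ B, N.IsBase B → M.IsBase B := fun B hB => (h.2.2 B).2 (Or.inl hB)
  have hxE : x ∈ M.E := hX (by simp)
  have hyE : y ∈ M.E := hX (by simp)
  have hzE : z ∈ M.E := hX (by simp)
  constructor
  · intro hn
    refine ⟨?_, ?_⟩
    · intro hN
      apply hn
      obtain ⟨w, A, h1, h2, h3, h4, h5, h6, h7, b1, b2, b3, b4, b5, b6⟩ :=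
        exists_six_of_inU24 hxy hxz hyz hN
      exact inU24_of_six hxy hxz hyz h1 h2 h3 h4 h5 h6 h7 (hbase _ b1) (hbase _ b2) (hbase _ b3)
        (hbase _ b4) (hbase _ b5) (hbase _ b6)
    · intro H hH
      by_contra hcon
      apply hn
      push Not at hcon
      obtain ⟨hc1, hc2⟩ := hcon
      have hn1 : ¬ (x ∈ H ∧ y ∈ H ∧ z ∈ H) := by
        rintro ⟨a, b, c⟩
        apply hc1
        intro e he; simp only [mem_insert_iff, mem_singleton_iff] at he
        rcases he with rfl | rfl | rfl <;> assumption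
      have hn2 : ¬ (x ∉ H ∧ y ∉ H ∧ z ∉ H) := by
        rintro ⟨a, b, c⟩
        apply hc2
        rw [disjoint_left]
        intro e he; simp only [mem_insert_iff, mem_singleton_iff] at he
        rcases he with rfl | rfl | rfl <;> assumption
      have p1 : ({x, y, z} : Set α) = {y, x, z} := by
        ext s; simp only [mem_insert_iff, mem_singleton_iff]; tauto
      have p2 : ({x, y, z} : Set α) = {z, x, y} := by
        ext s; simp only [mem_insert_iff, mem_singleton_iff]; tauto
      have p3 : ({x, y, z} : Set α) = {y, z, x} := by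
        ext s; simp only [mem_insert_iff, mem_singleton_iff]; tauto
      have p4 : ({x, y, z} : Set α) = {x, z, y} := by
        ext s; simp only [mem_insert_iff, mem_singleton_iff]; tauto
      by_cases hx : x ∈ H <;> by_cases hy : y ∈ H <;> by_cases hz : z ∈ H
      · exact absurd ⟨hx, hy, hz⟩ hn1
      · exact h.case_two hM h4 hH hxy hxz hyz hzE hx hy hz
      · rw [p4]; exact h.case_two hM h4 hH hxz hxy hyz.symm hyE hx hz hy
      · exact h.case_one hM h4 hH hxy hxz hyz hyE hzE hx hy hz
      · rw [p3]; exact h.case_two hM h4 hH hyz hxy.symm hxz.symm hxE hy hz hx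
      · rw [p1]; exact h.case_one hM h4 hH hxy.symm hyz hxz hxE hzE hy hx hz
      · rw [p2]; exact h.case_one hM h4 hH hxz.symm hyz.symm hxy hxE hyE hz hx hy
      · exact absurd ⟨hx, hy, hz⟩ hn2
  · rintro ⟨hN, hH⟩ hin
    apply hN
    obtain ⟨w, A, h1, h2, h3, h4, h5, h6, h7, b1, b2, b3, b4, b5, b6⟩ :=
      exists_six_of_inU24 hxy hxz hyz hin
    have key : ∀ B s t, s ∈ B → t ∉ B → s ∈ ({x, y, z} : Set α) → t ∈ ({x, y, z} : Set α) →
        M.IsBase B → N.IsBase B := by
      intro B s t hs ht hsX htX hB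
      rcases (h.2.2 B).1 hB with h' | h'
      · exact h'
      · exfalso
        rcases hH B h' with h'' | h''
        · exact ht (h'' htX)
        · exact h''.ne_of_mem hsX hs rfl
    refine inU24_of_six hxy hxz hyz h1 h2 h3 h4 h5 h6 h7
      (key _ x z (by simp) ?_ (by simp) (by simp) b1)
      (key _ x y (by simp) ?_ (by simp) (by simp) b2)
      (key _ y x (by simp) ?_ (by simp) (by simp) b3)
      (key _ x y (by simp) ?_ (by simp) (by simp) b4)
      (key _ y x (by simp) ?_ (by simp) (by simp) b5)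
      (key _ z x (by simp) ?_ (by simp) (by simp) b6)
    all_goals simp only [mem_union, mem_insert_iff, mem_singleton_iff, not_or]
    · exact ⟨h6, hxz.symm, hyz.symm⟩
    · exact ⟨h5, hxy.symm, hyz⟩
    · exact ⟨h4, hxy, hxz⟩
    · exact ⟨h5, h2.symm, hxy.symm⟩
    · exact ⟨h4, h1.symm, hxy⟩
    · exact ⟨h4, h1.symm, hxz⟩

lemma IsRelaxation.exists_split [M.Finite] [N.Finite] {𝓗 : Set (Set α)} (h : IsRelaxation N M 𝓗)
    (h4 : 4 ≤ M.E.encard) {H : Set α} (hH : H ∈ 𝓗) :
    ∃ X ⊆ M.E, X.encard = 3 ∧ ¬ (X ⊆ H ∨ Disjoint X H) := by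
  classical
  have hch := h.2.1 H hH
  have hHE : H ⊆ M.E := by rw [h.1]; exact hch.1.subset_ground
  obtain ⟨x, hx⟩ := hch.1.nonempty
  obtain ⟨y, hyE, hy⟩ : ∃ y ∈ M.E, y ∉ H := by
    by_contra hcon
    push Not at hcon
    have : H = M.E := subset_antisymm hHE hcon
    have h2 := hch.2.2
    rw [this, h.1, Matroid.eRk_ground] at h2
    have hfin : N.eRank ≠ ⊤ := by rw [Matroid.eRank_ne_top_iff]; infer_instance
    have h3 : N.eRank + 1 ≤ N.eRank + 0 := by rw [h2, add_zero]
    have := (ENat.add_le_add_iff_left hfin).1 h3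
    simp at this
  have hxy : x ≠ y := fun h' => hy (h' ▸ hx)
  obtain ⟨z, hzE, hz⟩ : ∃ z ∈ M.E, z ∉ ({x, y} : Set α) := by
    by_contra hcon
    push Not at hcon
    have h5 : M.E.encard ≤ ({x, y} : Set α).encard := encard_le_encard hcon
    rw [encard_pair hxy] at h5
    exact absurd (h4.trans h5) (by norm_num)
  simp only [mem_insert_iff, mem_singleton_iff, not_or] at hz
  refine ⟨{x, y, z}, ?_, ?_, ?_⟩
  · intro e he; simp only [mem_insert_iff, mem_singleton_iff] at he
    rcases he with rfl | rfl | rfl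
    · exact hHE hx
    · exact hyE
    · exact hzE
  · rw [encard_eq_three]; exact ⟨x, y, z, hxy, (Ne.symm hz.1), (Ne.symm hz.2), rfl⟩
  · rintro (h' | h')
    · exact hy (h' (by simp))
    · exact h'.ne_of_mem (a := x) (by simp) hx rfl

end H36Mat
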