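import Pool.Agent.Lib_helper36.Mat.Rep
import Pool.Agent.Lib_helper36.Mat.Joints
import Pool.Agent.Lib_helper36.Mat.Relax

/-!
Examples of every rank at least five.
-/

open Set

namespace H36Mat

/-- the even-weight code -/
def ccb : Fin 4 → Fin 3 → Bool := fun p i => !(p = 0 || p = i.succ)

lemma ccb_agree : ∀ p q r : Fin 4, p ≠ q → p ≠ r → q ≠ r →
    ∃ u, ccb q u = ccb r u ∧ ccb p u ≠ ccb q u := by decide

lemma ccb_off : ∀ p q : Fin 4, p ≠ q → ∀ i : Fin 3, ∃ u, u ≠ i ∧ ccb p u ≠ ccb q u := by decide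

lemma ccb_one : ∀ p q : Fin 4, p ≠ q → ∃ l : Fin 3, ccb p l = ccb q l := by decide

lemma card_ne_three : ∀ l : Fin 3, (Finset.univ.filter (fun i : Fin 3 => i ≠ l)).card = 2 := by
  decide

lemma three_others : ∀ s : Fin 4, ∃ p q r : Fin 4, p ≠ q ∧ p ≠ r ∧ q ≠ r ∧
    p ≠ s ∧ q ≠ s ∧ r ≠ s := by decide

lemma ccb_diff : ∀ p q r : Fin 4, p ≠ q → p ≠ r → q ≠ r → ∀ l : Fin 3,
    ccb p l ≠ ccb q l ∨ ccb p l ≠ ccb r l := by decide

section blocks

variable (F : Type*) [Field F] (k : ℕ)

/-- entries of the code in the field -/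
def cc (p : Fin 4) (i : Fin 3) : F := if ccb p i then 1 else 0

lemma cc_eq {p q : Fin 4} {i : Fin 3} (h : ccb p i = ccb q i) : cc F p i = cc F q i := by
  rw [cc, cc, h]

lemma cc_ne {p q : Fin 4} {i : Fin 3} (h : ccb p i ≠ ccb q i) : cc F p i ≠ cc F q i := by
  unfold cc
  cases hp : ccb p i <;> cases hq : ccb q i <;> simp_all

/-- unit vectors of the first kind -/
def Ev (i : Fin 3) : Fin 3 ⊕ Fin k → F := Pi.single (Sum.inl i) 1

/-- the vectors -/
def bv : Fin 3 ⊕ (Fin k × Fin 4) → (Fin 3 ⊕ Fin k → F)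
  | Sum.inl i => Ev F k i
  | Sum.inr (j, p) => Sum.elim (cc F p) (Pi.single j 1)

lemma bv_inl_inl (i u : Fin 3) : bv F k (Sum.inl i) (Sum.inl u) = if u = i then 1 else 0 := by
  simp [bv, Ev, Pi.single_apply]

lemma bv_inl_inr (i : Fin 3) (j : Fin k) : bv F k (Sum.inl i) (Sum.inr j) = 0 := by
  simp [bv, Ev]

lemma bv_inr_inl (j : Fin k) (p : Fin 4) (u : Fin 3) :
    bv F k (Sum.inr (j, p)) (Sum.inl u) = cc F p u := rfl

lemma bv_inr_inr (j : Fin k) (p : Fin 4) (j' : Fin k) :
    bv F k (Sum.inr (j, p)) (Sum.inr j') = if j' = j then 1 else 0 := by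
  simp [bv, Pi.single_apply]

/-- the matroid -/
noncomputable def BM : Matroid (Fin 3 ⊕ (Fin k × Fin 4)) :=
  repMatroid F (bv F k) Set.univ (Set.toFinite _)

lemma BM_rep : Rep F (BM F k) (bv F k) := repMatroid_rep _ _ _

lemma BM_E : (BM F k).E = Set.univ := rfl

instance BM_finite : (BM F k).Finite := repMatroid_finite _ _ _

/-- three different elements are independent -/
lemma three_indep {a b c : Fin 3 ⊕ (Fin k × Fin 4)} (hab : a ≠ b) (hac : a ≠ c) (hbc : b ≠ c)
    {x y z : F} (h : x • bv F k a + y • bv F k b + z • bv F k c = 0) : x = 0 := by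
  classical
  have hc : ∀ u, x * bv F k a u + y * bv F k b u + z * bv F k c u = 0 := fun u => by
    have := congrFun h u
    simpa [smul_eq_mul] using this
  rcases a with i | ⟨j, p⟩
  · -- a = inl i
    have h1 : ∀ u, x * (if u = i then 1 else 0) + y * bv F k b (Sum.inl u) +
        z * bv F k c (Sum.inl u) = 0 := fun u => by
      have := hc (Sum.inl u)
      rwa [bv_inl_inl] at this
    have h2 : ∀ v, y * bv F k b (Sum.inr v) + z * bv F k c (Sum.inr v) = 0 := fun v => by
      have := hc (Sum.inr v)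
      rw [bv_inl_inr, mul_zero, zero_add] at this
      exact this
    rcases b with i2 | ⟨j2, p2⟩
    · have hi2 : i ≠ i2 := fun h' => hab (by rw [h'])
      rcases c with i3 | ⟨j3, p3⟩
      · have hi3 : i ≠ i3 := fun h' => hac (by rw [h'])
        have := h1 i
        rw [bv_inl_inl, bv_inl_inl, if_pos rfl, if_neg hi2, if_neg hi3] at this
        simpa using this
      · have h3 := h2 j3
        rw [bv_inl_inr, bv_inr_inr, if_pos rfl] at h3
        have hz : z = 0 := by simpa using h3
        have := h1 i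
        rw [bv_inl_inl, if_pos rfl, if_neg hi2, hz] at this
        simpa using this
    · rcases c with i3 | ⟨j3, p3⟩
      · have hi3 : i ≠ i3 := fun h' => hac (by rw [h'])
        have h3 := h2 j2
        rw [bv_inl_inr, bv_inr_inr, if_pos rfl] at h3
        have hy : y = 0 := by simpa using h3
        have := h1 i
        rw [bv_inl_inl, if_pos rfl, if_neg hi3, hy] at this
        simpa using this
      · by_cases hj : j2 = j3
        · subst hj
          have hp : p2 ≠ p3 := fun h' => hbc (by rw [h'])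
          have h3 := h2 j2
          rw [bv_inr_inr, bv_inr_inr, if_pos rfl] at h3
          have hz : z = -y := by linear_combination h3
          obtain ⟨u, hu, hne⟩ := ccb_off p2 p3 hp i
          have h4 := h1 u
          rw [if_neg hu, bv_inr_inl, bv_inr_inl, hz] at h4
          have h5 : y * (cc F p2 u - cc F p3 u) = 0 := by linear_combination h4
          have hy : y = 0 := by
            rcases mul_eq_zero.1 h5 with h' | h'
            · exact h'
            · exact absurd (sub_eq_zero.1 h') (cc_ne F hne)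
          have h6 := h1 i
          rw [if_pos rfl, hz, hy] at h6
          simpa using h6
        · have h3 := h2 j2
          rw [bv_inr_inr, bv_inr_inr, if_pos rfl, if_neg hj] at h3
          have hy : y = 0 := by simpa using h3
          have h4 := h2 j3
          rw [bv_inr_inr, bv_inr_inr, if_pos rfl, if_neg (Ne.symm hj)] at h4
          have hz : z = 0 := by simpa using h4
          have h6 := h1 i
          rw [if_pos rfl, hz, hy] at h6
          simpa using h6
  · -- a = inr (j, p)
    have h1 : ∀ u, x * cc F p u + y * bv F k b (Sum.inl u) + z * bv F k c (Sum.inl u) = 0 :=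
      fun u => hc (Sum.inl u)
    have h2 : ∀ v, x * (if v = j then 1 else 0) + y * bv F k b (Sum.inr v) +
        z * bv F k c (Sum.inr v) = 0 := fun v => by
      have := hc (Sum.inr v)
      rwa [bv_inr_inr] at this
    rcases b with i2 | ⟨j2, p2⟩
    · rcases c with i3 | ⟨j3, p3⟩
      · have := h2 j
        rw [if_pos rfl, bv_inl_inr, bv_inl_inr] at this
        simpa using this
      · by_cases hj : j = j3
        · subst hj
          have hp : p ≠ p3 := fun h' => hac (by rw [h'])
          have h3 := h2 j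
          rw [if_pos rfl, bv_inl_inr, bv_inr_inr, if_pos rfl] at h3
          have hz : z = -x := by linear_combination h3
          obtain ⟨u, hu, hne⟩ := ccb_off p p3 hp i2
          have h4 := h1 u
          rw [bv_inl_inl, if_neg hu, bv_inr_inl, hz] at h4
          have h5 : x * (cc F p u - cc F p3 u) = 0 := by linear_combination h4
          rcases mul_eq_zero.1 h5 with h' | h'
          · exact h'
          · exact absurd (sub_eq_zero.1 h') (cc_ne F hne)
        · have := h2 j
          rw [if_pos rfl, bv_inl_inr, bv_inr_inr, if_neg hj] at this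
          simpa using this
    · rcases c with i3 | ⟨j3, p3⟩
      · by_cases hj : j = j2
        · subst hj
          have hp : p ≠ p2 := fun h' => hab (by rw [h'])
          have h3 := h2 j
          rw [if_pos rfl, bv_inl_inr, bv_inr_inr, if_pos rfl] at h3
          have hy : y = -x := by linear_combination h3
          obtain ⟨u, hu, hne⟩ := ccb_off p p2 hp i3
          have h4 := h1 u
          rw [bv_inl_inl, if_neg hu, bv_inr_inl, hy] at h4
          have h5 : x * (cc F p u - cc F p2 u) = 0 := by linear_combination h4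
          rcases mul_eq_zero.1 h5 with h' | h'
          · exact h'
          · exact absurd (sub_eq_zero.1 h') (cc_ne F hne)
        · have := h2 j
          rw [if_pos rfl, bv_inl_inr, bv_inr_inr, if_neg hj] at this
          simpa using this
      · by_cases hj : j = j2
        · subst hj
          have hp : p ≠ p2 := fun h' => hab (by rw [h'])
          by_cases hj' : j = j3
          · subst hj'
            have hp3 : p ≠ p3 := fun h' => hac (by rw [h'])
            have hp23 : p2 ≠ p3 := fun h' => hbc (by rw [h'])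
            obtain ⟨u, hu, hne⟩ := ccb_agree p p2 p3 hp hp3 hp23
            have h3 := h2 j
            rw [if_pos rfl, bv_inr_inr, bv_inr_inr, if_pos rfl] at h3
            have h4 := h1 u
            rw [bv_inr_inl, bv_inr_inl, cc_eq F hu] at h4
            have h5 : x * (cc F p u - cc F p3 u) = 0 := by
              linear_combination h4 - cc F p3 u * h3
            rcases mul_eq_zero.1 h5 with h' | h'
            · exact h'
            · exact absurd (sub_eq_zero.1 h') (cc_ne F (hu ▸ hne))
          · have h3 := h2 j3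
            rw [if_neg (Ne.symm hj'), bv_inr_inr, bv_inr_inr, if_pos rfl,
              if_neg (Ne.symm hj')] at h3
            have hz : z = 0 := by simpa using h3
            have h4 := h2 j
            rw [if_pos rfl, bv_inr_inr, if_pos rfl, hz] at h4
            have hy : y = -x := by linear_combination h4
            obtain ⟨u, hu, hne⟩ := ccb_off p p2 hp 0
            have h6 := h1 u
            rw [bv_inr_inl, hz, hy] at h6
            have h5 : x * (cc F p u - cc F p2 u) = 0 := by linear_combination h6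
            rcases mul_eq_zero.1 h5 with h' | h'
            · exact h'
            · exact absurd (sub_eq_zero.1 h') (cc_ne F hne)
        · by_cases hj' : j = j3
          · subst hj'
            have hp : p ≠ p3 := fun h' => hac (by rw [h'])
            have h3 := h2 j2
            rw [if_neg (Ne.symm hj), bv_inr_inr, bv_inr_inr, if_pos rfl,
              if_neg (Ne.symm hj)] at h3
            have hy : y = 0 := by simpa using h3
            have h4 := h2 j
            rw [if_pos rfl, bv_inr_inr F k j p3, if_pos rfl, hy] at h4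
            have hz : z = -x := by linear_combination h4
            obtain ⟨u, hu, hne⟩ := ccb_off p p3 hp 0
            have h6 := h1 u
            rw [bv_inr_inl F k j p3, hz, hy] at h6
            have h5 : x * (cc F p u - cc F p3 u) = 0 := by linear_combination h6
            rcases mul_eq_zero.1 h5 with h' | h'
            · exact h'
            · exact absurd (sub_eq_zero.1 h') (cc_ne F hne)
          · have := h2 j
            rw [if_pos rfl, bv_inr_inr, bv_inr_inr, if_neg hj, if_neg hj'] at this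
            simpa using this

/-- lower bound for the dimension of a span -/
lemma finrank_ge {A : Set (Fin 3 ⊕ (Fin k × Fin 4))} {κ : Type*} [Fintype κ]
    (u : κ → (Fin 3 → F)) (hu : LinearIndependent F u)
    (hmem : ∀ i, (Sum.elim (u i) 0 : Fin 3 ⊕ Fin k → F) ∈ Submodule.span F (bv F k '' A))
    (J : Finset (Fin k)) (hJ : ∀ j ∈ J, ∃ p, Sum.inr (j, p) ∈ A) :
    Fintype.card κ + J.card ≤ Module.finrank F (Submodule.span F (bv F k '' A)) := by
  classical
  choose! P hP using hJ
  let f : κ ⊕ J → (Fin 3 ⊕ Fin k → F) :=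
    Sum.elim (fun i => Sum.elim (u i) 0) (fun j => bv F k (Sum.inr (j.1, P j.1)))
  have hf : LinearIndependent F f := by
    rw [Fintype.linearIndependent_iff]
    intro g hg
    rw [Fintype.sum_sum_type] at hg
    have hr : ∀ j : J, g (Sum.inr j) = 0 := by
      intro j
      have h1 := congrFun hg (Sum.inr j.1)
      simp only [f, Sum.elim_inl, Sum.elim_inr, Pi.add_apply, Finset.sum_apply, Pi.smul_apply,
        smul_eq_mul, Pi.zero_apply, mul_zero, Finset.sum_const_zero, zero_add, bv_inr_inr] at h1
      rw [Finset.sum_eq_single j] at h1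
      · simpa using h1
      · intro j' _ hj'
        rw [if_neg (fun h => hj' (Subtype.ext h.symm)), mul_zero]
      · intro h'; exact absurd (Finset.mem_univ _) h'
    have hl : ∀ i : κ, g (Sum.inl i) = 0 := by
      have h1 : ∑ i, g (Sum.inl i) • u i = 0 := by
        ext t
        have h2 := congrFun hg (Sum.inl t)
        simp only [f, Sum.elim_inl, Sum.elim_inr, Pi.add_apply, Finset.sum_apply, Pi.smul_apply,
          smul_eq_mul, Pi.zero_apply, hr, zero_mul, Finset.sum_const_zero, add_zero] at h2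
        simpa [Finset.sum_apply] using h2
      exact Fintype.linearIndependent_iff.1 hu (fun i => g (Sum.inl i)) h1
    rintro (i | j)
    · exact hl i
    · exact hr j
  have h1 := finrank_span_eq_card hf
  have h2 : Submodule.span F (range f) ≤ Submodule.span F (bv F k '' A) := by
    rw [Submodule.span_le]
    rintro _ ⟨i | j, rfl⟩
    · exact hmem i
    · exact Submodule.subset_span ⟨_, hP j.1 j.2, rfl⟩
  have h3 := Submodule.finrank_mono h2
  rw [h1, Fintype.card_sum, Fintype.card_coe] at h3
  exact h3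

lemma finrank_le_total (A : Set (Fin 3 ⊕ (Fin k × Fin 4))) :
    Module.finrank F (Submodule.span F (bv F k '' A)) ≤ k + 3 := by
  have h1 := Submodule.finrank_le (Submodule.span F (bv F k '' A))
  rw [Module.finrank_fintype_fun_eq_card] at h1
  simp only [Fintype.card_sum, Fintype.card_fin] at h1
  omega

lemma Ev_eq (i : Fin 3) : Ev F k i = Sum.elim (Pi.single i 1) 0 := by
  ext (u | v)
  · simp [Ev, Pi.single_apply]
  · simp [Ev]

lemma Ev_mem_of_inl {A : Set (Fin 3 ⊕ (Fin k × Fin 4))} {i : Fin 3} (h : Sum.inl i ∈ A) :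
    (Sum.elim (Pi.single i 1) 0 : Fin 3 ⊕ Fin k → F) ∈ Submodule.span F (bv F k '' A) := by
  rw [← Ev_eq]
  exact Submodule.subset_span ⟨_, h, rfl⟩

lemma diff_mem {A : Set (Fin 3 ⊕ (Fin k × Fin 4))} {j : Fin k} {p q : Fin 4}
    (hp : Sum.inr (j, p) ∈ A) (hq : Sum.inr (j, q) ∈ A) :
    (Sum.elim (cc F p - cc F q) 0 : Fin 3 ⊕ Fin k → F) ∈ Submodule.span F (bv F k '' A) := by
  have h1 : (Sum.elim (cc F p - cc F q) 0 : Fin 3 ⊕ Fin k → F) =
      bv F k (Sum.inr (j, p)) - bv F k (Sum.inr (j, q)) := by
    ext (u | v)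
    · simp [bv_inr_inl]
    · simp [bv_inr_inr]
  rw [h1]
  exact Submodule.sub_mem _ (Submodule.subset_span ⟨_, hp, rfl⟩)
    (Submodule.subset_span ⟨_, hq, rfl⟩)

/-- A whole block spans the first three coordinates. -/
lemma Ev_mem_of_whole (h2 : (2 : F) ≠ 0) {A : Set (Fin 3 ⊕ (Fin k × Fin 4))} {j : Fin k}
    (hA : ∀ p, Sum.inr (j, p) ∈ A) (i : Fin 3) :
    (Sum.elim (Pi.single i 1) 0 : Fin 3 ⊕ Fin k → F) ∈ Submodule.span F (bv F k '' A) := by
  have hm : ∀ p, bv F k (Sum.inr (j, p)) ∈ Submodule.span F (bv F k '' A) :=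
    fun p => Submodule.subset_span ⟨_, hA p, rfl⟩
  have h3 : (2 : F) • (Sum.elim (Pi.single i 1) 0 : Fin 3 ⊕ Fin k → F) =
      bv F k (Sum.inr (j, 1)) + bv F k (Sum.inr (j, 2)) + bv F k (Sum.inr (j, 3)) -
        (2 : F) • bv F k (Sum.inr (j, i.succ)) - bv F k (Sum.inr (j, 0)) := by
    ext (u | v)
    · fin_cases i <;> fin_cases u <;> simp [bv_inr_inl, cc, ccb] <;> norm_num
    · simp only [Pi.smul_apply, Sum.elim_inr, Pi.zero_apply, Pi.sub_apply,
        Pi.add_apply, bv_inr_inr, smul_eq_mul]
      split_ifs <;> ring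
  rw [← Submodule.smul_mem_iff _ h2, h3]
  exact Submodule.sub_mem _ (Submodule.sub_mem _ (Submodule.add_mem _ (Submodule.add_mem _
    (hm 1) (hm 2)) (hm 3)) (Submodule.smul_mem _ _ (hm _))) (hm 0)

lemma indepOn_three {a b c : Fin 3 ⊕ (Fin k × Fin 4)} (hab : a ≠ b) (hac : a ≠ c)
    (hbc : b ≠ c) : LinearIndepOn F (bv F k) {a, b, c} := by
  have ha : a ∉ ({b, c} : Set (Fin 3 ⊕ (Fin k × Fin 4))) := by
    simp only [mem_insert_iff, mem_singleton_iff, not_or]; exact ⟨hab, hac⟩
  have hb : b ∉ ({c} : Set (Fin 3 ⊕ (Fin k × Fin 4))) := by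
    simp only [mem_singleton_iff]; exact hbc
  have hc : c ∉ (∅ : Set (Fin 3 ⊕ (Fin k × Fin 4))) := fun h => h
  rw [linearIndepOn_insert ha, linearIndepOn_insert hb, ← insert_empty_eq c,
    linearIndepOn_insert hc]
  refine ⟨⟨⟨linearIndepOn_empty F _, ?_⟩, ?_⟩, ?_⟩
  · rw [image_empty, Submodule.span_empty, Submodule.mem_bot]
    intro h
    have := three_indep F k (a := c) (b := a) (c := b) hac.symm hbc.symm hab (x := 1) (y := 0)
      (z := 0) (by rw [h]; simp)
    exact one_ne_zero this
  · rw [insert_empty_eq, image_singleton, Submodule.mem_span_singleton]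
    rintro ⟨t, ht⟩
    have := three_indep F k (a := b) (b := a) (c := c) hab.symm hbc hac (x := 1) (y := 0)
      (z := -t) (by rw [← ht]; simp)
    exact one_ne_zero this
  · rw [insert_empty_eq, image_pair, Submodule.mem_span_pair]
    rintro ⟨y, z, h⟩
    have := three_indep F k (a := a) (b := b) (c := c) hab hac hbc (x := 1) (y := -y)
      (z := -z) (by rw [← h]; simp only [one_smul, neg_smul]; abel)
    exact one_ne_zero this

lemma le_finrank_of_small {B : Set (Fin 3 ⊕ (Fin k × Fin 4))} {j : ℕ} (hj : j ≤ 3)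
    (hB : (j : ℕ∞) ≤ B.encard) :
    j ≤ Module.finrank F (Submodule.span F (bv F k '' B)) := by
  classical
  obtain ⟨T, hTB, hT⟩ := Set.exists_subset_encard_eq hB
  have huniv : (3 : ℕ∞) ≤ (univ : Set (Fin 3 ⊕ (Fin k × Fin 4))).encard := by
    have h1 : ((range (Sum.inl : Fin 3 → Fin 3 ⊕ (Fin k × Fin 4)))).encard = 3 := by
      rw [← image_univ, Sum.inl_injective.encard_image, Set.encard_univ]
      simp
    rw [← h1]
    exact encard_le_encard (subset_univ _)
  obtain ⟨T', hTT', -, hT'⟩ := Set.exists_superset_subset_encard_eq (subset_univ T)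
    (show T.encard ≤ 3 by rw [hT]; exact_mod_cast hj) huniv
  obtain ⟨a, b, c, hab, hac, hbc, rfl⟩ := Set.encard_eq_three.1 hT'
  have h1 := (indepOn_three F k hab hac hbc).mono hTT'
  have hTfin : T.Finite := Set.toFinite T
  have := hTfin.fintype
  have h2 := finrank_span_eq_card h1
  rw [← image_eq_range] at h2
  have h3 : Submodule.span F (bv F k '' T) ≤ Submodule.span F (bv F k '' B) :=
    Submodule.span_mono (image_mono hTB)
  have h4 := Submodule.finrank_mono h3
  rw [h2] at h4
  have h5 : Fintype.card T = j := by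
    rw [← Set.toFinset_card, ← Set.ncard_eq_toFinset_card']
    rw [Set.ncard, hT]; rfl
  rw [h5] at h4
  exact h4

lemma indep_single : LinearIndependent F (fun i : Fin 3 => (Pi.single i 1 : Fin 3 → F)) := by
  rw [Fintype.linearIndependent_iff]
  intro g hg i
  have := congrFun hg i
  simpa [Finset.sum_apply, Pi.single_apply] using this

/-- blocks met by `A` -/
lemma card_blocks_univ {A : Set (Fin 3 ⊕ (Fin k × Fin 4))}
    (h : ¬ ∃ j : Fin k, ∀ p, Sum.inr (j, p) ∈ Aᶜ) :
    ∀ j ∈ (Finset.univ : Finset (Fin k)), ∃ p, Sum.inr (j, p) ∈ A := by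
  intro j _
  push Not at h
  obtain ⟨p, hp⟩ := h j
  exact ⟨p, Set.notMem_compl_iff.1 hp⟩

lemma lower_S {A : Set (Fin 3 ⊕ (Fin k × Fin 4))} (S : Finset (Fin 3))
    (hS : ∀ i ∈ S, Sum.inl i ∈ A) (h : ¬ ∃ j : Fin k, ∀ p, Sum.inr (j, p) ∈ Aᶜ) :
    S.card + k ≤ Module.finrank F (Submodule.span F (bv F k '' A)) := by
  have h1 := finrank_ge F k (A := A) (κ := S) (fun i => Pi.single i.1 1)
    ((indep_single F).comp _ Subtype.val_injective) (fun i => Ev_mem_of_inl F k (hS i.1 i.2))
    Finset.univ (card_blocks_univ k h)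
  rw [Fintype.card_coe, Finset.card_univ, Fintype.card_fin] at h1
  exact h1

/-- the special case of two blocks -/
lemma special {A : Set (Fin 3 ⊕ (Fin 2 × Fin 4))}
    (hA : ¬ ∃ j : Fin 2, ∀ p, Sum.inr (j, p) ∈ A) (hB : ¬ ∃ j : Fin 2, ∀ p, Sum.inr (j, p) ∈ Aᶜ)
    (h3 : 3 ≤ Aᶜ.encard) (l : Fin 3) (hl : ∀ i, i ≠ l → Sum.inl i ∈ A) :
    8 ≤ Module.finrank F (Submodule.span F (bv F 2 '' A)) +
      Module.finrank F (Submodule.span F (bv F 2 '' Aᶜ)) := by
  classical
  have hAc : ¬ ∃ j : Fin 2, ∀ p, Sum.inr (j, p) ∈ Aᶜᶜ := by rwa [compl_compl]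
  have h2c : (Finset.univ.filter (fun i : Fin 3 => i ≠ l)).card = 2 := by
    have := card_ne_three l
    convert this
  have ha2 : 2 + 2 ≤ Module.finrank F (Submodule.span F (bv F 2 '' A)) := by
    have := lower_S F 2 (A := A) (Finset.univ.filter (fun i : Fin 3 => i ≠ l))
      (fun i hi => hl i (by simpa using hi)) hB
    rwa [h2c] at this
  by_cases hlA : Sum.inl l ∈ A
  · -- X is contained in A
    have hall : ∀ i, Sum.inl i ∈ A := fun i => by
      by_cases hi : i = l
      · rw [hi]; exact hlA
      · exact hl i hi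
    have ha3 : 3 + 2 ≤ Module.finrank F (Submodule.span F (bv F 2 '' A)) := by
      have := lower_S F 2 (A := A) Finset.univ (fun i _ => hall i) hB
      simpa using this
    obtain ⟨T, hTB, hT⟩ := Set.exists_subset_encard_eq h3
    obtain ⟨b1, b2, b3, h12, h13, h23, rfl⟩ := Set.encard_eq_three.1 hT
    have hform : ∀ b ∈ ({b1, b2, b3} : Set (Fin 3 ⊕ (Fin 2 × Fin 4))), ∃ j p,
        b = Sum.inr (j, p) := by
      intro b hb
      rcases b with i | ⟨j, p⟩
      · exact absurd (hall i) (hTB hb)
      · exact ⟨j, p, rfl⟩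
    obtain ⟨j1, p1, e1⟩ := hform b1 (by simp)
    obtain ⟨j2, p2, e2⟩ := hform b2 (by simp)
    obtain ⟨j3, p3, e3⟩ := hform b3 (by simp)
    have m1 : Sum.inr (j1, p1) ∈ Aᶜ := e1 ▸ hTB (by simp)
    have m2 : Sum.inr (j2, p2) ∈ Aᶜ := e2 ▸ hTB (by simp)
    have m3 : Sum.inr (j3, p3) ∈ Aᶜ := e3 ▸ hTB (by simp)
    obtain ⟨j, p, q, hpq, mp, mq⟩ : ∃ (j : Fin 2) (p q : Fin 4), p ≠ q ∧
        Sum.inr (j, p) ∈ Aᶜ ∧ Sum.inr (j, q) ∈ Aᶜ := by
      have hpig : ∀ a b c : Fin 2, a = b ∨ a = c ∨ b = c := by decide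
      rcases hpig j1 j2 j3 with h' | h' | h'
      · subst h'
        exact ⟨j1, p1, p2, fun h => h12 (by rw [e1, e2, h]), m1, m2⟩
      · subst h'
        exact ⟨j1, p1, p3, fun h => h13 (by rw [e1, e3, h]), m1, m3⟩
      · subst h'
        exact ⟨j2, p2, p3, fun h => h23 (by rw [e2, e3, h]), m2, m3⟩
    have hd : cc F p - cc F q ≠ 0 := by
      intro h0
      obtain ⟨u, -, hu⟩ := ccb_off p q hpq 0
      have := congrFun h0 u
      rw [Pi.sub_apply, Pi.zero_apply, sub_eq_zero] at this
      exact cc_ne F hu this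
    have hb1 := finrank_ge F 2 (A := Aᶜ) (κ := Unit) (fun _ => cc F p - cc F q)
      (LinearIndependent.of_subsingleton () hd) (fun _ => diff_mem F 2 mp mq) Finset.univ
      (card_blocks_univ 2 hAc)
    rw [Fintype.card_unit, Finset.card_univ, Fintype.card_fin] at hb1
    omega
  · have hlB : Sum.inl l ∈ Aᶜ := hlA
    by_cases hd : ∃ (j : Fin 2) (p q : Fin 4), p ≠ q ∧ Sum.inr (j, p) ∈ Aᶜ ∧ Sum.inr (j, q) ∈ Aᶜ
    · obtain ⟨j, p, q, hpq, mp, mq⟩ := hd
      obtain ⟨u, hul, hu⟩ := ccb_off p q hpq l
      have hne : cc F p u - cc F q u ≠ 0 := sub_ne_zero.2 (cc_ne F hu)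
      have hind : LinearIndependent F ![(Pi.single l 1 : Fin 3 → F), cc F p - cc F q] := by
        rw [LinearIndependent.pair_iff]
        intro s t hst
        have h1 := congrFun hst u
        simp only [Pi.add_apply, Pi.smul_apply, Pi.single_apply, if_neg hul, smul_eq_mul,
          mul_zero, zero_add, Pi.sub_apply, Pi.zero_apply] at h1
        have ht : t = 0 := by
          rcases mul_eq_zero.1 h1 with h' | h'
          · exact h'
          · exact absurd h' hne
        have h2 := congrFun hst l
        simp only [Pi.add_apply, Pi.smul_apply, Pi.single_apply, smul_eq_mul,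
          if_true, mul_one, ht, zero_mul, add_zero, Pi.zero_apply] at h2
        exact ⟨h2, ht⟩
      have hb2 := finrank_ge F 2 (A := Aᶜ) _ hind (fun i => by
        fin_cases i
        · exact Ev_mem_of_inl F 2 hlB
        · exact diff_mem F 2 mp mq) Finset.univ (card_blocks_univ 2 hAc)
      rw [Fintype.card_fin, Finset.card_univ, Fintype.card_fin] at hb2
      omega
    · push Not at hd
      -- three elements of the first block in `A`
      obtain ⟨p, q, r, hpq, hpr, hqr, mp, mq, mr⟩ : ∃ p q r : Fin 4, p ≠ q ∧ p ≠ r ∧ q ≠ r ∧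
          Sum.inr ((0 : Fin 2), p) ∈ A ∧ Sum.inr ((0 : Fin 2), q) ∈ A ∧
          Sum.inr ((0 : Fin 2), r) ∈ A := by
        by_cases hex : ∃ s : Fin 4, Sum.inr ((0 : Fin 2), s) ∉ A
        · obtain ⟨s, hs⟩ := hex
          have hothers : ∀ p : Fin 4, p ≠ s → Sum.inr ((0 : Fin 2), p) ∈ A := by
            intro p hps
            by_contra hcon
            exact hd 0 p s hps hcon hs
          obtain ⟨p, q, r, h1, h2, h3, h4, h5, h6⟩ := three_others s
          exact ⟨p, q, r, h1, h2, h3, hothers p h4, hothers q h5, hothers r h6⟩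
        · push Not at hex
          exact ⟨0, 1, 2, by decide, by decide, by decide, hex 0, hex 1, hex 2⟩
      obtain ⟨p', q', mp', mq', hne⟩ : ∃ p' q' : Fin 4, Sum.inr ((0 : Fin 2), p') ∈ A ∧
          Sum.inr ((0 : Fin 2), q') ∈ A ∧ ccb p' l ≠ ccb q' l := by
        rcases ccb_diff p q r hpq hpr hqr l with h' | h'
        · exact ⟨p, q, mp, mq, h'⟩
        · exact ⟨p, r, mp, mr, h'⟩
      have hdm := diff_mem F 2 mp' mq'
      have hlmem : (Sum.elim (Pi.single l 1) 0 : Fin 3 ⊕ Fin 2 → F) ∈
          Submodule.span F (bv F 2 '' A) := by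
        have hne' : cc F p' l - cc F q' l ≠ 0 := sub_ne_zero.2 (cc_ne F hne)
        rw [← Submodule.smul_mem_iff _ hne']
        have heq : (cc F p' l - cc F q' l) • (Sum.elim (Pi.single l 1) 0 : Fin 3 ⊕ Fin 2 → F) =
            (Sum.elim (cc F p' - cc F q') 0 : Fin 3 ⊕ Fin 2 → F) -
            ∑ i ∈ Finset.univ.filter (fun i : Fin 3 => i ≠ l),
              (cc F p' i - cc F q' i) • (Sum.elim (Pi.single i 1) 0 : Fin 3 ⊕ Fin 2 → F) := by
          ext (u | v)
          · simp only [Pi.smul_apply, Sum.elim_inl, Pi.single_apply, smul_eq_mul, Pi.sub_apply,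
              Finset.sum_apply]
            by_cases hul : u = l
            · rw [hul, if_pos rfl, Finset.sum_eq_zero]
              · ring
              · intro i hi
                rw [Finset.mem_filter] at hi
                rw [if_neg (Ne.symm hi.2), mul_zero]
            · rw [if_neg hul, Finset.sum_eq_single u]
              · rw [if_pos rfl]; ring
              · intro i _ hi
                rw [if_neg (Ne.symm hi), mul_zero]
              · intro h'
                exact absurd (by rw [Finset.mem_filter]; exact ⟨Finset.mem_univ _, hul⟩) h'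
          · simp [Finset.sum_apply]
        rw [heq]
        apply Submodule.sub_mem _ hdm
        apply Submodule.sum_mem
        intro i hi
        rw [Finset.mem_filter] at hi
        exact Submodule.smul_mem _ _ (Ev_mem_of_inl F 2 (hl i hi.2))
      have ha3 := finrank_ge F 2 (A := A) _ (indep_single F) (fun i => by
        by_cases hi : i = l
        · rw [hi]; exact hlmem
        · exact Ev_mem_of_inl F 2 (hl i hi)) Finset.univ (card_blocks_univ 2 hB)
      rw [Fintype.card_fin, Finset.card_univ, Fintype.card_fin] at ha3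
      have hb1 : 1 + 2 ≤ Module.finrank F (Submodule.span F (bv F 2 '' Aᶜ)) := by
        have := lower_S F 2 (A := Aᶜ) {l} (fun i hi => by
          rw [Finset.mem_singleton] at hi; rw [hi]; exact hlB) hAc
        simpa using this
      omega

theorem BM_rank_sum (h2 : (2 : F) ≠ 0) (hk : 2 ≤ k) {A : Set (Fin 3 ⊕ (Fin k × Fin 4))} {j : ℕ}
    (hj : j ≤ 3) (h1 : (j : ℕ∞) ≤ A.encard) (h1' : (j : ℕ∞) ≤ Aᶜ.encard) :
    k + 3 + j ≤ Module.finrank F (Submodule.span F (bv F k '' A)) +
      Module.finrank F (Submodule.span F (bv F k '' Aᶜ)) := by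
  classical
  obtain ⟨J, hJ⟩ : ∃ J : Set (Fin 3 ⊕ (Fin k × Fin 4)) → Finset (Fin k),
      ∀ A j, j ∈ J A ↔ ∃ p, Sum.inr (j, p) ∈ A :=
    ⟨fun A => Finset.univ.filter (fun j : Fin k => ∃ p, Sum.inr (j, p) ∈ A), fun A j => by
      rw [Finset.mem_filter]; exact ⟨fun h => h.2, fun h => ⟨Finset.mem_univ _, h⟩⟩⟩
  have whole : ∀ A : Set (Fin 3 ⊕ (Fin k × Fin 4)), (∃ j : Fin k, ∀ p, Sum.inr (j, p) ∈ A) →
      3 + (J A).card ≤ Module.finrank F (Submodule.span F (bv F k '' A)) := by
    rintro A ⟨j, hj⟩
    have := finrank_ge F k (A := A) _ (indep_single F) (Ev_mem_of_whole F k h2 hj)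
      (J A) (fun j hj => (hJ A j).1 hj)
    rwa [Fintype.card_fin] at this
  have full : ∀ A : Set (Fin 3 ⊕ (Fin k × Fin 4)), (¬ ∃ j : Fin k, ∀ p, Sum.inr (j, p) ∈ Aᶜ) →
      (J A).card = k := by
    intro A hA
    have h0 : J A = Finset.univ := by
      apply Finset.eq_univ_of_forall
      intro j
      exact (hJ A j).2 (card_blocks_univ k hA j (Finset.mem_univ _))
    rw [h0, Finset.card_univ, Fintype.card_fin]
  by_cases hA : ∃ j : Fin k, ∀ p, Sum.inr (j, p) ∈ A
  · have ha := whole A hA
    by_cases hB : ∃ j : Fin k, ∀ p, Sum.inr (j, p) ∈ Aᶜ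
    · have hb := whole Aᶜ hB
      have hc : k ≤ (J A).card + (J Aᶜ).card := by
        have hu : (Finset.univ : Finset (Fin k)) ⊆ J A ∪ J Aᶜ := by
          intro j _
          rw [Finset.mem_union, hJ, hJ]
          by_cases h0 : Sum.inr (j, 0) ∈ A
          · exact Or.inl ⟨0, h0⟩
          · exact Or.inr ⟨0, h0⟩
        have h3 := Finset.card_le_card hu
        rw [Finset.card_univ, Fintype.card_fin] at h3
        exact h3.trans (Finset.card_union_le _ _)
      omega
    · rw [full A hB] at ha
      have hb := le_finrank_of_small F k hj h1'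
      omega
  · by_cases hB : ∃ j : Fin k, ∀ p, Sum.inr (j, p) ∈ Aᶜ
    · have hb := whole Aᶜ hB
      rw [full Aᶜ (by rwa [compl_compl])] at hb
      have ha := le_finrank_of_small F k hj h1
      omega
    · -- no whole block on either side
      let SA : Finset (Fin 3) := Finset.univ.filter (fun i => Sum.inl i ∈ A)
      let SB : Finset (Fin 3) := Finset.univ.filter (fun i => Sum.inl i ∉ A)
      have hSAB : SA.card + SB.card = 3 := by
        have := Finset.card_filter_add_card_filter_not (s := (Finset.univ : Finset (Fin 3)))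
          (fun i => Sum.inl i ∈ A)
        rw [Finset.card_univ, Fintype.card_fin] at this
        exact this
      have ha := lower_S F k (A := A) SA (fun i hi => by
        simpa [SA] using hi) hB
      have hb := lower_S F k (A := Aᶜ) SB (fun i hi => by
        simpa [SB] using hi) (by rwa [compl_compl])
      by_cases hjk : j ≤ k
      · omega
      · have hk2 : k = 2 := by omega
        have hj3 : j = 3 := by omega
        subst hk2
        subst hj3
        by_cases hSB : SB.card ≤ 1
        · obtain ⟨l, hl⟩ : ∃ l : Fin 3, ∀ i, i ≠ l → i ∉ SB := by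
            rcases Nat.eq_zero_or_pos SB.card with h0 | h0
            · refine ⟨0, fun i _ => ?_⟩
              rw [Finset.card_eq_zero.1 h0]
              exact Finset.notMem_empty _
            · obtain ⟨l, hl⟩ := Finset.card_eq_one.1 (show SB.card = 1 by omega)
              refine ⟨l, fun i hi => ?_⟩
              rw [hl, Finset.mem_singleton]; exact hi
          exact special F hA hB (by exact_mod_cast h1') l (fun i hi => by
            have := hl i hi
            simpa [SB] using this)
        · have hSA : SA.card ≤ 1 := by omega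
          obtain ⟨l, hl⟩ : ∃ l : Fin 3, ∀ i, i ≠ l → i ∉ SA := by
            rcases Nat.eq_zero_or_pos SA.card with h0 | h0
            · refine ⟨0, fun i _ => ?_⟩
              rw [Finset.card_eq_zero.1 h0]
              exact Finset.notMem_empty _
            · obtain ⟨l, hl⟩ := Finset.card_eq_one.1 (show SA.card = 1 by omega)
              refine ⟨l, fun i hi => ?_⟩
              rw [hl, Finset.mem_singleton]; exact hi
          have := special F (A := Aᶜ) hB (by rwa [compl_compl])
            (by rw [compl_compl]; exact_mod_cast h1) l (fun i hi => by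
            have := hl i hi
            simpa [SA] using this)
          rw [compl_compl] at this
          omega

theorem BM_connected (h2 : (2 : F) ≠ 0) (hk : 2 ≤ k) : TutteConnected 4 (BM F k) := by
  intro j hj hj4 A hsep
  obtain ⟨hA, h1, h1', h3⟩ := hsep
  have hcompl : (BM F k).E \ A = Aᶜ := by rw [BM_E, compl_eq_univ_sdiff]
  rw [hcompl] at h1' h3
  rw [Matroid.eRank_def, (BM_rep F k).eRk_eq (subset_univ _), (BM_rep F k).eRk_eq (subset_univ _),
    (BM_rep F k).eRk_eq (subset_univ _)] at h3
  have h4 := BM_rank_sum F k h2 hk (by omega) h1 h1'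
  have h5 := finrank_le_total F k (BM F k).E
  have h6 : Module.finrank F (Submodule.span F (bv F k '' A)) +
      Module.finrank F (Submodule.span F (bv F k '' Aᶜ)) + 1 ≤
      Module.finrank F (Submodule.span F (bv F k '' (BM F k).E)) + j := by exact_mod_cast h3
  omega

theorem BM_eRank : (BM F k).eRank = ((k + 3 : ℕ) : ℕ∞) := by
  rw [Matroid.eRank_def, (BM_rep F k).eRk_eq (subset_univ _)]
  have h5 := finrank_le_total F k (BM F k).E
  have h6 := lower_S F k (A := (BM F k).E) Finset.univ (fun i _ => mem_univ _) (by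
    rintro ⟨j, hj⟩
    exact hj 0 (mem_univ _))
  rw [Finset.card_univ, Fintype.card_fin] at h6
  have : Module.finrank F (Submodule.span F (bv F k '' (BM F k).E)) = k + 3 := by omega
  rw [this]

/-- no circuit contains the three unit vectors -/
theorem BM_no_circuit {C : Set (Fin 3 ⊕ (Fin k × Fin 4))} (hC : (BM F k).IsCircuit C)
    (hX : ∀ i, Sum.inl i ∈ C) : False := by
  classical
  have hrep := BM_rep F k
  have ind_off : ∀ t ∈ C, LinearIndepOn F (bv F k) (C \ {t}) := fun t ht =>
    (hrep _ (subset_univ _)).1 (hC.sdiff_singleton_indep ht)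
  -- there is an element of a block
  obtain ⟨j, p, hjp⟩ : ∃ j p, Sum.inr (j, p) ∈ C := by
    by_contra hcon
    push Not at hcon
    have hCX : C ⊆ {Sum.inl 0, Sum.inl 1, Sum.inl 2} := by
      intro t ht
      rcases t with i | ⟨j, p⟩
      · fin_cases i <;> simp
      · exact absurd ht (hcon j p)
    apply hC.not_indep
    apply ((hrep _ (subset_univ _)).2 ?_)
    exact (indepOn_three F k (a := Sum.inl 0) (b := Sum.inl 1) (c := Sum.inl 2)
      (by simp) (by simp) (by simp)).mono hCX
  have hcl : bv F k (Sum.inr (j, p)) ∈ Submodule.span F (bv F k '' (C \ {Sum.inr (j, p)})) := by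
    rw [← hrep.mem_closure_iff (subset_univ _) (mem_univ _)]
    exact hC.mem_closure_sdiff_singleton_of_mem hjp
  obtain ⟨q, hq, hqC⟩ : ∃ q, q ≠ p ∧ Sum.inr (j, q) ∈ C := by
    by_contra hcon
    push Not at hcon
    have hle : Submodule.span F (bv F k '' (C \ {Sum.inr (j, p)})) ≤
        LinearMap.ker (LinearMap.proj (Sum.inr j) : (Fin 3 ⊕ Fin k → F) →ₗ[F] F) := by
      rw [Submodule.span_le]
      rintro _ ⟨t, ht, rfl⟩
      show bv F k t (Sum.inr j) = 0
      rcases t with i | ⟨j', q⟩
      · exact bv_inl_inr F k i j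
      · rw [bv_inr_inr, if_neg]
        rintro rfl
        by_cases hqp : q = p
        · apply ht.2; rw [hqp]; rfl
        · exact hcon q hqp ht.1
    have h3 := hle hcl
    rw [LinearMap.mem_ker, LinearMap.proj_apply, bv_inr_inr, if_pos rfl] at h3
    exact one_ne_zero h3
  -- remove the coordinate where `p` and `q` agree
  obtain ⟨l, hl⟩ := ccb_one p q (Ne.symm hq)
  have h4 := ind_off (Sum.inl l) (hX l)
  have h5 := h4.mono (t := insert (Sum.inr (j, p)) ((C \ {Sum.inl l}) \ {Sum.inr (j, p)})) (by
    intro t ht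
    rcases ht with rfl | ht
    · exact ⟨hjp, by simp⟩
    · exact ht.1)
  rw [linearIndepOn_insert (by simp)] at h5
  apply h5.2
  set S := Submodule.span F (bv F k '' ((C \ {Sum.inl l}) \ {Sum.inr (j, p)})) with hS
  have hqS : bv F k (Sum.inr (j, q)) ∈ S := Submodule.subset_span ⟨_, ⟨⟨hqC, by simp⟩, by
    simpa using hq⟩, rfl⟩
  have hES : ∀ i, i ≠ l → (Sum.elim (Pi.single i 1) 0 : Fin 3 ⊕ Fin k → F) ∈ S := by
    intro i hi
    apply Ev_mem_of_inl
    exact ⟨⟨hX i, by simpa using hi⟩, by simp⟩
  have heq : bv F k (Sum.inr (j, p)) = bv F k (Sum.inr (j, q)) +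
      ∑ i ∈ Finset.univ.filter (fun i : Fin 3 => i ≠ l),
        (cc F p i - cc F q i) • (Sum.elim (Pi.single i 1) 0 : Fin 3 ⊕ Fin k → F) := by
    ext (u | v)
    · simp only [bv_inr_inl, Pi.add_apply, Finset.sum_apply, Pi.smul_apply, Sum.elim_inl,
        Pi.single_apply, smul_eq_mul]
      by_cases hul : u = l
      · rw [hul, Finset.sum_eq_zero, cc_eq F hl, add_zero]
        intro i hi
        rw [Finset.mem_filter] at hi
        rw [if_neg (Ne.symm hi.2), mul_zero]
      · rw [Finset.sum_eq_single u]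
        · rw [if_pos rfl]; ring
        · intro i _ hi
          rw [if_neg (Ne.symm hi), mul_zero]
        · intro h'
          exact absurd (by rw [Finset.mem_filter]; exact ⟨Finset.mem_univ _, hul⟩) h'
    · simp [bv_inr_inr, Finset.sum_apply]
  rw [heq]
  apply Submodule.add_mem _ hqS
  apply Submodule.sum_mem
  intro i hi
  rw [Finset.mem_filter] at hi
  exact Submodule.smul_mem _ _ (hES i hi.2)

/-- In a binary representation the sum over a four-element circuit is zero. -/
lemma four_sum {α : Type*} {M : Matroid α} {m : ℕ} {w : α → (Fin m → ZMod 2)}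
    (hw : Rep (ZMod 2) M w) {a b c d : α} (hab : a ≠ b) (hac : a ≠ c) (had : a ≠ d)
    (hE : ({a, b, c, d} : Set α) ⊆ M.E) (hdep : ¬ M.Indep {a, b, c, d})
    (h1 : M.Indep {b, c, d}) (h2 : M.Indep {a, c, d}) (h3 : M.Indep {a, b, d})
    (h4 : M.Indep {a, b, c}) : w a + w b + w c + w d = 0 := by
  have e1 := (hw _ h1.subset_ground).1 h1
  have e2 := (hw _ h2.subset_ground).1 h2
  have e3 := (hw _ h3.subset_ground).1 h3
  have e4 := (hw _ h4.subset_ground).1 h4
  have e0 : ¬ LinearIndepOn (ZMod 2) w {a, b, c, d} := fun h => hdep ((hw _ hE).2 h)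
  rw [linearIndepOn_insert (by simp [hab, hac, had])] at e0
  rw [linearIndepOn_insert (by simp [hac, had])] at e2
  rw [linearIndepOn_insert (by simp [hab, had])] at e3
  rw [linearIndepOn_insert (by simp [hab, hac])] at e4
  have hmem : w a ∈ Submodule.span (ZMod 2) (w '' {b, c, d}) := by
    by_contra hcon
    exact e0 ⟨e1, hcon⟩
  have n2 := e2.2
  have n3 := e3.2
  have n4 := e4.2
  rw [image_pair, Submodule.mem_span_pair] at n2 n3 n4
  rw [image_insert_eq, image_pair, Submodule.mem_span_triple] at hmem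
  obtain ⟨x, y, z, hxyz⟩ := hmem
  have h01 : ∀ t : ZMod 2, t = 0 ∨ t = 1 := by decide
  have htwo : ∀ u : Fin m → ZMod 2, u + u = 0 := fun u => by
    ext i
    show u i + u i = 0
    have : ∀ t : ZMod 2, t + t = 0 := by decide
    exact this _
  rcases h01 x with rfl | rfl
  · exact absurd ⟨y, z, by rw [← hxyz]; simp⟩ n2
  rcases h01 y with rfl | rfl
  · exact absurd ⟨1, z, by rw [← hxyz]; simp⟩ n3
  rcases h01 z with rfl | rfl
  · exact absurd ⟨1, 1, by rw [← hxyz]; simp⟩ n4
  rw [← hxyz, one_smul, one_smul, one_smul]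
  have h5 := htwo (w b + w c + w d)
  rw [← h5]
  abel

/-- the matroid is non-binary -/
theorem BM_not_binary (h2 : (2 : F) ≠ 0) (hk : 1 ≤ k) : ¬ Binary (BM F k) := by
  classical
  rintro ⟨m, w, hw⟩
  have hw' : Rep (ZMod 2) (BM F k) w := hw
  have hrep := BM_rep F k
  let j : Fin k := ⟨0, by omega⟩
  have three : ∀ {a b c : Fin 3 ⊕ (Fin k × Fin 4)}, a ≠ b → a ≠ c → b ≠ c →
      (BM F k).Indep {a, b, c} := fun hab hac hbc =>
    (hrep _ (subset_univ _)).2 (indepOn_three F k hab hac hbc)
  have circ : ∀ (i a b : Fin 3), a ≠ b → (∀ u, ccb i.succ u = (u = a || u = b)) →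
      w (Sum.inr (j, i.succ)) + w (Sum.inr (j, 0)) + w (Sum.inl a) + w (Sum.inl b) = 0 := by
    intro i a b hab hcc
    have n1 : (Sum.inr (j, i.succ) : Fin 3 ⊕ (Fin k × Fin 4)) ≠ Sum.inr (j, 0) := by
      simp
    have n2 : (Sum.inr (j, i.succ) : Fin 3 ⊕ (Fin k × Fin 4)) ≠ Sum.inl a := by simp
    have n3 : (Sum.inr (j, i.succ) : Fin 3 ⊕ (Fin k × Fin 4)) ≠ Sum.inl b := by simp
    have n4 : (Sum.inr (j, 0) : Fin 3 ⊕ (Fin k × Fin 4)) ≠ Sum.inl a := by simp
    have n5 : (Sum.inr (j, 0) : Fin 3 ⊕ (Fin k × Fin 4)) ≠ Sum.inl b := by simp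
    have n6 : (Sum.inl a : Fin 3 ⊕ (Fin k × Fin 4)) ≠ Sum.inl b := by simpa using hab
    apply four_sum hw' n1 n2 n3 (subset_univ _) _ (three n4 n5 n6) (three n2 n3 n6)
      (three n1 n3 n5) (three n1 n2 n4)
    intro hind
    have h3 := (hrep _ (subset_univ _)).1 hind
    rw [linearIndepOn_insert (by simp)] at h3
    apply h3.2
    have heq : bv F k (Sum.inr (j, i.succ)) = bv F k (Sum.inr (j, 0)) + bv F k (Sum.inl a) +
        bv F k (Sum.inl b) := by
      ext (u | v)
      · rw [Pi.add_apply, Pi.add_apply, bv_inr_inl, bv_inr_inl, bv_inl_inl, bv_inl_inl, cc,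
          hcc u, cc]
        by_cases hua : u = a
        · have hub : u ≠ b := hua ▸ hab
          simp [hua, hab, ccb]
        · by_cases hub : u = b
          · simp [hub, hab.symm, ccb]
          · simp [hua, hub, ccb]
      · rw [Pi.add_apply, Pi.add_apply, bv_inr_inr, bv_inr_inr, bv_inl_inr, bv_inl_inr]
        simp
    rw [heq]
    exact Submodule.add_mem _ (Submodule.add_mem _ (Submodule.subset_span ⟨_, by simp, rfl⟩)
      (Submodule.subset_span ⟨_, by simp, rfl⟩)) (Submodule.subset_span ⟨_, by simp, rfl⟩)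
  have c0 := circ 0 1 2 (by decide) (by decide)
  have c1 := circ 1 0 2 (by decide) (by decide)
  have c2 := circ 2 0 1 (by decide) (by decide)
  have htwo : ∀ u : Fin m → ZMod 2, u + u = 0 := fun u => by
    ext i
    show u i + u i = 0
    have : ∀ t : ZMod 2, t + t = 0 := by decide
    exact this _
  have hsum : w (Sum.inr (j, 0)) = w (Sum.inr (j, 1)) + w (Sum.inr (j, 2)) +
      w (Sum.inr (j, 3)) := by
    have e0 : (0 : Fin 3).succ = (1 : Fin 4) := rfl
    have e1 : (1 : Fin 3).succ = (2 : Fin 4) := rfl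
    have e2 : (2 : Fin 3).succ = (3 : Fin 4) := rfl
    rw [e0] at c0
    rw [e1] at c1
    rw [e2] at c2
    ext t
    have d0 := congrFun c0 t
    have d1 := congrFun c1 t
    have d2 := congrFun c2 t
    simp only [Pi.add_apply, Pi.zero_apply] at d0 d1 d2 ⊢
    generalize w (Sum.inr (j, 0)) t = x0 at *
    generalize w (Sum.inr (j, 1)) t = x1 at *
    generalize w (Sum.inr (j, 2)) t = x2 at *
    generalize w (Sum.inr (j, 3)) t = x3 at *
    generalize w (Sum.inl 0) t = y0 at *
    generalize w (Sum.inl 1) t = y1 at *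
    generalize w (Sum.inl 2) t = y2 at *
    have key : ∀ x0 x1 x2 x3 y0 y1 y2 : ZMod 2, x1 + x0 + y1 + y2 = 0 → x2 + x0 + y0 + y2 = 0 →
        x3 + x0 + y0 + y1 = 0 → x0 = x1 + x2 + x3 := by decide
    exact key x0 x1 x2 x3 y0 y1 y2 d0 d1 d2
  -- the block is independent
  set Q : Set (Fin 3 ⊕ (Fin k × Fin 4)) :=
    {Sum.inr (j, 0), Sum.inr (j, 1), Sum.inr (j, 2), Sum.inr (j, 3)} with hQ
  have hQcard : Q.encard = 4 := by
    rw [hQ, encard_insert_of_notMem, encard_insert_of_notMem, encard_insert_of_notMem,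
      encard_singleton]
    · norm_num
    · simp
    · simp
    · simp
  have hQind : (BM F k).Indep Q := by
    have h3 := finrank_ge F k (A := Q) _ (indep_single F) (Ev_mem_of_whole F k h2 (j := j)
      (fun p => by fin_cases p <;> simp [hQ])) {j} (fun j' hj' => by
        rw [Finset.mem_singleton] at hj'
        exact ⟨0, by rw [hj']; simp [hQ]⟩)
    rw [Fintype.card_fin, Finset.card_singleton] at h3
    have h4 := hrep.eRk_eq (subset_univ Q)
    rw [Matroid.indep_iff_eRk_eq_encard_of_finite (Set.toFinite Q)]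
    apply le_antisymm (Matroid.eRk_le_encard _ _)
    rw [h4, hQcard]
    exact_mod_cast h3
  have h5 := (hw _ (subset_univ _)).1 hQind
  rw [hQ, linearIndepOn_insert (by simp)] at h5
  apply h5.2
  rw [hsum]
  exact Submodule.add_mem _ (Submodule.add_mem _ (Submodule.subset_span ⟨_, by simp, rfl⟩)
    (Submodule.subset_span ⟨_, by simp, rfl⟩)) (Submodule.subset_span ⟨_, by simp, rfl⟩)

end blocks

end H36Mat
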