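import Pool.Agent.Lib_helper36.Mat.U24

open Set

namespace H36Mat

universe u
variable {α : Type u} {M : Matroid α}

lemma TutteConnected.rank_ineq {n k : ℕ} (hM : TutteConnected n M) {A : Set α} (hA : A ⊆ M.E)
    (hk1 : (k : ℕ∞) ≤ A.encard) (hk2 : (k : ℕ∞) ≤ (M.E \ A).encard) (hkn : k < n) :
    M.eRank + k ≤ M.eRk A + M.eRk (M.E \ A) := by
  rcases Nat.eq_zero_or_pos k with rfl | hk
  · have := M.eRk_union_le_eRk_add_eRk A (M.E \ A)
    rw [union_sdiff_cancel hA, Matroid.eRk_ground] at this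
    simpa using this
  have h := hM k hk hkn A
  unfold IsSeparation at h
  push Not at h
  have h2 := h hA hk1 hk2
  exact Order.le_of_lt_add_one h2

lemma TutteConnected.indep_of_encard [M.Finite] {n k : ℕ} (hM : TutteConnected n M) {A : Set α}
    (hA : A ⊆ M.E) (hk1 : A.encard = k) (hk2 : (k : ℕ∞) ≤ (M.E \ A).encard) (hkn : k < n) :
    M.Indep A := by
  have h := hM.rank_ineq hA hk1.ge hk2 hkn
  have h2 : M.eRk (M.E \ A) ≤ M.eRank := M.eRk_le_eRank _
  have hfin : M.eRank ≠ ⊤ := by rw [Matroid.eRank_ne_top_iff]; infer_instance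
  rw [Matroid.indep_iff_eRk_eq_encard_of_finite (M.ground_finite.subset hA)]
  apply le_antisymm (M.eRk_le_encard A)
  rw [hk1]
  have h3 : M.eRank + k ≤ M.eRank + M.eRk A := by
    calc M.eRank + k ≤ M.eRk A + M.eRk (M.E \ A) := h
      _ ≤ M.eRk A + M.eRank := by gcongr
      _ = _ := add_comm _ _
  exact (ENat.add_le_add_iff_left hfin).1 h3

lemma TutteConnected.spanning_compl [M.Finite] {n k : ℕ} (hM : TutteConnected n M) {A : Set α}
    (hA : A ⊆ M.E) (hk1 : A.encard = k) (hk2 : (k : ℕ∞) ≤ (M.E \ A).encard) (hkn : k < n) :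
    M.Spanning (M.E \ A) := by
  have h := hM.rank_ineq hA hk1.ge hk2 hkn
  rw [Matroid.spanning_iff_eRk_le (hX := sdiff_subset)]
  have h2 : M.eRk A ≤ k := by rw [← hk1]; exact M.eRk_le_encard A
  have h3 : M.eRank + k ≤ M.eRk (M.E \ A) + k := by
    calc M.eRank + k ≤ M.eRk A + M.eRk (M.E \ A) := h
      _ ≤ k + M.eRk (M.E \ A) := by gcongr
      _ = _ := add_comm _ _
  exact (ENat.add_le_add_iff_right (ENat.natCast_ne_top k)).1 h3

end H36Mat
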