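import Pool.Agent.Lib_helper36.Mat.Mader

/-!
Connectivity consequences for the graphs of `Mader.lean`.
-/

open Finset

namespace H36Mat

section

variable {W : Type} [Fintype W] {G : SimpleGraph W} {k γ : ℕ}

lemma Core.card_gt (h : Core G k γ) : γ < Fintype.card W := by
  classical
  obtain ⟨v⟩ := h.nonempty
  exact (h.deg v).trans_le (Finset.card_le_univ _)

/-- Small sets of vertices do not separate the graph. -/
lemma Core.no_cut (h : Core G k γ) (hγ : 3 * k ≤ γ) (P Q S : Finset W)
    (hS : S.card ≤ k) (hP : P.Nonempty) (hQ : Q.Nonempty)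
    (hPQ : Disjoint P Q) (hPS : Disjoint P S) (hQS : Disjoint Q S)
    (hall : ∀ v, v ∈ P ∨ v ∈ Q ∨ v ∈ S) (hno : ∀ p ∈ P, ∀ q ∈ Q, ¬ G.Adj p q) : False := by
  classical
  have hside : ∀ (P Q : Finset W), P.Nonempty → Q.Nonempty → Disjoint P Q → Disjoint Q S →
      (∀ v, v ∈ P ∨ v ∈ Q ∨ v ∈ S) → (∀ p ∈ P, ∀ q ∈ Q, ¬ G.Adj p q) →
      (pr G (P ∪ S)).card + 2 * γ * k ≤ 2 * γ * (P ∪ S).card := by
    intro P Q hP hQ hPQ hQS hall hno
    apply h.small
    · intro heq
      obtain ⟨q, hq⟩ := hQ
      have : q ∈ P ∪ S := by rw [heq]; exact Finset.mem_univ _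
      rcases Finset.mem_union.1 this with h' | h'
      · exact Finset.disjoint_left.1 hPQ h' hq
      · exact Finset.disjoint_left.1 hQS hq h'
    · obtain ⟨p, hp⟩ := hP
      have h1 : nb G p ⊆ P ∪ S := by
        intro v hv
        rw [mem_nb] at hv
        rcases hall v with h' | h' | h'
        · exact Finset.mem_union_left _ h'
        · exact absurd hv (hno p hp v h')
        · exact Finset.mem_union_right _ h'
      have h2 := Finset.card_le_card h1
      have h3 := h.deg p
      omega
  have h1 := hside P Q hP hQ hPQ hQS hall hno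
  have h2 := hside Q P hQ hP hPQ.symm hPS (fun v => by
    rcases hall v with h' | h' | h'
    · exact Or.inr (Or.inl h')
    · exact Or.inl h'
    · exact Or.inr (Or.inr h')) (fun p hp q hq hadj => hno q hq p hp hadj.symm)
  have h3 : (pr G Finset.univ).card ≤ (pr G (P ∪ S)).card + (pr G (Q ∪ S)).card := by
    apply pr_union
    intro a _ b _ hab
    simp only [Finset.mem_union]
    rcases hall a with ha | ha | ha <;> rcases hall b with hb | hb | hb
    · exact Or.inl ⟨Or.inl ha, Or.inl hb⟩
    · exact absurd hab (hno a ha b hb)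
    · exact Or.inl ⟨Or.inl ha, Or.inr hb⟩
    · exact absurd hab.symm (hno b hb a ha)
    · exact Or.inr ⟨Or.inl ha, Or.inl hb⟩
    · exact Or.inr ⟨Or.inl ha, Or.inr hb⟩
    · exact Or.inl ⟨Or.inr ha, Or.inl hb⟩
    · exact Or.inr ⟨Or.inr ha, Or.inl hb⟩
    · exact Or.inl ⟨Or.inr ha, Or.inr hb⟩
  have h4 : (P ∪ S).card = P.card + S.card := Finset.card_union_of_disjoint hPS
  have h5 : (Q ∪ S).card = Q.card + S.card := Finset.card_union_of_disjoint hQS
  have h6 : Fintype.card W = P.card + Q.card + S.card := by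
    rw [← Finset.card_univ]
    have : (Finset.univ : Finset W) = (P ∪ Q) ∪ S := by
      ext v
      simp only [Finset.mem_univ, Finset.mem_union, true_iff]
      rcases hall v with h' | h' | h'
      · exact Or.inl (Or.inl h')
      · exact Or.inl (Or.inr h')
      · exact Or.inr h'
    rw [this, Finset.card_union_of_disjoint, Finset.card_union_of_disjoint hPQ]
    rw [Finset.disjoint_union_left]
    exact ⟨hPS, hQS⟩
  have h7 := h.dense
  rw [h4] at h1
  rw [h5] at h2
  rw [h6] at h7
  have h8 : 2 * γ * S.card ≤ 2 * γ * k := Nat.mul_le_mul_left _ hS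
  nlinarith

/-- The key inequality for two partitions covering all edges. -/
theorem Core.key (h : Core G k γ) (hk : 2 ≤ k) (hγ : 3 * k ≤ γ) {A B : Type} [Fintype A]
    [Fintype B] (f : W → A) (g : W → B) (hf : Function.Surjective f) (hg : Function.Surjective g)
    (hadj : ∀ p q, G.Adj p q → f p = f q ∨ g p = g q)
    (hf2 : ∃ p q, f p ≠ f q) (hg2 : ∃ p q, g p ≠ g q) :
    Fintype.card A + Fintype.card B + k ≤ Fintype.card W + 2 := by
  classical
  by_contra hcon
  push Not at hcon
  let cls : A ⊕ B → Finset W := fun κ => match κ with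
    | Sum.inl a => Finset.univ.filter (fun v => f v = a)
    | Sum.inr b => Finset.univ.filter (fun v => g v = b)
  have hcls_l : ∀ v a, v ∈ cls (Sum.inl a) ↔ f v = a := fun v a => by
    simp [cls]
  have hcls_r : ∀ v b, v ∈ cls (Sum.inr b) ↔ g v = b := fun v b => by
    simp [cls]
  set N := Fintype.card W with hN
  have hsum : ∑ κ, (cls κ).card = 2 * N := by
    rw [Fintype.sum_sum_type]
    have h1 : ∑ a, (cls (Sum.inl a)).card = N := by
      rw [hN, ← Finset.card_univ]
      exact (Finset.card_eq_sum_card_fiberwise (f := f) (s := Finset.univ) (t := Finset.univ)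
        (fun _ _ => Finset.mem_coe.2 (Finset.mem_univ _))).symm
    have h2 : ∑ b, (cls (Sum.inr b)).card = N := by
      rw [hN, ← Finset.card_univ]
      exact (Finset.card_eq_sum_card_fiberwise (f := g) (s := Finset.univ) (t := Finset.univ)
        (fun _ _ => Finset.mem_coe.2 (Finset.mem_univ _))).symm
    rw [h1, h2]; ring
  have hm : Fintype.card (A ⊕ B) = Fintype.card A + Fintype.card B := Fintype.card_sum
  set m := Fintype.card (A ⊕ B) with hmdef
  have hne : ∀ κ, cls κ ≠ Finset.univ := by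
    intro κ hκ
    rcases κ with a | b
    · obtain ⟨p, q, hpq⟩ := hf2
      apply hpq
      rw [(hcls_l p a).1 (hκ ▸ Finset.mem_univ _), (hcls_l q a).1 (hκ ▸ Finset.mem_univ _)]
    · obtain ⟨p, q, hpq⟩ := hg2
      apply hpq
      rw [(hcls_r p b).1 (hκ ▸ Finset.mem_univ _), (hcls_r q b).1 (hκ ▸ Finset.mem_univ _)]
  have hpos : ∀ κ, 1 ≤ (cls κ).card := by
    intro κ
    rw [Nat.one_le_iff_ne_zero, Finset.card_ne_zero]
    rcases κ with a | b
    · obtain ⟨v, hv⟩ := hf a
      exact ⟨v, (hcls_l v a).2 hv⟩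
    · obtain ⟨v, hv⟩ := hg b
      exact ⟨v, (hcls_r v b).2 hv⟩
  have hcover : (pr G Finset.univ).card ≤ ∑ κ, (pr G (cls κ)).card := by
    have : pr G Finset.univ ⊆ Finset.univ.biUnion (fun κ => pr G (cls κ)) := by
      intro p hp
      rw [mem_pr] at hp
      rw [Finset.mem_biUnion]
      rcases hadj _ _ hp.2.2 with h' | h'
      · exact ⟨Sum.inl (f p.1), Finset.mem_univ _, by
          rw [mem_pr]; exact ⟨(hcls_l _ _).2 rfl, (hcls_l _ _).2 h'.symm, hp.2.2⟩⟩
      · exact ⟨Sum.inr (g p.1), Finset.mem_univ _, by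
          rw [mem_pr]; exact ⟨(hcls_r _ _).2 rfl, (hcls_r _ _).2 h'.symm, hp.2.2⟩⟩
    exact (Finset.card_le_card this).trans Finset.card_biUnion_le
  have hlarge : ∀ κ, 2 * k ≤ (cls κ).card →
      ((pr G (cls κ)).card : ℤ) ≤ 2 * γ * ((cls κ).card - k) := by
    intro κ hκ
    have := h.small _ (hne κ) hκ
    zify at this
    linarith
  have hsmall : ∀ κ, (cls κ).card < 2 * k →
      ((pr G (cls κ)).card : ℤ) ≤ γ * ((cls κ).card - 1) := by
    intro κ hκ
    have h1 := pr_card_le G (cls κ)
    have h2 := hpos κ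
    zify at h1 h2 hκ hγ hk
    have h3 : (0 : ℤ) ≤ (γ - (cls κ).card) * ((cls κ).card - 1) := by
      apply mul_nonneg <;> linarith
    nlinarith
  have hgen : ∀ κ, ((pr G (cls κ)).card : ℤ) ≤ 2 * γ * ((cls κ).card - 1) := by
    intro κ
    have h2 := hpos κ
    have hγ0 : (0 : ℤ) ≤ γ := Int.natCast_nonneg _
    rcases Nat.lt_or_ge (cls κ).card (2 * k) with h' | h'
    · have := hsmall κ h'
      zify at h2
      nlinarith
    · have := hlarge κ h'
      zify at hk
      nlinarith
  have hdense := h.dense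
  have hNγ := h.card_gt
  zify at hdense hNγ hcover hsum hcon hm hγ hk
  have hγ0 : (0 : ℤ) ≤ γ := Int.natCast_nonneg _
  have hsum1 : ∑ κ : A ⊕ B, (1 : ℤ) = m := by
    rw [Finset.sum_const, Finset.card_univ, nsmul_eq_mul, mul_one]
  rw [← hN] at hdense hNγ
  by_cases hL0 : ∃ κ₁, 2 * k ≤ (cls κ₁).card
  · obtain ⟨κ₁, hκ₁⟩ := hL0
    by_cases hL1 : ∃ κ₂, κ₂ ≠ κ₁ ∧ 2 * k ≤ (cls κ₂).card
    · obtain ⟨κ₂, hne2, hκ₂⟩ := hL1
      have hb : ∀ κ, ((pr G (cls κ)).card : ℤ) ≤ 2 * γ * ((cls κ).card - 1) -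
          (if κ = κ₁ then (2 * γ * (k - 1) : ℤ) else 0) - (if κ = κ₂ then (2 * γ * (k - 1) : ℤ) else 0) := by
        intro κ
        by_cases h1 : κ = κ₁
        · subst h1
          rw [if_pos rfl, if_neg hne2.symm]
          have := hlarge κ hκ₁
          linarith
        · by_cases h2 : κ = κ₂
          · subst h2
            rw [if_neg h1, if_pos rfl]
            have := hlarge κ hκ₂
            linarith
          · rw [if_neg h1, if_neg h2]
            have := hgen κ
            linarith
      have h1 : ∑ κ, ((pr G (cls κ)).card : ℤ) ≤ 2 * γ * (2 * N - m) - 2 * (2 * γ * (k - 1)) := by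
        calc ∑ κ, ((pr G (cls κ)).card : ℤ) ≤ ∑ κ, (2 * γ * ((cls κ).card - 1) -
          (if κ = κ₁ then (2 * γ * (k - 1) : ℤ) else 0) - (if κ = κ₂ then (2 * γ * (k - 1) : ℤ) else 0) : ℤ) :=
              Finset.sum_le_sum (fun κ _ => hb κ)
          _ = _ := by
              rw [Finset.sum_sub_distrib, Finset.sum_sub_distrib, Finset.sum_ite_eq',
                Finset.sum_ite_eq', ← Finset.mul_sum, Finset.sum_sub_distrib, hsum, hsum1,
                if_pos (Finset.mem_univ _), if_pos (Finset.mem_univ _)]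
              ring
      have h2 : (2 * N - m : ℤ) ≤ N - 3 + k := by linarith
      have h3 : 2 * γ * (2 * N - m : ℤ) ≤ 2 * γ * (N - 3 + k) :=
        mul_le_mul_of_nonneg_left h2 (by linarith)
      nlinarith
    · push Not at hL1
      have hb : ∀ κ, ((pr G (cls κ)).card : ℤ) ≤ γ * ((cls κ).card - 1) +
          (if κ = κ₁ then (2 * γ * ((cls κ₁).card - k) - γ * ((cls κ₁).card - 1) : ℤ) else 0) := by
        intro κ
        by_cases h1 : κ = κ₁
        · subst h1
          rw [if_pos rfl]
          have := hlarge κ hκ₁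
          linarith
        · rw [if_neg h1]
          have := hsmall κ (hL1 κ h1)
          linarith
      have h1 : ∑ κ, ((pr G (cls κ)).card : ℤ) ≤ γ * (2 * N - m) +
          (2 * γ * ((cls κ₁).card - k) - γ * ((cls κ₁).card - 1)) := by
        calc ∑ κ, ((pr G (cls κ)).card : ℤ) ≤ ∑ κ, (γ * ((cls κ).card - 1) +
          (if κ = κ₁ then (2 * γ * ((cls κ₁).card - k) - γ * ((cls κ₁).card - 1) : ℤ) else 0) : ℤ) :=
              Finset.sum_le_sum (fun κ _ => hb κ)
          _ = _ := by
              rw [Finset.sum_add_distrib, Finset.sum_ite_eq', ← Finset.mul_sum,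
                Finset.sum_sub_distrib, hsum, hsum1, if_pos (Finset.mem_univ _)]
      -- m ≤ s₁
      have h2 : (m : ℤ) < (cls κ₁).card + 1 := by
        have h3 : (γ : ℤ) * m < γ * ((cls κ₁).card + 1) := by nlinarith
        exact lt_of_mul_lt_mul_left h3 hγ0
      -- a vertex outside
      obtain ⟨w, hw⟩ : ∃ w, w ∉ cls κ₁ := by
        by_contra hcon'
        push Not at hcon'
        exact hne κ₁ (Finset.eq_univ_iff_forall.2 hcon')
      have hcompl : (cls κ₁)ᶜ.card + (cls κ₁).card = N := by
        rw [Finset.card_compl_add_card]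
      have hnbw := h.deg w
      -- both classes of `w` are small
      have hnbsub : ∀ (κ κ' : A ⊕ B), nb G w ⊆ (cls κ ∪ cls κ').erase w → w ∈ cls κ →
          cls κ ⊆ (cls κ₁)ᶜ → κ' ≠ κ₁ → False := by
        intro κ κ' h1 hwκ h2' h3
        have h4 := Finset.card_le_card h1
        have h5 := Finset.card_le_card h2'
        have h6 := hL1 κ' h3
        have h7 : ((cls κ ∪ cls κ').erase w).card + 1 = (cls κ ∪ cls κ').card :=
          Finset.card_erase_add_one (Finset.mem_union_left _ hwκ)
        have h8 := Finset.card_union_le (cls κ) (cls κ')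
        zify at h4 h5 h6 h7 h8 hcompl hnbw
        linarith
      have hnbw' : nb G w ⊆ (cls (Sum.inl (f w)) ∪ cls (Sum.inr (g w))).erase w := by
        intro v hv
        rw [mem_nb] at hv
        rw [Finset.mem_erase, Finset.mem_union, hcls_l, hcls_r]
        refine ⟨hv.ne', ?_⟩
        rcases hadj _ _ hv with h' | h'
        · exact Or.inl h'.symm
        · exact Or.inr h'.symm
      rcases κ₁ with a | b
      · rw [hcls_l] at hw
        apply hnbsub (Sum.inl (f w)) (Sum.inr (g w)) hnbw' ((hcls_l _ _).2 rfl)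
        · intro v hv
          rw [hcls_l] at hv
          rw [Finset.mem_compl, hcls_l, hv]
          exact hw
        · simp
      · rw [hcls_r] at hw
        apply hnbsub (Sum.inr (g w)) (Sum.inl (f w)) (by rw [Finset.union_comm]; exact hnbw')
          ((hcls_r _ _).2 rfl)
        · intro v hv
          rw [hcls_r] at hv
          rw [Finset.mem_compl, hcls_r, hv]
          exact hw
        · simp
  · push Not at hL0
    have h1 : ∑ κ, ((pr G (cls κ)).card : ℤ) ≤ γ * (2 * N - m) := by
      calc ∑ κ, ((pr G (cls κ)).card : ℤ) ≤ ∑ κ, (γ * ((cls κ).card - 1) : ℤ) :=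
            Finset.sum_le_sum (fun κ _ => hsmall κ (hL0 κ))
        _ = _ := by
            rw [← Finset.mul_sum, Finset.sum_sub_distrib, hsum, hsum1]
    have h2 : (2 * N - m : ℤ) ≤ N - 3 + k := by linarith
    have h3 : γ * (2 * N - m : ℤ) ≤ γ * (N - 3 + k) := mul_le_mul_of_nonneg_left h2 hγ0
    nlinarith

end

end H36Mat
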