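import Mathlib

/-!
Definitions for problem MP_a731a6_co: `U_{2,4}`-minors through a set, Tutte connectivity,
matroids representable over a field.
-/

open Set

namespace H36Mat

universe u

variable {α : Type u}

/-- `N` is (isomorphic to) the uniform matroid `U_{2,4}`: four elements, and the bases are
exactly the two-element sets. -/
def IsU24 (N : Matroid α) : Prop :=
  N.E.encard = 4 ∧ ∀ B ⊆ N.E, (N.IsBase B ↔ B.encard = 2)

/-- The set `X` is in a `U_{2,4}`-minor of `M`: there are disjoint `C, D ⊆ E(M) - X` with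
`M / C \ D` isomorphic to `U_{2,4}` (and `X ⊆ E(M)`). -/
def InU24Minor (M : Matroid α) (X : Set α) : Prop :=
  X ⊆ M.E ∧ ∃ C D : Set α, Disjoint C D ∧ C ⊆ M.E \ X ∧ D ⊆ M.E \ X ∧
    IsU24 ((M.contract C).delete D)

/-- `(A, E - A)` is a `k`-separation of `M`: both sides have at least `k` elements and
`r(A) + r(E - A) - r(M) ≤ k - 1`. -/
def IsSeparation (M : Matroid α) (k : ℕ) (A : Set α) : Prop :=
  A ⊆ M.E ∧ (k : ℕ∞) ≤ A.encard ∧ (k : ℕ∞) ≤ (M.E \ A).encard ∧
    M.eRk A + M.eRk (M.E \ A) + 1 ≤ M.eRank + k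

/-- `M` is `n`-connected (Tutte connectivity): no `k`-separation with `1 ≤ k < n`. -/
def TutteConnected (n : ℕ) (M : Matroid α) : Prop :=
  ∀ k : ℕ, 1 ≤ k → k < n → ∀ A : Set α, ¬ IsSeparation M k A

/-- `M` is representable over the field `F`. -/
def RepresentableOver (F : Type*) [Field F] (M : Matroid α) : Prop :=
  ∃ (k : ℕ) (v : α → (Fin k → F)), ∀ I ⊆ M.E, (M.Indep I ↔ LinearIndepOn F v I)

/-- A matroid is binary if it is representable over the field with two elements. -/
def Binary (M : Matroid α) : Prop := RepresentableOver (ZMod 2) M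

end H36Mat
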