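import Pool.Agent.Lib_helper36.Mat.Conn

open Set

namespace H36Mat

universe u
variable {α : Type u} {M : Matroid α}

lemma eRk_ne_top [M.Finite] (A : Set α) : M.eRk A ≠ ⊤ := by
  rw [Matroid.eRk_ne_top_iff]
  exact M.isRkFinite_set A

lemma eRank_ne_top' [M.Finite] : M.eRank ≠ ⊤ := by
  rw [Matroid.eRank_ne_top_iff]; infer_instance

lemma TutteConnected.dual [M.Finite] {n : ℕ} (hM : TutteConnected n M) : TutteConnected n M✶ := by
  intro k hk hkn A hsep
  apply hM k hk hkn A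
  obtain ⟨hA, h1, h2, h3⟩ := hsep
  rw [Matroid.dual_ground] at hA h2 h3
  refine ⟨hA, h1, h2, ?_⟩
  have e1 := M.eRk_dual_add_eRank A hA
  have e2 := M.eRk_dual_add_eRank (M.E \ A) sdiff_subset
  rw [sdiff_sdiff_cancel_left hA] at e2
  have e3 := M.eRank_add_eRank_dual
  have e4 := encard_sdiff_add_encard_of_subset hA
  have t1 : M✶.eRk A ≠ ⊤ := eRk_ne_top A
  have t2 : M✶.eRk (M.E \ A) ≠ ⊤ := eRk_ne_top _
  have t3 : M.eRk A ≠ ⊤ := eRk_ne_top A
  have t4 : M.eRk (M.E \ A) ≠ ⊤ := eRk_ne_top _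
  have t5 : M.eRank ≠ ⊤ := eRank_ne_top'
  have t6 : M✶.eRank ≠ ⊤ := eRank_ne_top'
  have t7 : A.encard ≠ ⊤ := (M.ground_finite.subset hA).encard_lt_top.ne
  have t8 : (M.E \ A).encard ≠ ⊤ := (M.ground_finite.subset sdiff_subset).encard_lt_top.ne
  have t9 : M.E.encard ≠ ⊤ := M.ground_finite.encard_lt_top.ne
  lift M✶.eRk A to ℕ using t1 with a1
  lift M✶.eRk (M.E \ A) to ℕ using t2 with a2
  lift M.eRk A to ℕ using t3 with a3
  lift M.eRk (M.E \ A) to ℕ using t4 with a4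
  lift M.eRank to ℕ using t5 with a5
  lift M✶.eRank to ℕ using t6 with a6
  lift A.encard to ℕ using t7 with a7
  lift (M.E \ A).encard to ℕ using t8 with a8
  lift M.E.encard to ℕ using t9 with a9
  norm_cast at *
  omega

lemma InU24Minor.dual [M.Finite] {X : Set α} (h : InU24Minor M X) : InU24Minor M✶ X := by
  classical
  obtain ⟨Q, A, hXQ, hQE, hQ, hAQ, hb⟩ := bases_of_inU24 h
  obtain ⟨P₀, hP₀Q, hP₀⟩ : ∃ P ⊆ Q, P.encard = 2 := by
    apply Set.exists_subset_encard_eq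
    rw [hQ]; norm_num
  have hAE : A ⊆ M.E := subset_union_left.trans (hb P₀ hP₀Q hP₀).subset_ground
  apply inU24_of_bases (M := M✶) (Q := Q) (A := M.E \ (A ∪ Q)) hXQ
    (by rw [Matroid.dual_ground]; exact hQE) hQ
  · rw [disjoint_left]
    intro e he heQ
    exact he.2 (Or.inr heQ)
  · intro P hP hP2
    have hc : (Q \ P).encard = 2 := by
      have h1 := encard_sdiff_add_encard_of_subset hP
      rw [hP2, hQ, show (4 : ℕ∞) = 2 + 2 by norm_num] at h1
      exact WithTop.add_right_cancel (ENat.natCast_ne_top 2) h1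
    have h1 := hb (Q \ P) sdiff_subset hc
    have h2 : M.E \ (A ∪ Q) ∪ P = M.E \ (A ∪ (Q \ P)) := by
      ext e
      simp only [mem_union, mem_sdiff, not_or, not_and, not_not]
      constructor
      · rintro (⟨h3, h4, h5⟩ | h3)
        · exact ⟨h3, h4, fun h6 => absurd h6 h5⟩
        · exact ⟨hQE (hP h3), fun h4 => hAQ.ne_of_mem h4 (hP h3) rfl, fun _ => h3⟩
      · rintro ⟨h3, h4, h5⟩
        by_cases h6 : e ∈ Q
        · exact Or.inr (h5 h6)
        · exact Or.inl ⟨h3, h4, h6⟩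
    rw [h2]
    exact h1.compl_isBase_dual

lemma inU24_dual_iff [M.Finite] {X : Set α} : InU24Minor M✶ X ↔ InU24Minor M X := by
  constructor
  · intro h
    have := h.dual
    rwa [Matroid.dual_dual] at this
  · exact fun h => h.dual

end H36Mat
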