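import Pool.Agent.Lib_helper36.Mat.CoreConn
import Pool.Agent.Lib_helper36.Mat.Joints

/-!
The frame matroid of a graph with gains, grounded at a vertex.
-/

open Set

namespace H36Mat

section ncl

variable {W : Type} [Fintype W]

/-- number of classes of vertices joined by the edges in `B` -/
noncomputable def ncl {W : Type} (B : Set (Sym2 W)) : ℕ :=
  Nat.card (Quot (fun x y : W => s(x, y) ∈ B))

lemma joined_of_mk_eq {W : Type} {B : Set (Sym2 W)} {p q : W}
    (h : Quot.mk (fun x y : W => s(x, y) ∈ B) p = Quot.mk _ q) : Joined B p q :=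
  Quot.eqvGen_exact h

lemma mk_eq_of_joined {W : Type} {B : Set (Sym2 W)} {p q : W} (h : Joined B p q) :
    Quot.mk (fun x y : W => s(x, y) ∈ B) p = Quot.mk _ q :=
  Quot.eqvGen_sound h

lemma ncl_mono {B B' : Set (Sym2 W)} (h : B ⊆ B') : ncl B' ≤ ncl B := by
  classical
  have : Finite (Quot (fun x y : W => s(x, y) ∈ B)) := Quot.finite _
  apply Nat.card_le_card_of_surjective (Quot.map id (fun x y hxy => h hxy))
  rintro ⟨x⟩
  exact ⟨Quot.mk _ x, rfl⟩

lemma ncl_le_card (B : Set (Sym2 W)) : ncl B ≤ Fintype.card W := by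
  classical
  rw [← Nat.card_eq_fintype_card]
  exact Nat.card_le_card_of_surjective (Quot.mk _) Quot.mk_surjective

lemma ncl_insert {B : Set (Sym2 W)} {u v : W} (h : ¬ Joined B u v) :
    ncl (insert s(u, v) B) + 1 ≤ ncl B := by
  classical
  have : Finite (Quot (fun x y : W => s(x, y) ∈ B)) := Quot.finite _
  have : Finite (Quot (fun x y : W => s(x, y) ∈ insert s(u, v) B)) := Quot.finite _
  let f : Quot (fun x y : W => s(x, y) ∈ B) → Quot (fun x y : W => s(x, y) ∈ insert s(u, v) B) :=
    Quot.map id (fun x y hxy => Or.inr hxy)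
  have hs : Function.Surjective f := by
    rintro ⟨x⟩
    exact ⟨Quot.mk _ x, rfl⟩
  have hni : ¬ Function.Injective f := by
    intro hinj
    apply h
    apply joined_of_mk_eq
    apply hinj
    show Quot.mk _ u = Quot.mk _ v
    exact mk_eq_of_joined (Joined.of_mem (mem_insert _ _))
  have h1 : ncl (insert s(u, v) B) ≤ ncl B := Nat.card_le_card_of_surjective f hs
  have h2 : ncl (insert s(u, v) B) ≠ ncl B := by
    intro heq
    apply hni
    exact ((Nat.bijective_iff_surjective_and_card f).2 ⟨hs, heq.symm⟩).1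
  omega

lemma ShortForest.ncl_add_card {G : SimpleGraph W} {k : ℕ} (hG : ShortForest G k) :
    ∀ B : Finset (Sym2 W), (B : Set (Sym2 W)) ⊆ G.edgeSet → B.card < k →
      ncl (B : Set (Sym2 W)) + B.card ≤ Fintype.card W := by
  classical
  intro B
  induction B using Finset.induction_on with
  | empty =>
    intro _ _
    rw [Finset.card_empty, add_zero]
    exact ncl_le_card _
  | insert e B he ih =>
    intro hB hk
    rw [Finset.card_insert_of_notMem he] at hk ⊢
    rw [Finset.coe_insert] at hB ⊢
    have h1 := ih ((subset_insert _ _).trans hB) (by omega)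
    induction e with
    | h u v =>
      have h2 : ¬ Joined (B : Set (Sym2 W)) u v := by
        have h3 := hG (insert s(u, v) B) (by rw [Finset.coe_insert]; exact hB)
          (by rw [Finset.card_insert_of_notMem he]; exact hk) u v (Finset.mem_insert_self _ _)
        rw [Finset.coe_insert] at h3
        intro hj
        apply h3
        apply hj.mono
        intro e' he'
        refine ⟨mem_insert_of_mem _ he', ?_⟩
        rintro rfl
        exact he he'
      have h4 := ncl_insert h2
      omega

theorem Core.conn {G : SimpleGraph W} {k γ : ℕ} (h : Core G k γ) (hk : 2 ≤ k) (hγ : 3 * k ≤ γ)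
    {A : Set (Sym2 W)} (hA : A ⊆ G.edgeSet) {j : ℕ} (hjk : j < k) (h1 : (j : ℕ∞) ≤ A.encard)
    (h2 : (j : ℕ∞) ≤ (G.edgeSet \ A).encard) :
    ncl A + ncl (G.edgeSet \ A) + j ≤ Fintype.card W + 1 := by
  classical
  obtain ⟨w₀⟩ := h.nonempty
  have side : ∀ A B : Set (Sym2 W), B ⊆ G.edgeSet → (j : ℕ∞) ≤ B.encard →
      (∀ p q, Quot.mk (fun x y : W => s(x, y) ∈ A) p = Quot.mk _ q) →
      ncl A + ncl B + j ≤ Fintype.card W + 1 := by
    intro A B hB hj hall
    have hA1 : ncl A ≤ 1 := by
      have : Subsingleton (Quot (fun x y : W => s(x, y) ∈ A)) :=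
        ⟨fun x y => by
          induction x using Quot.ind with
          | mk x => induction y using Quot.ind with
            | mk y => exact hall x y⟩
      exact Finite.card_le_one_iff_subsingleton.2 inferInstance
    obtain ⟨T, hTB, hT⟩ := Set.exists_subset_encard_eq hj
    have hTfin : T.Finite := Set.finite_of_encard_eq_coe hT
    have h3 := h.short.ncl_add_card hTfin.toFinset (by
      rw [Set.Finite.coe_toFinset]; exact hTB.trans hB) (by
      rw [hTfin.encard_eq_coe_toFinset_card] at hT
      have : hTfin.toFinset.card = j := by exact_mod_cast hT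
      rw [this]; exact hjk)
    rw [Set.Finite.coe_toFinset] at h3
    have h4 : hTfin.toFinset.card = j := by
      rw [hTfin.encard_eq_coe_toFinset_card] at hT
      exact_mod_cast hT
    have h5 := ncl_mono hTB
    omega
  by_cases hc1 : ∀ p q, Quot.mk (fun x y : W => s(x, y) ∈ A) p = Quot.mk _ q
  · exact side A _ sdiff_subset h2 hc1
  by_cases hc2 : ∀ p q, Quot.mk (fun x y : W => s(x, y) ∈ G.edgeSet \ A) p = Quot.mk _ q
  · have := side _ A hA h1 hc2
    omega
  push Not at hc1 hc2
  have : Finite (Quot (fun x y : W => s(x, y) ∈ A)) := Quot.finite _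
  have : Finite (Quot (fun x y : W => s(x, y) ∈ G.edgeSet \ A)) := Quot.finite _
  let _ := Fintype.ofFinite (Quot (fun x y : W => s(x, y) ∈ A))
  let _ := Fintype.ofFinite (Quot (fun x y : W => s(x, y) ∈ G.edgeSet \ A))
  have h3 := h.key hk hγ (fun w => Quot.mk (fun x y : W => s(x, y) ∈ A) w)
    (fun w => Quot.mk (fun x y : W => s(x, y) ∈ G.edgeSet \ A) w) Quot.mk_surjective
    Quot.mk_surjective (by
      intro p q hpq
      by_cases hA' : s(p, q) ∈ A
      · exact Or.inl (Quot.sound hA')
      · exact Or.inr (Quot.sound ⟨hpq, hA'⟩)) hc1 hc2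
  rw [ncl, ncl, Nat.card_eq_fintype_card, Nat.card_eq_fintype_card]
  omega

end ncl

section frame

variable {W : Type} (F : Type*) [Field F] (c : W) (θ : Sym2 W → F)

open Classical in
/-- coordinate vectors, the coordinate of `c` being suppressed -/
noncomputable def inc (p : W) : W → F := if p = c then 0 else Pi.single p 1

/-- first end of an edge -/
noncomputable def src (e : Sym2 W) : W := (Quot.out e).1

/-- second end of an edge -/
noncomputable def tgt (e : Sym2 W) : W := (Quot.out e).2

lemma src_tgt (e : Sym2 W) : s(src e, tgt e) = e := Quot.out_eq e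

/-- the vector of an edge -/
noncomputable def gv (e : Sym2 W) : W → F := inc F c (src e) - θ e • inc F c (tgt e)

lemma inc_self : inc F c c = 0 := by simp [inc]

lemma inc_of_ne {p : W} (h : p ≠ c) [DecidableEq W] : inc F c p = Pi.single p 1 := by
  rw [inc, if_neg h]
  ext u
  simp only [Pi.single_apply]
  congr

lemma inc_apply_of_ne {p u : W} (h : u ≠ p) : inc F c p u = 0 := by
  classical
  by_cases hp : p = c
  · rw [hp, inc_self]; rfl
  · rw [inc_of_ne F c hp, Pi.single_apply, if_neg h]

lemma inc_apply_self {p : W} (h : p ≠ c) : inc F c p p = 1 := by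
  classical
  rw [inc_of_ne F c h, Pi.single_apply, if_pos rfl]

lemma inc_apply_c (p : W) : inc F c p c = 0 := by
  classical
  by_cases hp : p = c
  · rw [hp, inc_self]; rfl
  · rw [inc_of_ne F c hp, Pi.single_apply, if_neg (Ne.symm hp)]

lemma gv_ends {p q : W} : (src s(p, q) = p ∧ tgt s(p, q) = q) ∨
    (src s(p, q) = q ∧ tgt s(p, q) = p) := Sym2.eq_iff.1 (src_tgt s(p, q))

lemma gv_apply_of_ne {e : Sym2 W} {u : W} (h1 : u ≠ src e) (h2 : u ≠ tgt e) :
    gv F c θ e u = 0 := by
  rw [gv, Pi.sub_apply, Pi.smul_apply, inc_apply_of_ne F c h1, inc_apply_of_ne F c h2]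
  simp

lemma gv_apply_c (e : Sym2 W) : gv F c θ e c = 0 := by
  rw [gv, Pi.sub_apply, Pi.smul_apply, inc_apply_c, inc_apply_c]; simp

variable [Fintype W]

/-- lower bound for the rank -/
lemma card_le_finrank_add_ncl (A : Set (Sym2 W)) (hθ : ∀ e ∈ A, θ e ≠ 0) :
    Fintype.card W ≤ Module.finrank F (Submodule.span F (gv F c θ '' A)) + ncl A := by
  classical
  set S := Submodule.span F (gv F c θ '' A) with hS
  have h1 := Subspace.finrank_add_finrank_dualAnnihilator_eq S
  rw [Module.finrank_fintype_fun_eq_card] at h1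
  rw [← h1]
  gcongr
  have : Finite (Quot (fun x y : W => s(x, y) ∈ A)) := Quot.finite _
  let _ := Fintype.ofFinite (Quot (fun x y : W => s(x, y) ∈ A))
  let rep : Quot (fun x y : W => s(x, y) ∈ A) → W := fun q =>
    if q = Quot.mk _ c then c else Quot.out q
  let Φ : S.dualAnnihilator →ₗ[F] (Quot (fun x y : W => s(x, y) ∈ A) → F) :=
    LinearMap.pi (fun q => (Module.Dual.eval F (W → F) (Pi.single (rep q) 1)) ∘ₗ
      S.dualAnnihilator.subtype)
  have hinj : Function.Injective Φ := by
    rw [injective_iff_map_eq_zero]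
    rintro ⟨φ, hφ⟩ h0
    rw [Submodule.mem_dualAnnihilator] at hφ
    have h0' : ∀ q, φ (Pi.single (rep q) 1) = 0 := fun q => congrFun h0 q
    have hinv : ∀ p q, Joined A p q → (φ (inc F c p) = 0 ↔ φ (inc F c q) = 0) := by
      intro p q hpq
      induction hpq with
      | rel x y hxy =>
        have h2 : φ (gv F c θ s(x, y)) = 0 := hφ _ (Submodule.subset_span ⟨_, hxy, rfl⟩)
        have h3 := hθ _ hxy
        rw [gv, map_sub, map_smul, smul_eq_mul, sub_eq_zero] at h2
        rcases gv_ends (p := x) (q := y) with ⟨h4, h5⟩ | ⟨h4, h5⟩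
        · rw [h4, h5] at h2
          rw [h2]; simp [h3]
        · rw [h4, h5] at h2
          rw [h2]; simp [h3]
      | refl x => exact Iff.rfl
      | symm x y _ ih => exact ih.symm
      | trans x y z _ _ ih1 ih2 => exact ih1.trans ih2
    have hall : ∀ u, φ (Pi.single u 1) = 0 := by
      intro u
      by_cases hq : Quot.mk (fun x y : W => s(x, y) ∈ A) u = Quot.mk _ c
      · by_cases huc : u = c
        · have h2 := h0' (Quot.mk _ c)
          simp only [rep, if_true] at h2
          rw [huc]; exact h2
        · have h2 := (hinv u c (joined_of_mk_eq hq)).2 (by rw [inc_self, map_zero])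
          rwa [inc_of_ne F c huc] at h2
      · have huc : u ≠ c := fun h => hq (by rw [h])
        have h2 := h0' (Quot.mk _ u)
        simp only [rep, if_neg hq] at h2
        have h3 : Quot.mk (fun x y : W => s(x, y) ∈ A)
            (Quot.out (Quot.mk (fun x y : W => s(x, y) ∈ A) u)) = Quot.mk _ u := Quot.out_eq _
        have h4 := joined_of_mk_eq h3
        have h5 : Quot.out (Quot.mk (fun x y : W => s(x, y) ∈ A) u) ≠ c := by
          intro h6
          rw [h6] at h3
          exact hq h3.symm
        rw [← inc_of_ne F c h5] at h2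
        have h6 := (hinv _ _ h4).1 h2
        rwa [inc_of_ne F c huc] at h6
    have : φ = 0 := by
      apply LinearMap.pi_ext'
      intro u
      ext
      simpa using hall u
    simp [this]
  have h2 := LinearMap.finrank_le_finrank_of_injective hinj
  rw [Module.finrank_fintype_fun_eq_card] at h2
  rw [ncl, Nat.card_eq_fintype_card]
  exact h2

lemma finrank_lt_card (A : Set (Sym2 W)) :
    Module.finrank F (Submodule.span F (gv F c θ '' A)) + 1 ≤ Fintype.card W := by
  classical
  have hne : Submodule.span F (gv F c θ '' A) ≠ ⊤ := by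
    intro htop
    have h1 : (Pi.single c (1 : F) : W → F) ∈ Submodule.span F (gv F c θ '' A) := by
      rw [htop]; trivial
    have h2 : Submodule.span F (gv F c θ '' A) ≤
        LinearMap.ker (LinearMap.proj c : (W → F) →ₗ[F] F) := by
      rw [Submodule.span_le]
      rintro _ ⟨e, _, rfl⟩
      show gv F c θ e c = 0
      exact gv_apply_c F c θ e
    have h3 := h2 h1
    rw [LinearMap.mem_ker, LinearMap.proj_apply, Pi.single_apply, if_pos rfl] at h3
    exact one_ne_zero h3
  have := Submodule.finrank_lt hne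
  rw [Module.finrank_fintype_fun_eq_card] at this
  exact this

/-- the frame matroid -/
noncomputable def GM (G : SimpleGraph W) : Matroid (Sym2 W) :=
  repMatroid F (gv F c θ) G.edgeSet (Set.toFinite _)

lemma GM_rep (G : SimpleGraph W) : Rep F (GM F c θ G) (gv F c θ) := repMatroid_rep _ _ _

lemma GM_E (G : SimpleGraph W) : (GM F c θ G).E = G.edgeSet := rfl

instance GM_finite (G : SimpleGraph W) : (GM F c θ G).Finite := repMatroid_finite _ _ _

theorem GM_connected {G : SimpleGraph W} {k γ : ℕ} (h : Core G k γ) (hk : 2 ≤ k)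
    (hγ : 3 * k ≤ γ) (hθ : ∀ e, θ e ≠ 0) : TutteConnected k (GM F c θ G) := by
  intro j hj hjk A hsep
  obtain ⟨hA, h1, h2, h3⟩ := hsep
  rw [GM_E] at hA h2 h3
  rw [Matroid.eRank_def, GM_E, (GM_rep F c θ G).eRk_eq (by rw [GM_E]; exact hA),
    (GM_rep F c θ G).eRk_eq (by rw [GM_E]; exact sdiff_subset),
    (GM_rep F c θ G).eRk_eq (by rw [GM_E])] at h3
  have h4 := h.conn hk hγ hA hjk h1 h2
  have h5 := card_le_finrank_add_ncl F c θ A (fun e _ => hθ e)
  have h6 := card_le_finrank_add_ncl F c θ (G.edgeSet \ A) (fun e _ => hθ e)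
  have h7 := finrank_lt_card F c θ G.edgeSet
  have h8 : Module.finrank F (Submodule.span F (gv F c θ '' A)) +
      Module.finrank F (Submodule.span F (gv F c θ '' (G.edgeSet \ A))) + 1 ≤
      Module.finrank F (Submodule.span F (gv F c θ '' G.edgeSet)) + j := by exact_mod_cast h3
  omega

end frame

end H36Mat
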