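import Mathlib

/-!
Finite graphs with many edges in which every small edge set is a forest.
-/

open Finset

namespace H36Mat

/-- Two vertices are joined by the edges in `B`. -/
def Joined {V : Type*} (B : Set (Sym2 V)) : V → V → Prop :=
  Relation.EqvGen (fun x y => s(x, y) ∈ B)

section joined

variable {V : Type*} {B B' : Set (Sym2 V)} {p q r u v : V}

lemma Joined.refl (p : V) : Joined B p p := Relation.EqvGen.refl p

lemma Joined.symm (h : Joined B p q) : Joined B q p := Relation.EqvGen.symm _ _ h

lemma Joined.trans (h : Joined B p q) (h' : Joined B q r) : Joined B p r :=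
  Relation.EqvGen.trans _ _ _ h h'

lemma Joined.of_mem (h : s(p, q) ∈ B) : Joined B p q := Relation.EqvGen.rel _ _ h

lemma Joined.mono (hB : B ⊆ B') (h : Joined B p q) : Joined B' p q := by
  induction h with
  | rel x y h => exact Joined.of_mem (hB h)
  | refl x => exact Joined.refl x
  | symm x y _ ih => exact ih.symm
  | trans x y z _ _ ih1 ih2 => exact ih1.trans ih2

lemma Joined.of_insert (h : Joined (insert s(u, v) B) p q) :
    Joined B p q ∨ (Joined B p u ∧ Joined B v q) ∨ (Joined B p v ∧ Joined B u q) := by
  induction h with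
  | rel x y h =>
    rcases h with h | h
    · rw [Sym2.eq_iff] at h
      rcases h with ⟨rfl, rfl⟩ | ⟨rfl, rfl⟩
      · exact Or.inr (Or.inl ⟨Joined.refl _, Joined.refl _⟩)
      · exact Or.inr (Or.inr ⟨Joined.refl _, Joined.refl _⟩)
    · exact Or.inl (Joined.of_mem h)
  | refl x => exact Or.inl (Joined.refl x)
  | symm x y _ ih =>
    rcases ih with h | ⟨h, h'⟩ | ⟨h, h'⟩
    · exact Or.inl h.symm
    · exact Or.inr (Or.inr ⟨h'.symm, h.symm⟩)
    · exact Or.inr (Or.inl ⟨h'.symm, h.symm⟩)
  | trans x y z _ _ ih1 ih2 =>
    rcases ih1 with h | ⟨h, h'⟩ | ⟨h, h'⟩ <;> rcases ih2 with k | ⟨k, k'⟩ | ⟨k, k'⟩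
    · exact Or.inl (h.trans k)
    · exact Or.inr (Or.inl ⟨h.trans k, k'⟩)
    · exact Or.inr (Or.inr ⟨h.trans k, k'⟩)
    · exact Or.inr (Or.inl ⟨h, h'.trans k⟩)
    · exact Or.inr (Or.inl ⟨h, k'⟩)
    · exact Or.inl (h.trans k')
    · exact Or.inr (Or.inr ⟨h, h'.trans k⟩)
    · exact Or.inl (h.trans k')
    · exact Or.inr (Or.inr ⟨h, k'⟩)

lemma Joined.reachable {G : SimpleGraph V} (hG : ∀ x y, s(x, y) ∈ B → x ≠ y → G.Adj x y)
    (h : Joined B p q) : G.Reachable p q := by
  induction h with
  | rel x y h =>
    by_cases hxy : x = y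
    · rw [hxy]
    · exact (hG x y h hxy).reachable
  | refl x => exact SimpleGraph.Reachable.refl x
  | symm x y _ ih => exact ih.symm
  | trans x y z _ _ ih1 ih2 => exact ih1.trans ih2

end joined

/-- In every set of fewer than `n` edges of `G`, each edge is a bridge. -/
def ShortForest {V : Type*} (G : SimpleGraph V) (n : ℕ) : Prop :=
  ∀ B : Finset (Sym2 V), (B : Set (Sym2 V)) ⊆ G.edgeSet → B.card < n →
    ∀ p q, s(p, q) ∈ B → ¬ Joined ((B : Set (Sym2 V)) \ {s(p, q)}) p q

/-- `u` and `v` are not joined by fewer than `n` edges. -/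
def Far {V : Type*} (G : SimpleGraph V) (n : ℕ) (u v : V) : Prop :=
  ∀ B : Finset (Sym2 V), (B : Set (Sym2 V)) ⊆ G.edgeSet → B.card < n → ¬ Joined (↑B) u v

lemma ShortForest.add_edge {V : Type*} {G : SimpleGraph V} {n : ℕ} (hG : ShortForest G n)
    {u v : V} (hf : Far G n u v) : ShortForest (G ⊔ SimpleGraph.edge u v) n := by
  classical
  have hsub : ∀ B : Finset (Sym2 V), (B : Set (Sym2 V)) ⊆ (G ⊔ SimpleGraph.edge u v).edgeSet →
      s(u, v) ∉ B → (B : Set (Sym2 V)) ⊆ G.edgeSet := by
    intro B hB huv e he
    have h1 := hB he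
    induction e with
    | h x y =>
      rw [SimpleGraph.mem_edgeSet, SimpleGraph.sup_adj] at h1
      rcases h1 with h1 | h1
      · exact h1
      · exfalso
        rw [SimpleGraph.edge_adj] at h1
        apply huv
        have : s(x, y) = s(u, v) := Sym2.eq_iff.2 h1.1
        rw [← this]; exact he
  intro B hB hBn p q hpq hj
  by_cases huv : s(u, v) ∈ B
  · by_cases he : s(u, v) = s(p, q)
    · have h1 : ((B.erase s(u, v) : Finset (Sym2 V)) : Set (Sym2 V)) ⊆ G.edgeSet := by
        apply hsub _ _ (Finset.notMem_erase _ _)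
        intro e he'
        exact hB (Finset.mem_of_mem_erase he')
      have h2 := hf _ h1 (lt_of_le_of_lt (Finset.card_erase_le) hBn)
      apply h2
      rw [← he] at hj
      rw [Finset.coe_erase]
      rcases Sym2.eq_iff.1 he with ⟨rfl, rfl⟩ | ⟨rfl, rfl⟩
      · exact hj
      · exact hj.symm
    · -- B1 = B.erase uv
      have h1 : ((B.erase s(u, v) : Finset (Sym2 V)) : Set (Sym2 V)) ⊆ G.edgeSet := by
        apply hsub _ _ (Finset.notMem_erase _ _)
        intro e he'
        exact hB (Finset.mem_of_mem_erase he')
      have hc1 : (B.erase s(u, v)).card < n := lt_of_le_of_lt (Finset.card_erase_le) hBn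
      have hpq1 : s(p, q) ∈ B.erase s(u, v) := Finset.mem_erase.2 ⟨fun h => he h.symm, hpq⟩
      have h3 := hG _ h1 hc1 p q hpq1
      have h4 := hf _ h1 hc1
      have h5 : (B : Set (Sym2 V)) \ {s(p, q)} ⊆
          insert s(u, v) (((B.erase s(u, v) : Finset (Sym2 V)) : Set (Sym2 V)) \ {s(p, q)}) := by
        intro e he'
        simp only [Finset.coe_erase, Set.mem_sdiff, Set.mem_singleton_iff, Finset.mem_coe,
          Set.mem_insert_iff] at he' ⊢
        by_cases h6 : e = s(u, v)
        · exact Or.inl h6
        · exact Or.inr ⟨⟨he'.1, h6⟩, he'.2⟩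
      have h7 : ((B.erase s(u, v) : Finset (Sym2 V)) : Set (Sym2 V)) \ {s(p, q)} ⊆
          ((B.erase s(u, v) : Finset (Sym2 V)) : Set (Sym2 V)) := Set.sdiff_subset
      have hpqJ : Joined (((B.erase s(u, v) : Finset (Sym2 V)) : Set (Sym2 V))) p q :=
        Joined.of_mem hpq1
      rcases (hj.mono h5).of_insert with h | ⟨h, h'⟩ | ⟨h, h'⟩
      · exact h3 h
      · apply h4
        exact ((h.mono h7).symm.trans hpqJ).trans (h'.mono h7).symm
      · apply h4
        exact ((h'.mono h7).trans hpqJ.symm).trans (h.mono h7)
  · exact hG B (hsub B hB huv) hBn p q hpq hj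

open Classical in
/-- the neighbours of `v` -/
noncomputable def nb {V : Type*} [Fintype V] (G : SimpleGraph V) (v : V) : Finset V :=
  Finset.univ.filter (fun w => G.Adj v w)

lemma mem_nb {V : Type*} [Fintype V] {G : SimpleGraph V} {v w : V} : w ∈ nb G v ↔ G.Adj v w := by
  simp [nb]

section ball

variable {V : Type*} [Fintype V] (G : SimpleGraph V)

open Classical in
/-- the ball of radius `k` -/
noncomputable def ball (u : V) : ℕ → Finset V
  | 0 => {u}
  | k + 1 => ball u k ∪ (ball u k).biUnion (fun w => nb G w)

lemma ball_mono (u : V) {k l : ℕ} (h : k ≤ l) : ball G u k ⊆ ball G u l := by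
  classical
  induction h with
  | refl => exact Finset.Subset.refl _
  | step _ ih => exact ih.trans (by rw [ball]; exact Finset.subset_union_left)

lemma mem_ball_of_walk {u v : V} (w : G.Walk v u) : v ∈ ball G u w.length := by
  classical
  induction w with
  | nil => simp [ball]
  | cons h p ih =>
    rw [SimpleGraph.Walk.length_cons, ball]
    apply Finset.mem_union_right
    rw [Finset.mem_biUnion]
    exact ⟨_, ih, by rw [mem_nb]; exact h.symm⟩

lemma card_ball_le (u : V) {d : ℕ} (hd : ∀ v, (nb G v).card ≤ d) (k : ℕ) :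
    (ball G u k).card ≤ (d + 1) ^ k := by
  classical
  induction k with
  | zero => simp [ball]
  | succ k ih =>
    rw [ball]
    calc _ ≤ (ball G u k).card + ((ball G u k).biUnion (fun w => nb G w)).card :=
          Finset.card_union_le _ _
      _ ≤ (ball G u k).card + (ball G u k).card * d := by
          gcongr
          exact Finset.card_biUnion_le_card_mul _ _ _ (fun v _ => hd v)
      _ = (ball G u k).card * (d + 1) := by ring
      _ ≤ (d + 1) ^ k * (d + 1) := by gcongr
      _ = (d + 1) ^ (k + 1) := by ring

lemma mem_ball_of_not_far {u v : V} {n : ℕ} (h : ¬ Far G n u v) : v ∈ ball G u n := by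
  classical
  unfold Far at h
  push Not at h
  obtain ⟨B, hB, hBn, hj⟩ := h
  have hr : (SimpleGraph.fromEdgeSet (B : Set (Sym2 V))).Reachable u v := by
    apply hj.reachable
    intro x y hxy hne
    rw [SimpleGraph.fromEdgeSet_adj]
    exact ⟨hxy, hne⟩
  obtain ⟨w⟩ := hr.symm
  have hp := w.toPath.2
  have hlen : (w.toPath.1).length ≤ B.card := by
    rw [← SimpleGraph.Walk.length_edges, ← List.toFinset_card_of_nodup hp.isTrail.edges_nodup]
    apply Finset.card_le_card
    intro e he
    rw [List.mem_toFinset] at he
    have := SimpleGraph.Walk.edges_subset_edgeSet _ he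
    rw [SimpleGraph.edgeSet_fromEdgeSet] at this
    exact this.1
  have hle : SimpleGraph.fromEdgeSet (B : Set (Sym2 V)) ≤ G := by
    intro x y hxy
    rw [SimpleGraph.fromEdgeSet_adj] at hxy
    exact hB hxy.1
  have h1 := mem_ball_of_walk G ((w.toPath.1).mapLe hle)
  apply ball_mono G u _ h1
  rw [SimpleGraph.Walk.length_mapLe]
  omega

end ball

/-- There are finite graphs with large average degree and no short cycles. -/
theorem exists_dense_shortForest (n D : ℕ) (hn : 2 ≤ n) : ∃ (N : ℕ) (G : SimpleGraph (Fin N)),
    ShortForest G n ∧ 1 ≤ N ∧ D * N ≤ ∑ v, (nb G v).card := by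
  classical
  set d := 2 * D with hd
  set K := (d + 1) ^ n with hK
  set N := 2 * K with hN
  have hKpos : 1 ≤ K := Nat.one_le_pow _ _ (by omega)
  refine ⟨N, ?_⟩
  let P : SimpleGraph (Fin N) → Prop := fun G => ShortForest G n ∧ ∀ v, (nb G v).card ≤ d
  have hP0 : P ⊥ := by
    refine ⟨?_, fun v => by simp [nb]⟩
    intro B hB hBn p q hpq
    have := hB hpq
    simp at this
  obtain ⟨G, -, hG⟩ := Finite.exists_le_maximal (p := P) hP0
  refine ⟨G, hG.prop.1, by omega, ?_⟩
  -- deficient vertices
  let Df : Finset (Fin N) := Finset.univ.filter (fun v => (nb G v).card < d)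
  have hDf : Df.card ≤ K := by
    by_cases hne : Df.Nonempty
    · obtain ⟨u, hu⟩ := hne
      rw [Finset.mem_filter] at hu
      have hsub : Df ⊆ ball G u n := by
        intro v hv
        rw [Finset.mem_filter] at hv
        by_cases hvu : v = u
        · apply ball_mono G u (Nat.zero_le n)
          simp [ball, hvu]
        by_contra hcon
        have hfar : Far G n u v := by
          by_contra hnf
          exact hcon (mem_ball_of_not_far G hnf)
        have hnadj : ¬ G.Adj u v := by
          intro hadj
          apply hfar {s(u, v)} (by simpa using hadj) (by rw [Finset.card_singleton]; omega)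
          apply Joined.of_mem
          simp
        have hP' : P (G ⊔ SimpleGraph.edge u v) := by
          refine ⟨hG.prop.1.add_edge hfar, ?_⟩
          intro w
          by_cases hwu : w = u
          · have : nb (G ⊔ SimpleGraph.edge u v) w ⊆ insert v (nb G w) := by
              intro x hx
              rw [mem_nb, SimpleGraph.sup_adj, SimpleGraph.edge_adj] at hx
              rw [Finset.mem_insert, mem_nb]
              rcases hx with hx | ⟨⟨_, hx⟩ | ⟨h1, _⟩, _⟩
              · exact Or.inr hx
              · exact Or.inl hx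
              · exact absurd (h1.symm.trans hwu) hvu
            calc _ ≤ (insert v (nb G w)).card := Finset.card_le_card this
              _ ≤ (nb G w).card + 1 := Finset.card_insert_le _ _
              _ ≤ d := by rw [hwu]; exact hu.2
          · by_cases hwv : w = v
            · have : nb (G ⊔ SimpleGraph.edge u v) w ⊆ insert u (nb G w) := by
                intro x hx
                rw [mem_nb, SimpleGraph.sup_adj, SimpleGraph.edge_adj] at hx
                rw [Finset.mem_insert, mem_nb]
                rcases hx with hx | ⟨⟨h1, _⟩ | ⟨_, hx⟩, _⟩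
                · exact Or.inr hx
                · exact absurd h1 hwu
                · exact Or.inl hx
              calc _ ≤ (insert u (nb G w)).card := Finset.card_le_card this
                _ ≤ (nb G w).card + 1 := Finset.card_insert_le _ _
                _ ≤ d := by rw [hwv]; exact hv.2
            · have : nb (G ⊔ SimpleGraph.edge u v) w ⊆ nb G w := by
                intro x hx
                rw [mem_nb, SimpleGraph.sup_adj, SimpleGraph.edge_adj] at hx
                rw [mem_nb]
                rcases hx with hx | ⟨⟨h1, _⟩ | ⟨h1, _⟩, _⟩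
                · exact hx
                · exact absurd h1 hwu
                · exact absurd h1 hwv
              exact (Finset.card_le_card this).trans (hG.prop.2 w)
        have hle := hG.le_of_ge hP' le_sup_left
        apply hnadj
        apply hle
        rw [SimpleGraph.sup_adj, SimpleGraph.edge_adj]
        exact Or.inr ⟨Or.inl ⟨rfl, rfl⟩, fun h => hvu h.symm⟩
      calc Df.card ≤ (ball G u n).card := Finset.card_le_card hsub
        _ ≤ K := card_ball_le G u hG.prop.2 n
    · rw [Finset.not_nonempty_iff_eq_empty] at hne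
      rw [hne]; simp
  have h1 : d * (Finset.univ.filter (fun v => ¬ (nb G v).card < d)).card ≤
      ∑ v, (nb G v).card := by
    calc d * (Finset.univ.filter (fun v => ¬ (nb G v).card < d)).card
        = ∑ v ∈ Finset.univ.filter (fun v => ¬ (nb G v).card < d), d := by
          rw [Finset.sum_const, smul_eq_mul, mul_comm]
      _ ≤ ∑ v ∈ Finset.univ.filter (fun v => ¬ (nb G v).card < d), (nb G v).card := by
          apply Finset.sum_le_sum
          intro v hv
          rw [Finset.mem_filter] at hv
          omega
      _ ≤ ∑ v, (nb G v).card := Finset.sum_le_sum_of_subset (Finset.filter_subset _ _)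
  have h2 : (Finset.univ.filter (fun v => (nb G v).card < d)).card +
      (Finset.univ.filter (fun v => ¬ (nb G v).card < d)).card = N := by
    rw [Finset.card_filter_add_card_filter_not, Finset.card_univ, Fintype.card_fin]
  have h3 : K ≤ (Finset.univ.filter (fun v => ¬ (nb G v).card < d)).card := by
    have : (Finset.univ.filter (fun v => (nb G v).card < d)).card ≤ K := hDf
    omega
  calc D * N = d * K := by rw [hN, hd]; ring
    _ ≤ d * (Finset.univ.filter (fun v => ¬ (nb G v).card < d)).card := by gcongr
    _ ≤ _ := h1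

end H36Mat
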