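import Pool.Agent.Lib_helper36.Mat.Greedy

/-!
Mader-type minimal dense subgraphs of graphs without short cycles.
-/

open Finset

namespace H36Mat

open Classical in
/-- ordered pairs of adjacent vertices in `U` -/
noncomputable def pr {V : Type*} (G : SimpleGraph V) (U : Finset V) : Finset (V × V) :=
  (U ×ˢ U).filter (fun p => G.Adj p.1 p.2)

lemma mem_pr {V : Type*} {G : SimpleGraph V} {U : Finset V} {p : V × V} :
    p ∈ pr G U ↔ p.1 ∈ U ∧ p.2 ∈ U ∧ G.Adj p.1 p.2 := by
  classical
  simp only [pr, Finset.mem_filter, Finset.mem_product]; tauto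

lemma pr_univ_card {V : Type*} [Fintype V] (G : SimpleGraph V) :
    (pr G Finset.univ).card = ∑ v, (nb G v).card := by
  classical
  rw [pr, Finset.card_filter, Finset.sum_product]
  apply Finset.sum_congr rfl
  intro v _
  rw [nb, Finset.card_filter]

lemma pr_card_le {V : Type*} (G : SimpleGraph V) (U : Finset V) :
    (pr G U).card + U.card ≤ U.card * U.card := by
  classical
  have h : pr G U ⊆ U.offDiag := by
    intro p hp
    rw [mem_pr] at hp
    rw [Finset.mem_offDiag]
    exact ⟨hp.1, hp.2.1, hp.2.2.ne⟩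
  have h1 := Finset.card_le_card h
  rw [Finset.offDiag_card] at h1
  have h2 : U.card ≤ U.card * U.card := Nat.le_mul_self _
  omega

lemma pr_erase {V : Type*} [Fintype V] (G : SimpleGraph V) (U : Finset V) (v : V)
    [DecidableEq V] : (pr G U).card ≤ (pr G (U.erase v)).card + 2 * (nb G v ∩ U).card := by
  classical
  have h : pr G U ⊆ pr G (U.erase v) ∪
      (((nb G v ∩ U).image (fun w => (v, w))) ∪ ((nb G v ∩ U).image (fun w => (w, v)))) := by
    intro p hp
    rw [mem_pr] at hp
    rw [Finset.mem_union, mem_pr, Finset.mem_union, Finset.mem_image, Finset.mem_image]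
    by_cases h1 : p.1 = v
    · right; left
      refine ⟨p.2, ?_, ?_⟩
      · rw [Finset.mem_inter, mem_nb]; exact ⟨h1 ▸ hp.2.2, hp.2.1⟩
      · rw [← h1]
    · by_cases h2 : p.2 = v
      · right; right
        refine ⟨p.1, ?_, ?_⟩
        · rw [Finset.mem_inter, mem_nb]; exact ⟨h2 ▸ hp.2.2.symm, hp.1⟩
        · rw [← h2]
      · left
        exact ⟨Finset.mem_erase.2 ⟨h1, hp.1⟩, Finset.mem_erase.2 ⟨h2, hp.2.1⟩, hp.2.2⟩
  calc (pr G U).card ≤ _ := Finset.card_le_card h
    _ ≤ _ := Finset.card_union_le _ _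
    _ ≤ (pr G (U.erase v)).card + ((nb G v ∩ U).card + (nb G v ∩ U).card) := by
        gcongr
        refine (Finset.card_union_le _ _).trans ?_
        gcongr <;> exact Finset.card_image_le
    _ = _ := by ring

lemma pr_union {V : Type*} (G : SimpleGraph V) (U U₁ U₂ : Finset V)
    (h : ∀ a ∈ U, ∀ b ∈ U, G.Adj a b → (a ∈ U₁ ∧ b ∈ U₁) ∨ (a ∈ U₂ ∧ b ∈ U₂)) :
    (pr G U).card ≤ (pr G U₁).card + (pr G U₂).card := by
  classical
  have h1 : pr G U ⊆ pr G U₁ ∪ pr G U₂ := by
    intro p hp
    rw [mem_pr] at hp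
    rw [Finset.mem_union, mem_pr, mem_pr]
    rcases h _ hp.1 _ hp.2.1 hp.2.2 with h | h
    · exact Or.inl ⟨h.1, h.2, hp.2.2⟩
    · exact Or.inr ⟨h.1, h.2, hp.2.2⟩
  exact (Finset.card_le_card h1).trans (Finset.card_union_le _ _)

section comap

set_option linter.unusedSectionVars false

variable {V : Type*} [Fintype V] (G : SimpleGraph V) (U : Finset V)

/-- the subgraph induced on `U` -/
def sub : SimpleGraph {v // v ∈ U} := G.comap (fun v => v.1)

lemma sub_adj {a b : {v // v ∈ U}} : (sub G U).Adj a b ↔ G.Adj a.1 b.1 := Iff.rfl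

lemma pr_sub (N : Finset {v // v ∈ U}) :
    (pr (sub G U) N).card = (pr G (N.map (Function.Embedding.subtype _))).card := by
  classical
  have : pr G (N.map (Function.Embedding.subtype _)) =
      (pr (sub G U) N).image (fun p => (p.1.1, p.2.1)) := by
    ext ⟨a, b⟩
    simp only [mem_pr, Finset.mem_map, Function.Embedding.subtype_apply, Finset.mem_image,
      Prod.mk.injEq]
    constructor
    · rintro ⟨⟨x, hx, rfl⟩, ⟨y, hy, rfl⟩, hadj⟩
      exact ⟨(x, y), ⟨hx, hy, hadj⟩, rfl, rfl⟩
    · rintro ⟨⟨x, y⟩, ⟨hx, hy, hadj⟩, rfl, rfl⟩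
      exact ⟨⟨x, hx, rfl⟩, ⟨y, hy, rfl⟩, hadj⟩
  rw [this, Finset.card_image_of_injective]
  rintro ⟨a, b⟩ ⟨c, d⟩ h
  simp only [Prod.mk.injEq] at h
  rw [Prod.mk.injEq]
  exact ⟨Subtype.ext h.1, Subtype.ext h.2⟩

lemma nb_sub [DecidableEq V] (v : {v // v ∈ U}) :
    (nb (sub G U) v).card = (nb G v.1 ∩ U).card := by
  classical
  have : nb G v.1 ∩ U = (nb (sub G U) v).map (Function.Embedding.subtype _) := by
    ext a
    simp only [Finset.mem_inter, mem_nb, Finset.mem_map, Function.Embedding.subtype_apply]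
    constructor
    · rintro ⟨h, ha⟩
      exact ⟨⟨a, ha⟩, h, rfl⟩
    · rintro ⟨x, hx, rfl⟩
      exact ⟨hx, x.2⟩
  rw [this, Finset.card_map]

lemma ShortForest.sub {n : ℕ} (h : ShortForest G n) : ShortForest (sub G U) n := by
  classical
  intro B hB hBn p q hpq hj
  let B' : Finset (Sym2 V) := B.image (Sym2.map (fun v => v.1))
  have hinj : Function.Injective (Sym2.map (fun v : {v // v ∈ U} => v.1)) :=
    Sym2.map.injective Subtype.val_injective
  have hB' : (B' : Set (Sym2 V)) ⊆ G.edgeSet := by
    intro e he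
    rw [Finset.mem_coe, Finset.mem_image] at he
    obtain ⟨e', he', rfl⟩ := he
    have := hB he'
    induction e' with
    | h x y => rw [Sym2.map_mk, SimpleGraph.mem_edgeSet]; exact this
  apply h B' hB' (lt_of_le_of_lt Finset.card_image_le hBn) p.1 q.1
  · rw [Finset.mem_image]
    exact ⟨_, hpq, by rw [Sym2.map_mk]⟩
  · have key : ∀ x y : {v // v ∈ U}, Joined ((B : Set (Sym2 {v // v ∈ U})) \ {s(p, q)}) x y →
        Joined ((B' : Set (Sym2 V)) \ {s(p.1, q.1)}) x.1 y.1 := by
      intro x y hxy
      induction hxy with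
      | rel x y hxy =>
        apply Joined.of_mem
        rw [Set.mem_sdiff, Set.mem_singleton_iff, Finset.mem_coe] at hxy
        rw [Set.mem_sdiff, Set.mem_singleton_iff, Finset.mem_coe,
          Finset.mem_image]
        refine ⟨⟨_, hxy.1, by rw [Sym2.map_mk]⟩, ?_⟩
        intro he
        apply hxy.2
        apply hinj
        rw [Sym2.map_mk, Sym2.map_mk]
        exact he
      | refl x => exact Joined.refl _
      | symm x y _ ih => exact ih.symm
      | trans x y z _ _ ih1 ih2 => exact ih1.trans ih2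
    exact key p q hj

end comap

/-- The data used later: `G` has no short cycles, minimum degree more than `γ`, and is minimal
with respect to a density condition. -/
structure Core {W : Type} [Fintype W] (G : SimpleGraph W) (k γ : ℕ) : Prop where
  short : ShortForest G k
  deg : ∀ v, γ < (nb G v).card
  small : ∀ N : Finset W, N ≠ Finset.univ → 2 * k ≤ N.card →
    (pr G N).card + 2 * γ * k ≤ 2 * γ * N.card
  dense : 2 * γ * Fintype.card W < (pr G Finset.univ).card + 2 * γ * k
  nonempty : Nonempty W

theorem exists_core (k γ : ℕ) (hk : 2 ≤ k) (hγ : 3 * k ≤ γ) :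
    ∃ (W : Type) (_ : Fintype W) (G : SimpleGraph W), Core G k γ := by
  classical
  obtain ⟨N, G, hG, hN, hdeg⟩ := exists_dense_shortForest k (2 * γ) hk
  rw [← pr_univ_card] at hdeg
  -- `univ` satisfies the condition
  let P : Finset (Fin N) → Prop := fun U => 2 * k ≤ U.card ∧
    2 * γ * U.card < (pr G U).card + 2 * γ * k
  have hNγ : 2 * γ < N := by
    have h1 := pr_card_le G (Finset.univ : Finset (Fin N))
    rw [Finset.card_univ, Fintype.card_fin] at h1
    have h2 : 2 * γ * N + N ≤ N * N := by omega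
    have h3 : (2 * γ + 1) * N ≤ N * N := by linarith
    have := Nat.le_of_mul_le_mul_right h3 (by omega)
    omega
  have hγk : 0 < 2 * γ * k := Nat.mul_pos (by omega) (by omega)
  have hP : P Finset.univ := by
    refine ⟨?_, ?_⟩
    · rw [Finset.card_univ, Fintype.card_fin]; omega
    · rw [Finset.card_univ, Fintype.card_fin]; omega
  obtain ⟨U, hU, hmin⟩ := Finset.exists_min_image (Finset.univ.filter P) Finset.card
    ⟨Finset.univ, by rw [Finset.mem_filter]; exact ⟨Finset.mem_univ _, hP⟩⟩
  rw [Finset.mem_filter] at hU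
  obtain ⟨-, hU1, hU2⟩ := hU
  have hmin' : ∀ U' : Finset (Fin N), 2 * k ≤ U'.card → U'.card < U.card →
      (pr G U').card + 2 * γ * k ≤ 2 * γ * U'.card := by
    intro U' h1 h2
    by_contra hcon
    push Not at hcon
    have := hmin U' (by rw [Finset.mem_filter]; exact ⟨Finset.mem_univ _, h1, hcon⟩)
    omega
  -- |U| > 2k
  have hU3 : 2 * k < U.card := by
    rcases Nat.lt_or_ge (2 * k) U.card with h | h
    · exact h
    · exfalso
      have hUk : U.card = 2 * k := le_antisymm h hU1
      have h1 := pr_card_le G U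
      rw [hUk] at h1 hU2
      nlinarith
  refine ⟨{v // v ∈ U}, inferInstance, sub G U, ?_⟩
  refine ⟨hG.sub G U, ?_, ?_, ?_, ?_⟩
  · intro v
    rw [nb_sub]
    by_contra hcon
    push Not at hcon
    have h1 := pr_erase G U v.1
    have h2 : (U.erase v.1).card + 1 = U.card := Finset.card_erase_add_one v.2
    have h3 := hmin' (U.erase v.1) (by omega) (by omega)
    have h4 : 2 * γ * U.card = 2 * γ * (U.erase v.1).card + 2 * γ := by rw [← h2]; ring
    omega
  · intro N' hN' hN'2
    rw [pr_sub]
    have h1 : (N'.map (Function.Embedding.subtype (fun v => v ∈ U))).card = N'.card :=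
      Finset.card_map _
    have h2 : N'.card < U.card := by
      have := Finset.card_lt_univ_of_notMem (s := N') (x := ?_) ?_
      · rwa [Fintype.card_coe] at this
      · exact (by
          have : ∃ x, x ∉ N' := by
            by_contra hcon
            push Not at hcon
            exact hN' (Finset.eq_univ_iff_forall.2 hcon)
          exact this.choose)
      · exact (by
          have : ∃ x, x ∉ N' := by
            by_contra hcon
            push Not at hcon
            exact hN' (Finset.eq_univ_iff_forall.2 hcon)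
          exact this.choose_spec)
    have h3 := hmin' _ (by rw [h1]; exact hN'2) (by rw [h1]; exact h2)
    rw [h1] at h3
    exact h3
  · rw [pr_sub, Fintype.card_coe]
    have : (Finset.univ : Finset {v // v ∈ U}).map (Function.Embedding.subtype (fun v => v ∈ U)) = U := by
      ext a
      simp
    rw [this]
    exact hU2
  · obtain ⟨v, hv⟩ := Finset.card_pos.1 (show 0 < U.card by omega)
    exact ⟨⟨v, hv⟩⟩

end H36Mat
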