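import Mathlib

/-!
Combinatorics of planes in a rank-four situation.
-/

open Set

namespace H36Mat

universe u

/-- Abstract data: coplanar sets, three special points `e 0, e 1, e 2` and the other points `I`. -/
structure PlaneSys {α : Type u} (Cop : Set α → Prop) (e : Fin 3 → α) (I : Set α) : Prop where
  inj : Function.Injective e
  notMem : ∀ i, e i ∉ I
  mono : ∀ S T : Set α, S ⊆ T → Cop T → Cop S
  glueAll : ∀ p ∈ I ∪ range e, ∀ q ∈ I ∪ range e, ∀ r ∈ I ∪ range e, p ≠ q → p ≠ r → q ≠ r →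
    ∀ J : Set α, (∀ s ∈ J, Cop {p, q, r, s}) → Cop ({p, q, r} ∪ J)
  bad : ∀ a ∈ I, ∀ b ∈ I, ∀ w ∈ I, a ≠ b → a ≠ w → b ≠ w →
    (∃ c, Cop ({a, b} ∪ e '' {c}ᶜ)) ∨ (∃ c, Cop {a, b, w, e c})
  full : ∀ a ∈ I, ∀ b ∈ I, a ≠ b → ¬ Cop ({a, b} ∪ range e)

lemma fin3_third : ∀ c d : Fin 3, ∃ t, t ≠ c ∧ t ≠ d := by decide

lemma fin3_two : ∀ c : Fin 3, ∃ s t : Fin 3, s ≠ c ∧ t ≠ c ∧ s ≠ t := by decide

lemma fin3_pig : ∀ c d1 d2 d3 : Fin 3, d1 ≠ c → d2 ≠ c → d3 ≠ c →
    d1 = d2 ∨ d1 = d3 ∨ d2 = d3 := by decide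

lemma fin3_last : ∀ c d f g : Fin 3, d ≠ c → f ≠ c → f ≠ d → g ≠ c → g ≠ d → f = g := by
  intro c d f g h1 h2 h3 h4 h5
  simp only [ne_eq, Fin.ext_iff] at *
  omega

lemma fin3_all : ∀ c1 c2 c3 d : Fin 3, c1 ≠ c2 → c1 ≠ c3 → c2 ≠ c3 → d = c1 ∨ d = c2 ∨ d = c3 := by
  decide

lemma fin3_pig4 : ∀ c1 c2 c3 c4 : Fin 3, c1 = c2 ∨ c1 = c3 ∨ c1 = c4 ∨ c2 = c3 ∨ c2 = c4 ∨
    c3 = c4 := by decide

namespace PlaneSys

variable {α : Type u} {Cop : Set α → Prop} {e : Fin 3 → α} {I : Set α}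

lemma glue (h : PlaneSys Cop e I) {S T : Set α} {p q r : α} (hp : p ∈ I ∪ range e)
    (hq : q ∈ I ∪ range e) (hr : r ∈ I ∪ range e) (hpq : p ≠ q) (hpr : p ≠ r) (hqr : q ≠ r)
    (hpS : p ∈ S) (hqS : q ∈ S) (hrS : r ∈ S) (hpT : p ∈ T) (hqT : q ∈ T) (hrT : r ∈ T)
    (hS : Cop S) (hT : Cop T) : Cop (S ∪ T) := by
  apply h.mono _ _ _ (h.glueAll p hp q hq r hr hpq hpr hqr (S ∪ T) _)
  · exact subset_union_right
  · intro s hs
    rcases hs with hs | hs
    · apply h.mono _ _ _ hS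
      intro t ht
      simp only [mem_insert_iff, mem_singleton_iff] at ht
      rcases ht with rfl | rfl | rfl | rfl <;> assumption
    · apply h.mono _ _ _ hT
      intro t ht
      simp only [mem_insert_iff, mem_singleton_iff] at ht
      rcases ht with rfl | rfl | rfl | rfl <;> assumption

lemma mem_I {a : α} (ha : a ∈ I) : a ∈ I ∪ range e := Or.inl ha

lemma mem_e (c : Fin 3) : e c ∈ I ∪ range e := Or.inr ⟨c, rfl⟩

lemma ne_e (h : PlaneSys Cop e I) {a : α} (ha : a ∈ I) (c : Fin 3) : a ≠ e c :=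
  fun h' => h.notMem c (h' ▸ ha)

lemma m_symm (_ : PlaneSys Cop e I) {c : Fin 3} {a b : α} (hm : Cop ({a, b} ∪ e '' {c}ᶜ)) :
    Cop ({b, a} ∪ e '' {c}ᶜ) := by
  rw [pair_comm]; exact hm

lemma m_unique (h : PlaneSys Cop e I) {c d : Fin 3} {a b : α} (ha : a ∈ I) (hb : b ∈ I)
    (hab : a ≠ b) (h1 : Cop ({a, b} ∪ e '' {c}ᶜ)) (h2 : Cop ({a, b} ∪ e '' {d}ᶜ)) : c = d := by
  by_contra hcd
  obtain ⟨t, htc, htd⟩ := fin3_third c d
  apply h.full a ha b hb hab
  apply h.mono _ _ _ (h.glue (mem_I ha) (mem_I hb) (mem_e t) hab (h.ne_e ha t) (h.ne_e hb t)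
    (by simp) (by simp) (Or.inr ⟨t, htc, rfl⟩) (by simp) (by simp) (Or.inr ⟨t, htd, rfl⟩) h1 h2)
  rintro s (hs | ⟨i, rfl⟩)
  · exact Or.inl (Or.inl hs)
  · by_cases hic : i = c
    · right; right
      exact ⟨i, by rw [hic]; exact hcd, rfl⟩
    · left; right
      exact ⟨i, hic, rfl⟩

lemma m_trans (h : PlaneSys Cop e I) {c : Fin 3} {a b d : α} (ha : a ∈ I) (hb : b ∈ I)
    (hd : d ∈ I) (h1 : Cop ({a, b} ∪ e '' {c}ᶜ))
    (h2 : Cop ({b, d} ∪ e '' {c}ᶜ)) : Cop ({a, d} ∪ e '' {c}ᶜ) := by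
  obtain ⟨s, t, hsc, htc, hst⟩ := fin3_two c
  apply h.mono _ _ _ (h.glue (mem_I hb) (mem_e s) (mem_e t) (h.ne_e hb s) (h.ne_e hb t)
    (h.inj.ne hst) (by simp) (Or.inr ⟨s, hsc, rfl⟩) (Or.inr ⟨t, htc, rfl⟩) (by simp)
    (Or.inr ⟨s, hsc, rfl⟩) (Or.inr ⟨t, htc, rfl⟩) h1 h2)
  rintro x (hx | hx)
  · simp only [mem_insert_iff, mem_singleton_iff] at hx
    rcases hx with rfl | rfl
    · left; left; simp
    · right; left; simp
  · left; right; exact hx

/-- Two points of the same colour force all points to have this colour. -/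
lemma two_same (h : PlaneSys Cop e I) {a b k m l : α} (ha : a ∈ I) (hb : b ∈ I) (hk : k ∈ I)
    (hm : m ∈ I) (hl : l ∈ I) (hab : a ≠ b) (hak : a ≠ k) (ham : a ≠ m) (hal : a ≠ l)
    (hbk : b ≠ k) (hbm : b ≠ m) (hbl : b ≠ l) (hkm : k ≠ m) (hkl : k ≠ l) (hml : m ≠ l)
    (hg : ∀ c, ¬ Cop ({a, b} ∪ e '' {c}ᶜ)) {c : Fin 3} (h1 : Cop {a, b, k, e c})
    (h2 : Cop {a, b, m, e c}) : Cop {a, b, l, e c} := by
  by_contra hcon
  have hPi : Cop {a, b, k, m, e c} := by
    apply h.mono _ _ _ (h.glue (mem_I ha) (mem_I hb) (mem_e c) hab (h.ne_e ha c) (h.ne_e hb c)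
      (by simp) (by simp) (by simp) (by simp) (by simp) (by simp) h1 h2)
    intro t ht
    simp only [mem_insert_iff, mem_singleton_iff, mem_union] at ht ⊢
    tauto
  -- membership facts
  have hQI : ∀ p ∈ ({a, b, k, m} : Set α), p ∈ I := by
    intro p hp
    simp only [mem_insert_iff, mem_singleton_iff] at hp
    rcases hp with rfl | rfl | rfl | rfl <;> assumption
  have hQPi : ∀ p ∈ ({a, b, k, m} : Set α), p ∈ ({a, b, k, m, e c} : Set α) := by
    intro p hp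
    simp only [mem_insert_iff, mem_singleton_iff] at hp ⊢
    tauto
  have hQl : ∀ p ∈ ({a, b, k, m} : Set α), p ≠ l := by
    intro p hp
    simp only [mem_insert_iff, mem_singleton_iff] at hp
    rcases hp with rfl | rfl | rfl | rfl <;> assumption
  -- (0)
  have s0 : ∀ p ∈ ({a, b, k, m} : Set α), ∀ q ∈ ({a, b, k, m} : Set α), p ≠ q → ∀ d,
      Cop ({p, q} ∪ e '' {d}ᶜ) → d = c := by
    intro p hp q hq hpq d hd
    by_contra hdc
    apply hg d
    apply h.mono _ _ _ (h.glue (mem_I (hQI p hp)) (mem_I (hQI q hq)) (mem_e c) hpq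
      (h.ne_e (hQI p hp) c) (h.ne_e (hQI q hq) c) (hQPi p hp) (hQPi q hq) (by simp)
      (by simp) (by simp) (Or.inr ⟨c, Ne.symm hdc, rfl⟩) hPi hd)
    rintro t (ht | ht)
    · left
      simp only [mem_insert_iff, mem_singleton_iff] at ht ⊢
      tauto
    · right; right; exact ht
  -- (1)
  have s1 : ∀ p ∈ ({a, b, k, m} : Set α), ∀ q ∈ ({a, b, k, m} : Set α), p ≠ q →
      ¬ Cop {p, q, l, e c} := by
    intro p hp q hq hpq hd
    apply hcon
    apply h.mono _ _ _ (h.glue (mem_I (hQI p hp)) (mem_I (hQI q hq)) (mem_e c) hpq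
      (h.ne_e (hQI p hp) c) (h.ne_e (hQI q hq) c) (hQPi p hp) (hQPi q hq) (by simp)
      (by simp) (by simp) (by simp) hPi hd)
    intro t ht
    simp only [mem_insert_iff, mem_singleton_iff, mem_union] at ht ⊢
    tauto
  -- (2)
  have s2 : ∀ p ∈ ({a, b, k, m} : Set α), ∀ q ∈ ({a, b, k, m} : Set α), p ≠ q →
      ¬ Cop ({p, q} ∪ e '' {c}ᶜ) → ∃ d, d ≠ c ∧ Cop {p, q, l, e d} := by
    intro p hp q hq hpq hd
    rcases h.bad p (hQI p hp) q (hQI q hq) l hl hpq (hQl p hp) (hQl q hq) with ⟨d, h'⟩ | ⟨d, h'⟩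
    · have := s0 p hp q hq hpq d h'
      rw [this] at h'
      exact absurd h' hd
    · refine ⟨d, ?_, h'⟩
      rintro rfl
      exact s1 p hp q hq hpq h'
  -- (3)
  have s3 : ∀ p ∈ ({a, b, k, m} : Set α), ∀ q ∈ ({a, b, k, m} : Set α),
      ∀ s ∈ ({a, b, k, m} : Set α), p ≠ q → p ≠ s → q ≠ s → ∀ d, Cop {p, q, l, e d} →
        Cop {p, s, l, e d} → False := by
    intro p hp q hq s hs hpq hps hqs d hd1 hd2
    have h3 : Cop {p, q, s, l, e d} := by
      apply h.mono _ _ _ (h.glue (mem_I (hQI p hp)) (mem_I hl) (mem_e d) (hQl p hp)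
        (h.ne_e (hQI p hp) d) (h.ne_e hl d) (by simp) (by simp) (by simp) (by simp) (by simp)
        (by simp) hd1 hd2)
      intro t ht
      simp only [mem_insert_iff, mem_singleton_iff, mem_union] at ht ⊢
      tauto
    apply hcon
    apply h.mono _ _ _ (h.glue (mem_I (hQI p hp)) (mem_I (hQI q hq)) (mem_I (hQI s hs)) hpq hps
      hqs (hQPi p hp) (hQPi q hq) (hQPi s hs) (by simp) (by simp) (by simp) hPi h3)
    intro t ht
    simp only [mem_insert_iff, mem_singleton_iff, mem_union] at ht ⊢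
    tauto
  -- (4)
  have s4 : ∀ p ∈ ({a, b, k, m} : Set α), ∀ q ∈ ({a, b, k, m} : Set α),
      ∀ s ∈ ({a, b, k, m} : Set α), ∀ t ∈ ({a, b, k, m} : Set α), p ≠ q → p ≠ s → p ≠ t →
      q ≠ s → q ≠ t → s ≠ t → Cop ({p, q} ∪ e '' {c}ᶜ) ∨ Cop ({p, s} ∪ e '' {c}ᶜ) ∨
        Cop ({p, t} ∪ e '' {c}ᶜ) := by
    intro p hp q hq s hs t ht hpq hps hpt hqs hqt hst
    by_contra hcon'
    push Not at hcon'
    obtain ⟨n1, n2, n3⟩ := hcon'
    obtain ⟨d1, hd1, c1⟩ := s2 p hp q hq hpq n1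
    obtain ⟨d2, hd2, c2⟩ := s2 p hp s hs hps n2
    obtain ⟨d3, hd3, c3⟩ := s2 p hp t ht hpt n3
    have hpig := fin3_pig c d1 d2 d3 hd1 hd2 hd3
    rcases hpig with h' | h' | h'
    · subst h'; exact s3 p hp q hq s hs hpq hps hqs d1 c1 c2
    · subst h'; exact s3 p hp q hq t ht hpq hpt hqt d1 c1 c3
    · subst h'; exact s3 p hp s hs t ht hps hpt hst d2 c2 c3
  have haQ : a ∈ ({a, b, k, m} : Set α) := by simp
  have hbQ : b ∈ ({a, b, k, m} : Set α) := by simp
  have hkQ : k ∈ ({a, b, k, m} : Set α) := by simp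
  have hmQ : m ∈ ({a, b, k, m} : Set α) := by simp
  -- final contradiction in the case `m c a k` and `m c b m`
  have final : ∀ k' ∈ ({a, b, k, m} : Set α), ∀ m' ∈ ({a, b, k, m} : Set α), a ≠ k' → a ≠ m' →
      b ≠ m' → Cop ({a, k'} ∪ e '' {c}ᶜ) → Cop ({b, m'} ∪ e '' {c}ᶜ) → False := by
    intro k' hk' m' hm' hak' ham' hbm' h3 h4
    have h5 : ¬ Cop ({a, m'} ∪ e '' {c}ᶜ) := fun h' =>
      hg c (h.m_trans ha (hQI _ hm') hb h' (h.m_symm h4))
    obtain ⟨d1, hd1, c1⟩ := s2 a haQ b hbQ hab (hg c)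
    obtain ⟨d2, hd2, c2⟩ := s2 a haQ m' hm' ham' h5
    have hd12 : d1 ≠ d2 := by
      intro h'
      rw [← h'] at c2
      exact s3 a haQ b hbQ m' hm' hab ham' hbm' d1 c1 c2
    have hgal : ∀ d, ¬ Cop ({a, l} ∪ e '' {d}ᶜ) := by
      intro d hd
      have e1 : d = d1 := by
        by_contra hne
        apply hg d
        apply h.mono _ _ _ (h.glue (mem_I ha) (mem_I hl) (mem_e d1) hal (h.ne_e ha d1)
          (h.ne_e hl d1) (by simp) (by simp) (by simp) (by simp) (by simp)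
          (Or.inr ⟨d1, Ne.symm hne, rfl⟩) c1 hd)
        rintro t (ht | ht)
        · left
          simp only [mem_insert_iff, mem_singleton_iff] at ht ⊢
          tauto
        · right; right; exact ht
      have e2 : d = d2 := by
        by_contra hne
        have h6 : Cop ({a, m'} ∪ e '' {d}ᶜ) := by
          apply h.mono _ _ _ (h.glue (mem_I ha) (mem_I hl) (mem_e d2) hal (h.ne_e ha d2)
            (h.ne_e hl d2) (by simp) (by simp) (by simp) (by simp) (by simp)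
            (Or.inr ⟨d2, Ne.symm hne, rfl⟩) c2 hd)
          rintro t (ht | ht)
          · left
            simp only [mem_insert_iff, mem_singleton_iff] at ht ⊢
            tauto
          · right; right; exact ht
        have h7 := s0 a haQ m' hm' ham' d h6
        rw [h7] at h6
        exact h5 h6
      exact hd12 (e1.symm.trans e2)
    rcases h.bad a ha l hl k' (hQI _ hk') hal hak' (hQl _ hk').symm with ⟨d, hd⟩ | ⟨d, hd⟩
    · exact hgal d hd
    · by_cases hdc : d = c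
      · rw [hdc] at hd
        apply s1 a haQ k' hk' hak'
        apply h.mono _ _ _ hd
        intro t ht
        simp only [mem_insert_iff, mem_singleton_iff] at ht ⊢
        tauto
      · apply hgal c
        apply h.mono _ _ _ (h.glue (mem_I ha) (mem_I (hQI _ hk')) (mem_e d) hak' (h.ne_e ha d)
          (h.ne_e (hQI _ hk') d) (by simp) (by simp) (by simp) (by simp) (by simp)
          (Or.inr ⟨d, hdc, rfl⟩) hd h3)
        rintro t (ht | ht)
        · left
          simp only [mem_insert_iff, mem_singleton_iff] at ht ⊢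
          tauto
        · right; right; exact ht
  rcases s4 a haQ b hbQ k hkQ m hmQ hab hak ham hbk hbm hkm with h3 | h3 | h3
  · exact hg c h3
  · rcases s4 b hbQ a haQ k hkQ m hmQ hab.symm hbk hbm hak ham hkm with h4 | h4 | h4
    · exact hg c (h.m_symm h4)
    · exact hg c (h.m_trans ha hk hb h3 (h.m_symm h4))
    · exact final k hkQ m hmQ hak ham hbm h3 h4
  · rcases s4 b hbQ a haQ k hkQ m hmQ hab.symm hbk hbm hak ham hkm with h4 | h4 | h4
    · exact hg c (h.m_symm h4)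
    · exact final m hmQ k hkQ ham hak hbk h3 h4
    · exact hg c (h.m_trans ha hm hb h3 (h.m_symm h4))


lemma pick {I L : Set α} {n : ℕ} (hL : L.encard ≤ n) (hI : (n + 1 : ℕ) ≤ I.encard) :
    ∃ w ∈ I, w ∉ L := by
  by_contra hcon
  push Not at hcon
  have h1 : I.encard ≤ L.encard := encard_le_encard hcon
  have h2 : ((n + 1 : ℕ) : ℕ∞) ≤ (n : ℕ) := hI.trans (h1.trans hL)
  have h3 : n + 1 ≤ n := by exact_mod_cast h2
  omega

lemma encard_pair_le (a b : α) : ({a, b} : Set α).encard ≤ (2 : ℕ) := by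
  classical
  have := encard_insert_le ({b} : Set α) a
  rw [encard_singleton] at this
  exact this.trans (by norm_num)

lemma encard_triple_le (a b c : α) : ({a, b, c} : Set α).encard ≤ (3 : ℕ) := by
  refine (encard_insert_le ({b, c} : Set α) a).trans ?_
  refine (add_le_add_left (encard_pair_le b c) 1).trans ?_
  norm_num

lemma encard_four_le (a b c d : α) : ({a, b, c, d} : Set α).encard ≤ (4 : ℕ) := by
  refine (encard_insert_le ({b, c, d} : Set α) a).trans ?_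
  refine (add_le_add_left (encard_triple_le b c d) 1).trans ?_
  norm_num

lemma encard_five_le (a b c d f : α) : ({a, b, c, d, f} : Set α).encard ≤ (5 : ℕ) := by
  refine (encard_insert_le ({b, c, d, f} : Set α) a).trans ?_
  refine (add_le_add_left (encard_four_le b c d f) 1).trans ?_
  norm_num

/-- All pairs of medial type: one colour is total. -/
lemma all_medial (h : PlaneSys Cop e I) (hI : (5 : ℕ) ≤ I.encard)
    (hall : ∀ a ∈ I, ∀ b ∈ I, a ≠ b → ∃ c, Cop ({a, b} ∪ e '' {c}ᶜ)) :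
    ∃ c, Cop (I ∪ e '' {c}ᶜ) := by
  classical
  have hI' : ∀ n : ℕ, n < 5 → ((n + 1 : ℕ) : ℕ∞) ≤ I.encard := fun n hn =>
    le_trans (by exact_mod_cast hn) hI
  obtain ⟨v, hv, -⟩ := pick (I := I) (L := ∅) (n := 0) (by simp) (hI' 0 (by norm_num))
  obtain ⟨w1, hw1, hn1⟩ := pick (I := I) (L := {v}) (n := 1) (by simp) (hI' 1 (by norm_num))
  obtain ⟨w2, hw2, hn2⟩ := pick (I := I) (encard_pair_le v w1) (hI' 2 (by norm_num))
  obtain ⟨w3, hw3, hn3⟩ := pick (I := I) (encard_triple_le v w1 w2) (hI' 3 (by norm_num))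
  obtain ⟨w4, hw4, hn4⟩ := pick (I := I) (encard_four_le v w1 w2 w3) (hI' 4 (by norm_num))
  simp only [mem_insert_iff, mem_singleton_iff, not_or] at hn1 hn2 hn3 hn4
  -- two neighbours of the same colour force all
  have key : ∀ p ∈ I, ∀ q ∈ I, p ≠ v → q ≠ v → p ≠ q → ∀ c, Cop ({v, p} ∪ e '' {c}ᶜ) →
      Cop ({v, q} ∪ e '' {c}ᶜ) → ∀ r ∈ I, r ≠ v → Cop ({v, r} ∪ e '' {c}ᶜ) := by
    intro p hp q hq hpv hqv hpq c h1 h2 r hr hrv
    by_cases hrp : r = p
    · rw [hrp]; exact h1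
    by_cases hrq : r = q
    · rw [hrq]; exact h2
    obtain ⟨d, hd⟩ := hall v hv r hr (Ne.symm hrv)
    by_contra hcon
    have hdc : d ≠ c := fun h' => hcon (h' ▸ hd)
    obtain ⟨f, hf⟩ := hall p hp r hr (Ne.symm hrp)
    obtain ⟨g, hg⟩ := hall q hq r hr (Ne.symm hrq)
    have hfc : f ≠ c := by
      rintro rfl
      exact hcon (h.m_trans hv hp hr h1 hf)
    have hfd : f ≠ d := by
      rintro rfl
      have := h.m_trans hv hr hp hd (h.m_symm hf)
      exact hfc (h.m_unique hv hp (Ne.symm hpv) this h1)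
    have hgc : g ≠ c := by
      rintro rfl
      exact hcon (h.m_trans hv hq hr h2 hg)
    have hgd : g ≠ d := by
      rintro rfl
      have := h.m_trans hv hr hq hd (h.m_symm hg)
      exact hgc (h.m_unique hv hq (Ne.symm hqv) this h2)
    have hfg : f = g := by
      exact fin3_last c d f g hdc hfc hfd hgc hgd
    rw [← hfg] at hg
    have h3 := h.m_trans hp hr hq hf (h.m_symm hg)
    have h4 := h.m_trans hp hv hq (h.m_symm h1) h2
    exact hfc (h.m_unique hp hq hpq h3 h4)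
  obtain ⟨c1, hc1⟩ := hall v hv w1 hw1 (Ne.symm hn1)
  obtain ⟨c2, hc2⟩ := hall v hv w2 hw2 (Ne.symm hn2.1)
  obtain ⟨c3, hc3⟩ := hall v hv w3 hw3 (Ne.symm hn3.1)
  obtain ⟨c4, hc4⟩ := hall v hv w4 hw4 (Ne.symm hn4.1)
  obtain ⟨c, hc⟩ : ∃ c, ∀ r ∈ I, r ≠ v → Cop ({v, r} ∪ e '' {c}ᶜ) := by
    rcases fin3_pig4 c1 c2 c3 c4 with h' | h' | h' | h' | h' | h'
    · exact ⟨c1, key w1 hw1 w2 hw2 hn1 hn2.1 (Ne.symm hn2.2) c1 hc1 (h' ▸ hc2)⟩
    · exact ⟨c1, key w1 hw1 w3 hw3 hn1 hn3.1 (Ne.symm hn3.2.1) c1 hc1 (h' ▸ hc3)⟩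
    · exact ⟨c1, key w1 hw1 w4 hw4 hn1 hn4.1 (Ne.symm hn4.2.1) c1 hc1 (h' ▸ hc4)⟩
    · exact ⟨c2, key w2 hw2 w3 hw3 hn2.1 hn3.1 (Ne.symm hn3.2.2) c2 hc2 (h' ▸ hc3)⟩
    · exact ⟨c2, key w2 hw2 w4 hw4 hn2.1 hn4.1 (Ne.symm hn4.2.2.1) c2 hc2 (h' ▸ hc4)⟩
    · exact ⟨c3, key w3 hw3 w4 hw4 hn3.1 hn4.1 (Ne.symm hn4.2.2.2) c3 hc3 (h' ▸ hc4)⟩
  obtain ⟨s, t, hsc, htc, hst⟩ := fin3_two c
  refine ⟨c, h.mono _ _ subset_union_right (h.glueAll v (mem_I hv) (e s) (mem_e s) (e t) (mem_e t)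
    (h.ne_e hv s) (h.ne_e hv t) (h.inj.ne hst) (I ∪ e '' {c}ᶜ) ?_)⟩
  rintro r (hr | hr)
  · by_cases hrv : r = v
    · apply h.mono _ _ _ (hc w1 hw1 hn1)
      intro x hx
      simp only [mem_insert_iff, mem_singleton_iff] at hx
      rcases hx with rfl | rfl | rfl | hx
      · left; simp
      · exact Or.inr ⟨s, hsc, rfl⟩
      · exact Or.inr ⟨t, htc, rfl⟩
      · rw [hx, hrv]; left; simp
    · apply h.mono _ _ _ (hc r hr hrv)
      intro x hx
      simp only [mem_insert_iff, mem_singleton_iff] at hx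
      rcases hx with rfl | rfl | rfl | rfl
      · left; simp
      · exact Or.inr ⟨s, hsc, rfl⟩
      · exact Or.inr ⟨t, htc, rfl⟩
      · left; simp
  · apply h.mono _ _ _ (hc w1 hw1 hn1)
    intro x hx
    simp only [mem_insert_iff, mem_singleton_iff] at hx
    rcases hx with rfl | rfl | rfl | rfl
    · left; simp
    · exact Or.inr ⟨s, hsc, rfl⟩
    · exact Or.inr ⟨t, htc, rfl⟩
    · exact Or.inr hr

/-- The main combinatorial statement. -/
theorem main (h : PlaneSys Cop e I) (hI : (6 : ℕ) ≤ I.encard) : ∃ c, Cop (I ∪ {e c}) := by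
  classical
  by_cases hall : ∀ a ∈ I, ∀ b ∈ I, a ≠ b → ∃ c, Cop ({a, b} ∪ e '' {c}ᶜ)
  · obtain ⟨c, hc⟩ := h.all_medial (le_trans (by norm_num) hI) hall
    obtain ⟨d, hdc, -⟩ := fin3_third c c
    refine ⟨d, h.mono _ _ ?_ hc⟩
    rintro x (hx | hx)
    · exact Or.inl hx
    · rw [mem_singleton_iff] at hx
      exact Or.inr ⟨d, hdc, hx.symm⟩
  · push Not at hall
    obtain ⟨a, ha, b, hb, hab, hg⟩ := hall
    have hI' : ∀ n : ℕ, n < 6 → ((n + 1 : ℕ) : ℕ∞) ≤ I.encard := fun n hn =>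
      le_trans (by exact_mod_cast hn) hI
    have hcol : ∀ w ∈ I, w ≠ a → w ≠ b → ∃ c, Cop {a, b, w, e c} := by
      intro w hw hwa hwb
      rcases h.bad a ha b hb w hw hab hwa.symm hwb.symm with ⟨c, hc⟩ | h'
      · exact absurd hc (hg c)
      · exact h'
    obtain ⟨w1, hw1, hn1⟩ := pick (I := I) (encard_pair_le a b) (hI' 2 (by norm_num))
    obtain ⟨w2, hw2, hn2⟩ := pick (I := I) (encard_triple_le a b w1) (hI' 3 (by norm_num))
    obtain ⟨w3, hw3, hn3⟩ := pick (I := I) (encard_four_le a b w1 w2) (hI' 4 (by norm_num))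
    obtain ⟨w4, hw4, hn4⟩ := pick (I := I) (encard_five_le a b w1 w2 w3) (hI' 5 (by norm_num))
    simp only [mem_insert_iff, mem_singleton_iff, not_or] at hn1 hn2 hn3 hn4
    obtain ⟨c1, hc1⟩ := hcol w1 hw1 hn1.1 hn1.2
    obtain ⟨c2, hc2⟩ := hcol w2 hw2 hn2.1 hn2.2.1
    obtain ⟨c3, hc3⟩ := hcol w3 hw3 hn3.1 hn3.2.1
    obtain ⟨c4, hc4⟩ := hcol w4 hw4 hn4.1 hn4.2.1
    have key : ∀ k ∈ I, ∀ m ∈ I, k ≠ a → k ≠ b → m ≠ a → m ≠ b → k ≠ m → ∀ c,
        Cop {a, b, k, e c} → Cop {a, b, m, e c} → ∃ c, Cop (I ∪ {e c}) := by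
      intro k hk m hm hka hkb hma hmb hkm c h1 h2
      refine ⟨c, h.mono _ _ subset_union_right (h.glueAll a (mem_I ha) b (mem_I hb) (e c)
        (mem_e c) hab (h.ne_e ha c) (h.ne_e hb c) (I ∪ {e c}) ?_)⟩
      have hmono : ∀ r, Cop {a, b, r, e c} → Cop {a, b, e c, r} := by
        intro r hr
        apply h.mono _ _ _ hr
        intro x hx
        simp only [mem_insert_iff, mem_singleton_iff] at hx ⊢
        tauto
      have hsub : ∀ r, r ∈ ({a, b, k, e c} : Set α) → Cop {a, b, e c, r} := by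
        intro r hr
        apply h.mono _ _ _ h1
        intro x hx
        simp only [mem_insert_iff, mem_singleton_iff] at hx hr ⊢
        rcases hx with rfl | rfl | rfl | rfl
        · simp
        · simp
        · simp
        · exact hr
      rintro r (hr | hr)
      · by_cases hra : r = a
        · exact hsub r (by simp [hra])
        by_cases hrb : r = b
        · exact hsub r (by simp [hrb])
        by_cases hrk : r = k
        · exact hsub r (by simp [hrk])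
        by_cases hrm : r = m
        · rw [hrm]; exact hmono m h2
        exact hmono r (h.two_same ha hb hk hm hr hab hka.symm hma.symm (Ne.symm hra) hkb.symm
          hmb.symm (Ne.symm hrb) hkm (Ne.symm hrk) (Ne.symm hrm) hg h1 h2)
      · rw [mem_singleton_iff] at hr
        exact hsub r (by simp [hr])
    rcases fin3_pig4 c1 c2 c3 c4 with h' | h' | h' | h' | h' | h'
    · exact key w1 hw1 w2 hw2 hn1.1 hn1.2 hn2.1 hn2.2.1 (Ne.symm hn2.2.2) c1 hc1 (h' ▸ hc2)
    · exact key w1 hw1 w3 hw3 hn1.1 hn1.2 hn3.1 hn3.2.1 (Ne.symm hn3.2.2.1) c1 hc1 (h' ▸ hc3)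
    · exact key w1 hw1 w4 hw4 hn1.1 hn1.2 hn4.1 hn4.2.1 (Ne.symm hn4.2.2.1) c1 hc1 (h' ▸ hc4)
    · exact key w2 hw2 w3 hw3 hn2.1 hn2.2.1 hn3.1 hn3.2.1 (Ne.symm hn3.2.2.2) c2 hc2 (h' ▸ hc3)
    · exact key w2 hw2 w4 hw4 hn2.1 hn2.2.1 hn4.1 hn4.2.1 (Ne.symm hn4.2.2.2.1) c2 hc2 (h' ▸ hc4)
    · exact key w3 hw3 w4 hw4 hn3.1 hn3.2.1 hn4.1 hn4.2.1 (Ne.symm hn4.2.2.2.2) c3 hc3 (h' ▸ hc4)

lemma five_le {p q r s t : α} (h1 : p ≠ q) (h2 : p ≠ r) (h3 : p ≠ s) (h4 : p ≠ t) (h5 : q ≠ r)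
    (h6 : q ≠ s) (h7 : q ≠ t) (h8 : r ≠ s) (h9 : r ≠ t) (h10 : s ≠ t) :
    5 ≤ ({p, q, r, s, t} : Set α).encard := by
  classical
  rw [encard_insert_of_notMem, encard_insert_of_notMem, encard_insert_of_notMem,
    encard_insert_of_notMem, encard_singleton]
  · norm_num
  · simpa using h10
  · simp only [mem_insert_iff, mem_singleton_iff, not_or]; exact ⟨h8, h9⟩
  · simp only [mem_insert_iff, mem_singleton_iff, not_or]; exact ⟨h5, h6, h7⟩
  · simp only [mem_insert_iff, mem_singleton_iff, not_or]; exact ⟨h1, h2, h3, h4⟩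

/-- The case of eight points. -/
theorem main8 (h : PlaneSys Cop e I) (hI : (5 : ℕ) ≤ I.encard)
    (no5 : ∀ S : Set α, S ⊆ I ∪ range e → Cop S → S.encard < 5)
    (hcompl : ∀ a ∈ I, ∀ b ∈ I, ∀ m ∈ I, ∀ k ∈ I, ∀ l ∈ I, a ≠ b → a ≠ m → b ≠ m → k ≠ l →
      k ≠ a → k ≠ b → k ≠ m → l ≠ a → l ≠ b → l ≠ m → ∀ c,
      Cop {a, b, m, e c} → Cop ({k, l} ∪ e '' {c}ᶜ) → False) : False := by
  classical
  have no5' : ∀ p q r s t : α, p ∈ I ∪ range e → q ∈ I ∪ range e → r ∈ I ∪ range e →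
      s ∈ I ∪ range e → t ∈ I ∪ range e → p ≠ q → p ≠ r → p ≠ s → p ≠ t → q ≠ r → q ≠ s →
      q ≠ t → r ≠ s → r ≠ t → s ≠ t → ∀ S, Cop S → p ∈ S → q ∈ S → r ∈ S → s ∈ S → t ∈ S →
      False := by
    intro p q r s t hp hq hr hs ht h1 h2 h3 h4 h5 h6 h7 h8 h9 h10 S hS m1 m2 m3 m4 m5
    have h11 := no5 {p, q, r, s, t} (by
      intro x hx
      simp only [mem_insert_iff, mem_singleton_iff] at hx
      rcases hx with rfl | rfl | rfl | rfl | rfl <;> assumption) (h.mono _ _ (by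
      intro x hx
      simp only [mem_insert_iff, mem_singleton_iff] at hx
      rcases hx with rfl | rfl | rfl | rfl | rfl <;> assumption) hS)
    exact absurd (five_le h1 h2 h3 h4 h5 h6 h7 h8 h9 h10) (not_le.2 h11)
  have hI' : ∀ n : ℕ, n < 5 → ((n + 1 : ℕ) : ℕ∞) ≤ I.encard := fun n hn =>
    le_trans (by exact_mod_cast hn) hI
  by_cases hall : ∀ a ∈ I, ∀ b ∈ I, a ≠ b → ∃ c, Cop ({a, b} ∪ e '' {c}ᶜ)
  · obtain ⟨c, hc⟩ := h.all_medial hI hall
    have h1 : Cop I := h.mono _ _ subset_union_left hc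
    have h2 := no5 I subset_union_left h1
    have h3 : (5 : ℕ∞) ≤ I.encard := by exact_mod_cast hI
    exact absurd h3 (not_le.2 h2)
  · push Not at hall
    obtain ⟨a, ha, b, hb, hab, hg⟩ := hall
    have hcol : ∀ w ∈ I, w ≠ a → w ≠ b → ∃ c, Cop {a, b, w, e c} := by
      intro w hw hwa hwb
      rcases h.bad a ha b hb w hw hab hwa.symm hwb.symm with ⟨c, hc⟩ | h'
      · exact absurd hc (hg c)
      · exact h'
    obtain ⟨k, hk, hnk⟩ := pick (I := I) (encard_pair_le a b) (hI' 2 (by norm_num))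
    obtain ⟨l, hl, hnl⟩ := pick (I := I) (encard_triple_le a b k) (hI' 3 (by norm_num))
    obtain ⟨m, hm, hnm⟩ := pick (I := I) (encard_four_le a b k l) (hI' 4 (by norm_num))
    simp only [mem_insert_iff, mem_singleton_iff, not_or] at hnk hnl hnm
    obtain ⟨(hka : k ≠ a), (hkb : k ≠ b)⟩ := hnk
    obtain ⟨(hla : l ≠ a), (hlb : l ≠ b), (hlk : l ≠ k)⟩ := hnl
    obtain ⟨(hma : m ≠ a), (hmb : m ≠ b), (hmk : m ≠ k), (hml : m ≠ l)⟩ := hnm
    obtain ⟨c1, hc1⟩ := hcol k hk hka hkb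
    obtain ⟨c2, hc2⟩ := hcol l hl hla hlb
    obtain ⟨c3, hc3⟩ := hcol m hm hma hmb
    -- two distinct points have distinct colours
    have hdist : ∀ k ∈ I, ∀ l ∈ I, k ≠ a → k ≠ b → l ≠ a → l ≠ b → k ≠ l → ∀ c,
        Cop {a, b, k, e c} → Cop {a, b, l, e c} → False := by
      intro k hk l hl hka hkb hla hlb hkl c h1 h2
      apply no5' a b k l (e c) (mem_I ha) (mem_I hb) (mem_I hk) (mem_I hl) (mem_e c) hab
        hka.symm hla.symm (h.ne_e ha c) hkb.symm hlb.symm (h.ne_e hb c) hkl (h.ne_e hk c)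
        (h.ne_e hl c) _ (h.glue (mem_I ha) (mem_I hb) (mem_e c) hab (h.ne_e ha c) (h.ne_e hb c)
        (by simp) (by simp) (by simp) (by simp) (by simp) (by simp) h1 h2) <;> simp
    have h12 : c1 ≠ c2 := by
      rintro rfl; exact hdist k hk l hl hka hkb hla hlb (Ne.symm hlk) c1 hc1 hc2
    have h13 : c1 ≠ c3 := by
      rintro rfl; exact hdist k hk m hm hka hkb hma hmb (Ne.symm hmk) c1 hc1 hc3
    have h23 : c2 ≠ c3 := by
      rintro rfl; exact hdist l hl m hm hla hlb hma hmb (Ne.symm hml) c2 hc2 hc3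
    -- the general elimination: `{p, q, l, e c}` and so on
    have e1 : ∀ t ∈ I, t ≠ a → t ≠ b → t ≠ k → ∀ S, Cop S → a ∈ S → k ∈ S → t ∈ S → e c1 ∈ S →
        False := by
      intro t ht hta htb htk S hS m1 m2 m3 m4
      apply no5' a b k t (e c1) (mem_I ha) (mem_I hb) (mem_I hk) (mem_I ht) (mem_e c1) hab
        hka.symm hta.symm (h.ne_e ha c1) hkb.symm htb.symm (h.ne_e hb c1) htk.symm (h.ne_e hk c1)
        (h.ne_e ht c1) _ (h.glue (mem_I ha) (mem_I hk) (mem_e c1) hka.symm (h.ne_e ha c1)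
        (h.ne_e hk c1) (by simp) (by simp) (by simp) m1 m2 m4 hc1 hS)
      · simp
      · simp
      · simp
      · exact Or.inr m3
      · simp
    have e1b : ∀ t ∈ I, t ≠ a → t ≠ b → t ≠ k → ∀ S, Cop S → b ∈ S → k ∈ S → t ∈ S → e c1 ∈ S →
        False := by
      intro t ht hta htb htk S hS m1 m2 m3 m4
      apply no5' a b k t (e c1) (mem_I ha) (mem_I hb) (mem_I hk) (mem_I ht) (mem_e c1) hab
        hka.symm hta.symm (h.ne_e ha c1) hkb.symm htb.symm (h.ne_e hb c1) htk.symm (h.ne_e hk c1)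
        (h.ne_e ht c1) _ (h.glue (mem_I hb) (mem_I hk) (mem_e c1) hkb.symm (h.ne_e hb c1)
        (h.ne_e hk c1) (by simp) (by simp) (by simp) m1 m2 m4 hc1 hS)
      · simp
      · simp
      · simp
      · exact Or.inr m3
      · simp
    have e2 : ∀ t ∈ I, t ≠ a → t ≠ b → t ≠ l → ∀ S, Cop S → a ∈ S → l ∈ S → t ∈ S → e c2 ∈ S →
        False := by
      intro t ht hta htb htl S hS m1 m2 m3 m4
      apply no5' a b l t (e c2) (mem_I ha) (mem_I hb) (mem_I hl) (mem_I ht) (mem_e c2) hab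
        hla.symm hta.symm (h.ne_e ha c2) hlb.symm htb.symm (h.ne_e hb c2) htl.symm (h.ne_e hl c2)
        (h.ne_e ht c2) _ (h.glue (mem_I ha) (mem_I hl) (mem_e c2) hla.symm (h.ne_e ha c2)
        (h.ne_e hl c2) (by simp) (by simp) (by simp) m1 m2 m4 hc2 hS)
      · simp
      · simp
      · simp
      · exact Or.inr m3
      · simp
    have e2b : ∀ t ∈ I, t ≠ a → t ≠ b → t ≠ l → ∀ S, Cop S → b ∈ S → l ∈ S → t ∈ S → e c2 ∈ S →
        False := by
      intro t ht hta htb htl S hS m1 m2 m3 m4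
      apply no5' a b l t (e c2) (mem_I ha) (mem_I hb) (mem_I hl) (mem_I ht) (mem_e c2) hab
        hla.symm hta.symm (h.ne_e ha c2) hlb.symm htb.symm (h.ne_e hb c2) htl.symm (h.ne_e hl c2)
        (h.ne_e ht c2) _ (h.glue (mem_I hb) (mem_I hl) (mem_e c2) hlb.symm (h.ne_e hb c2)
        (h.ne_e hl c2) (by simp) (by simp) (by simp) m1 m2 m4 hc2 hS)
      · simp
      · simp
      · simp
      · exact Or.inr m3
      · simp
    -- the pair `(k, l)` is of medial type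
    obtain ⟨d, hd⟩ : ∃ d, Cop ({k, l} ∪ e '' {d}ᶜ) := by
      by_contra hcon
      push Not at hcon
      rcases h.bad k hk l hl a ha (Ne.symm hlk) hka hla with ⟨c, hc⟩ | ⟨c, hc⟩
      · exact hcon c hc
      rcases h.bad k hk l hl b hb (Ne.symm hlk) hkb hlb with ⟨c', hc'⟩ | ⟨c', hc'⟩
      · exact hcon c' hc'
      have hcc : c = c3 := by
        rcases fin3_all c1 c2 c3 c h12 h13 h23 with h' | h' | h'
        · subst h'
          exact (e1 l hl hla hlb hlk _ hc (by simp) (by simp) (by simp) (by simp)).elim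
        · subst h'
          exact (e2 k hk hka hkb (Ne.symm hlk) _ hc (by simp) (by simp) (by simp) (by simp)).elim
        · exact h'
      have hcc' : c' = c3 := by
        rcases fin3_all c1 c2 c3 c' h12 h13 h23 with h' | h' | h'
        · subst h'
          exact (e1b l hl hla hlb hlk _ hc' (by simp) (by simp) (by simp) (by simp)).elim
        · subst h'
          exact (e2b k hk hka hkb (Ne.symm hlk) _ hc' (by simp) (by simp) (by simp)
            (by simp)).elim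
        · exact h'
      rw [hcc] at hc
      rw [hcc'] at hc'
      apply no5' a b k l (e c3) (mem_I ha) (mem_I hb) (mem_I hk) (mem_I hl) (mem_e c3) hab
        hka.symm hla.symm (h.ne_e ha c3) hkb.symm hlb.symm (h.ne_e hb c3) (Ne.symm hlk)
        (h.ne_e hk c3) (h.ne_e hl c3) _ (h.glue (mem_I hk) (mem_I hl) (mem_e c3) (Ne.symm hlk)
        (h.ne_e hk c3) (h.ne_e hl c3) (by simp) (by simp) (by simp) (by simp) (by simp)
        (by simp) hc hc') <;> simp
    have hd3 : d ≠ c3 := by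
      rintro rfl
      exact hcompl a ha b hb m hm k hk l hl hab hma.symm hmb.symm (Ne.symm hlk) hka hkb
        (Ne.symm hmk) hla hlb (Ne.symm hml) d hc3 hd
    obtain ⟨s, t, hsd, htd, hst⟩ := fin3_two d
    -- a point joined to `k, l` and the two special points
    have e3 : ∀ S, Cop S → a ∈ S → (k ∈ S ∧ l ∈ S ∧ (e s ∈ S ∨ e t ∈ S)) → False := by
      rintro S hS m1 ⟨m2, m3, m4 | m4⟩
      · apply no5' a k l (e s) (e t) (mem_I ha) (mem_I hk) (mem_I hl) (mem_e s) (mem_e t)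
          hka.symm hla.symm (h.ne_e ha s) (h.ne_e ha t) (Ne.symm hlk) (h.ne_e hk s)
          (h.ne_e hk t) (h.ne_e hl s) (h.ne_e hl t) (h.inj.ne hst) _
          (h.glue (mem_I hk) (mem_I hl) (mem_e s) (Ne.symm hlk) (h.ne_e hk s) (h.ne_e hl s)
          (by simp) (by simp) (Or.inr ⟨s, hsd, rfl⟩) m2 m3 m4 hd hS)
        · exact Or.inr m1
        · simp
        · simp
        · exact Or.inl (Or.inr ⟨s, hsd, rfl⟩)
        · exact Or.inl (Or.inr ⟨t, htd, rfl⟩)
      · apply no5' a k l (e s) (e t) (mem_I ha) (mem_I hk) (mem_I hl) (mem_e s) (mem_e t)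
          hka.symm hla.symm (h.ne_e ha s) (h.ne_e ha t) (Ne.symm hlk) (h.ne_e hk s)
          (h.ne_e hk t) (h.ne_e hl s) (h.ne_e hl t) (h.inj.ne hst) _
          (h.glue (mem_I hk) (mem_I hl) (mem_e t) (Ne.symm hlk) (h.ne_e hk t) (h.ne_e hl t)
          (by simp) (by simp) (Or.inr ⟨t, htd, rfl⟩) m2 m3 m4 hd hS)
        · exact Or.inr m1
        · simp
        · simp
        · exact Or.inl (Or.inr ⟨s, hsd, rfl⟩)
        · exact Or.inl (Or.inr ⟨t, htd, rfl⟩)
    have e4 : ∀ S, Cop S → a ∈ S → (k ∈ S ∨ l ∈ S) → e s ∈ S → e t ∈ S → False := by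
      rintro S hS m1 (m2 | m2) m3 m4
      · apply no5' a k l (e s) (e t) (mem_I ha) (mem_I hk) (mem_I hl) (mem_e s) (mem_e t)
          hka.symm hla.symm (h.ne_e ha s) (h.ne_e ha t) (Ne.symm hlk) (h.ne_e hk s)
          (h.ne_e hk t) (h.ne_e hl s) (h.ne_e hl t) (h.inj.ne hst) _
          (h.glue (mem_I hk) (mem_e s) (mem_e t) (h.ne_e hk s) (h.ne_e hk t) (h.inj.ne hst)
          (by simp) (Or.inr ⟨s, hsd, rfl⟩) (Or.inr ⟨t, htd, rfl⟩) m2 m3 m4 hd hS)
        · exact Or.inr m1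
        · simp
        · simp
        · exact Or.inr m3
        · exact Or.inr m4
      · apply no5' a k l (e s) (e t) (mem_I ha) (mem_I hk) (mem_I hl) (mem_e s) (mem_e t)
          hka.symm hla.symm (h.ne_e ha s) (h.ne_e ha t) (Ne.symm hlk) (h.ne_e hk s)
          (h.ne_e hk t) (h.ne_e hl s) (h.ne_e hl t) (h.inj.ne hst) _
          (h.glue (mem_I hl) (mem_e s) (mem_e t) (h.ne_e hl s) (h.ne_e hl t) (h.inj.ne hst)
          (by simp) (Or.inr ⟨s, hsd, rfl⟩) (Or.inr ⟨t, htd, rfl⟩) m2 m3 m4 hd hS)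
        · exact Or.inr m1
        · simp
        · simp
        · exact Or.inr m3
        · exact Or.inr m4
    have hst' : ∀ c, c ≠ d → c = s ∨ c = t := by
      intro c hc
      rcases fin3_all d s t c (Ne.symm hsd) (Ne.symm htd) hst with h' | h' | h'
      · exact absurd h' hc
      · exact Or.inl h'
      · exact Or.inr h'
    -- `l` has no colour with respect to `(a, k)`, nor `k` with respect to `(a, l)`
    have hakl : ∀ c, Cop {a, k, l, e c} → False := by
      intro c hc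
      rcases fin3_all c1 c2 c3 c h12 h13 h23 with h' | h' | h'
      · subst h'
        exact e1 l hl hla hlb hlk _ hc (by simp) (by simp) (by simp) (by simp)
      · subst h'
        exact e2 k hk hka hkb (Ne.symm hlk) _ hc (by simp) (by simp) (by simp) (by simp)
      · subst h'
        apply e3 _ hc (by simp)
        refine ⟨by simp, by simp, ?_⟩
        rcases hst' c (Ne.symm hd3) with h' | h'
        · left; rw [← h']; simp
        · right; rw [← h']; simp
    rcases fin3_all c1 c2 c3 d h12 h13 h23 with h' | h' | h'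
    · -- pair `(a, k)`
      rcases h.bad a ha k hk l hl hka.symm hla.symm (Ne.symm hlk) with ⟨c, hc⟩ | ⟨c, hc⟩
      · by_cases hcc : c = c1
        · rw [hcc, ← h'] at hc
          exact e4 _ hc (by simp) (Or.inl (by simp)) (Or.inr ⟨s, hsd, rfl⟩)
            (Or.inr ⟨t, htd, rfl⟩)
        · -- `e c1` in the plane together with `a, k` and another special point
          obtain ⟨u, huc, hu1⟩ := fin3_third c c1
          apply no5' a b k (e c1) (e u) (mem_I ha) (mem_I hb) (mem_I hk) (mem_e c1) (mem_e u)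
            hab hka.symm (h.ne_e ha c1) (h.ne_e ha u) hkb.symm (h.ne_e hb c1) (h.ne_e hb u)
            (h.ne_e hk c1) (h.ne_e hk u) (h.inj.ne (Ne.symm hu1)) _
            (h.glue (mem_I ha) (mem_I hk) (mem_e c1) hka.symm (h.ne_e ha c1) (h.ne_e hk c1)
            (by simp) (by simp) (by simp) (by simp) (by simp)
            (Or.inr ⟨c1, Ne.symm hcc, rfl⟩) hc1 hc)
          · simp
          · simp
          · simp
          · simp
          · exact Or.inr (Or.inr ⟨u, huc, rfl⟩)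
      · exact hakl c hc
    · rcases h.bad a ha l hl k hk hla.symm hka.symm hlk with ⟨c, hc⟩ | ⟨c, hc⟩
      · by_cases hcc : c = c2
        · rw [hcc, ← h'] at hc
          exact e4 _ hc (by simp) (Or.inr (by simp)) (Or.inr ⟨s, hsd, rfl⟩)
            (Or.inr ⟨t, htd, rfl⟩)
        · obtain ⟨u, huc, hu1⟩ := fin3_third c c2
          apply no5' a b l (e c2) (e u) (mem_I ha) (mem_I hb) (mem_I hl) (mem_e c2) (mem_e u)
            hab hla.symm (h.ne_e ha c2) (h.ne_e ha u) hlb.symm (h.ne_e hb c2) (h.ne_e hb u)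
            (h.ne_e hl c2) (h.ne_e hl u) (h.inj.ne (Ne.symm hu1)) _
            (h.glue (mem_I ha) (mem_I hl) (mem_e c2) hla.symm (h.ne_e ha c2) (h.ne_e hl c2)
            (by simp) (by simp) (by simp) (by simp) (by simp)
            (Or.inr ⟨c2, Ne.symm hcc, rfl⟩) hc2 hc)
          · simp
          · simp
          · simp
          · simp
          · exact Or.inr (Or.inr ⟨u, huc, rfl⟩)
      · apply hakl c
        apply h.mono _ _ _ hc
        intro x hx
        simp only [mem_insert_iff, mem_singleton_iff] at hx ⊢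
        tauto
    · exact hd3 h'

end PlaneSys

end H36Mat
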