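import Pool.Agent.Lib_helper36.Mat.RankFour

/-!
A three-element set in no `U_{2,4}`-minor of a 4-connected matroid forces rank and corank at
least five.
-/

open Set

namespace H36Mat

universe u
variable {α : Type u} {M : Matroid α}

section

variable [M.Finite]

lemma nat_data (M : Matroid α) [M.Finite] : ∃ r s n : ℕ, M.eRank = r ∧ M✶.eRank = s ∧
    M.E.encard = n ∧ r + s = n := by
  have e3 := M.eRank_add_eRank_dual
  have t5 : M.eRank ≠ ⊤ := eRank_ne_top'
  have t6 : M✶.eRank ≠ ⊤ := eRank_ne_top'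
  have t9 : M.E.encard ≠ ⊤ := M.ground_finite.encard_lt_top.ne
  lift M.eRank to ℕ using t5 with r
  lift M✶.eRank to ℕ using t6 with s
  lift M.E.encard to ℕ using t9 with n
  exact ⟨r, s, n, rfl, rfl, rfl, by exact_mod_cast e3⟩

lemma encard_compl_nat {n k : ℕ} (hn : M.E.encard = n) {A : Set α} (hA : A ⊆ M.E)
    (hk : A.encard = k) : (M.E \ A).encard = ((n - k : ℕ) : ℕ∞) ∧ k ≤ n := by
  have h1 := encard_sdiff_add_encard_of_subset hA
  have t8 : (M.E \ A).encard ≠ ⊤ := (M.ground_finite.subset sdiff_subset).encard_lt_top.ne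
  rw [hn, hk] at h1
  lift (M.E \ A).encard to ℕ using t8 with m
  have h2 : m + k = n := by exact_mod_cast h1
  constructor
  · have : m = n - k := by omega
    rw [this]
  · omega

lemma two_le_eRank (hM : TutteConnected 4 M) (h4 : 4 ≤ M.E.encard) : 2 ≤ M.eRank := by
  obtain ⟨r, s, n, hr, hs, hn, hrs⟩ := nat_data M
  obtain ⟨A, hA, hA2⟩ : ∃ A ⊆ M.E, A.encard = (2 : ℕ) := by
    apply Set.exists_subset_encard_eq
    exact le_trans (by norm_num) h4
  have h4' : 4 ≤ n := by rw [hn] at h4; exact_mod_cast h4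
  obtain ⟨h5, h6⟩ := encard_compl_nat hn hA hA2
  have h7 := hM.rank_ineq (k := 2) hA (by rw [hA2]) (by
    rw [h5]; exact_mod_cast (by omega : 2 ≤ n - 2)) (by norm_num)
  have h8 : M.eRk A ≤ M.eRank := M.eRk_le_eRank _
  have h9 : M.eRk (M.E \ A) ≤ M.eRank := M.eRk_le_eRank _
  have t3 : M.eRk A ≠ ⊤ := eRk_ne_top A
  have t4 : M.eRk (M.E \ A) ≠ ⊤ := eRk_ne_top _
  rw [hr] at h7 h8 h9 ⊢
  lift M.eRk A to ℕ using t3 with a3
  lift M.eRk (M.E \ A) to ℕ using t4 with a4
  norm_cast at *
  omega

lemma uniform_case (hr2 : 2 ≤ M.eRank) (hs2 : 2 ≤ M✶.eRank)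
    (hunif : ∀ S ⊆ M.E, S.encard = M.eRank → M.IsBase S) {X : Set α} (hX : X ⊆ M.E)
    (hX3 : X.encard = 3) : InU24Minor M X := by
  classical
  obtain ⟨r, s, n, hr, hs, hn, hrs⟩ := nat_data M
  rw [hr] at hr2
  rw [hs] at hs2
  have hr2' : 2 ≤ r := by exact_mod_cast hr2
  have hs2' : 2 ≤ s := by exact_mod_cast hs2
  obtain ⟨h5, h6⟩ := encard_compl_nat hn hX (k := 3) (by rw [hX3]; rfl)
  obtain ⟨A', hA', hA'c⟩ : ∃ A' ⊆ M.E \ X, A'.encard = ((r - 1 : ℕ) : ℕ∞) := by
    apply Set.exists_subset_encard_eq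
    rw [h5]
    exact_mod_cast (by omega : r - 1 ≤ n - 3)
  have hA'ne : A'.Nonempty := by
    rw [← encard_pos, hA'c]
    exact_mod_cast (by omega : 0 < r - 1)
  obtain ⟨w, hw⟩ := hA'ne
  obtain ⟨x, y, z, hxy, hxz, hyz, rfl⟩ := Set.encard_eq_three.1 hX3
  have hAc : (A' \ {w}).encard = ((r - 2 : ℕ) : ℕ∞) := by
    have h7 := encard_sdiff_singleton_add_one hw
    have t : (A' \ {w}).encard ≠ ⊤ :=
      (M.ground_finite.subset (sdiff_subset.trans (hA'.trans sdiff_subset))).encard_lt_top.ne
    rw [hA'c] at h7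
    lift (A' \ {w}).encard to ℕ using t with m
    have : m + 1 = r - 1 := by exact_mod_cast h7
    have : m = r - 2 := by omega
    rw [this]
  have hxE : x ∈ M.E := hX (by simp)
  have hyE : y ∈ M.E := hX (by simp)
  have hzE : z ∈ M.E := hX (by simp)
  have hwE : w ∈ M.E := (hA' hw).1
  have hnX : ∀ t ∈ A', t ≠ x ∧ t ≠ y ∧ t ≠ z := by
    intro t ht
    have := (hA' ht).2
    simpa only [mem_insert_iff, mem_singleton_iff, not_or] using this
  have key : ∀ s t, s ∈ M.E → t ∈ M.E → s ≠ t → s ∉ A' \ {w} → t ∉ A' \ {w} →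
      M.IsBase ((A' \ {w}) ∪ {s, t}) := by
    intro s t hs ht hst hsA htA
    apply hunif
    · rintro e (he | he)
      · exact (hA' he.1).1
      · simp only [mem_insert_iff, mem_singleton_iff] at he
        rcases he with rfl | rfl <;> assumption
    · rw [encard_union_eq, hAc, encard_pair hst, hr]
      · exact_mod_cast (by omega : r - 2 + 2 = r)
      · rw [disjoint_right]
        intro e he
        simp only [mem_insert_iff, mem_singleton_iff] at he
        rcases he with rfl | rfl <;> assumption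
  have hxA : x ∉ A' \ {w} := fun h => (hnX x h.1).1 rfl
  have hyA : y ∉ A' \ {w} := fun h => (hnX y h.1).2.1 rfl
  have hzA : z ∉ A' \ {w} := fun h => (hnX z h.1).2.2 rfl
  have hwA : w ∉ A' \ {w} := fun h => h.2 rfl
  obtain ⟨hwx, hwy, hwz⟩ := hnX w hw
  exact inU24_of_six hxy hxz hyz hwx hwy hwz hxA hyA hzA hwA (key x y hxE hyE hxy hxA hyA)
    (key x z hxE hzE hxz hxA hzA) (key y z hyE hzE hyz hyA hzA) (key w x hwE hxE hwx hwA hxA)
    (key w y hwE hyE hwy hwA hyA) (key w z hwE hzE hwz hwA hzA)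

lemma small_case (hM : TutteConnected 4 M) (h4 : 4 ≤ M.E.encard)
    (hsmall : M.eRank ≤ 3 ∨ M✶.eRank ≤ 3) {X : Set α} (hX : X ⊆ M.E) (hX3 : X.encard = 3) :
    InU24Minor M X := by
  apply uniform_case (two_le_eRank hM h4) (two_le_eRank hM.dual h4) _ hX hX3
  intro S hS hSc
  obtain ⟨r, s, n, hr, hs, hn, hrs⟩ := nat_data M
  rw [hr] at hSc
  obtain ⟨h5, h6⟩ := encard_compl_nat hn hS hSc
  have h5' : (M.E \ S).encard = (s : ℕ∞) := by
    rw [h5]; exact_mod_cast (by omega : n - r = s)
  rcases Nat.le_total r s with hle | hle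
  · -- r ≤ s, r ≤ 3
    have hr3 : r ≤ 3 := by
      rcases hsmall with h | h
      · rw [hr] at h; exact_mod_cast h
      · rw [hs] at h
        have : s ≤ 3 := by exact_mod_cast h
        omega
    have hi := hM.indep_of_encard (k := r) hS hSc (by
      rw [h5']; exact_mod_cast hle) (by omega)
    apply hi.isBase_of_eRk_ge (M.ground_finite.subset hS)
    rw [hi.eRk_eq_encard, hSc, hr]
  · have hs3 : s ≤ 3 := by
      rcases hsmall with h | h
      · rw [hr] at h
        have : r ≤ 3 := by exact_mod_cast h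
        omega
      · rw [hs] at h; exact_mod_cast h
    have hsp := hM.spanning_compl (A := M.E \ S) (k := s) sdiff_subset h5' (by
      rw [sdiff_sdiff_cancel_left hS, hSc]; exact_mod_cast hle) (by omega)
    rw [sdiff_sdiff_cancel_left hS] at hsp
    have h7 : M.eRk S = S.encard := by rw [hsp.eRk_eq, hSc, hr]
    have hi : M.Indep S := by
      rw [Matroid.indep_iff_eRk_eq_encard_of_finite (M.ground_finite.subset hS)]
      exact h7
    exact hi.isBase_of_spanning hsp

/-- three distinct elements as a function on `Fin 3` -/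
lemma exists_fin3 {X : Set α} (hX3 : X.encard = 3) : ∃ e : Fin 3 → α, Function.Injective e ∧
    range e = X := by
  classical
  obtain ⟨x, y, z, hxy, hxz, hyz, rfl⟩ := Set.encard_eq_three.1 hX3
  refine ⟨![x, y, z], ?_, ?_⟩
  · intro i j hij
    fin_cases i <;> fin_cases j <;> simp_all
  · ext t
    simp only [mem_range, mem_insert_iff, mem_singleton_iff]
    constructor
    · rintro ⟨i, rfl⟩
      fin_cases i <;> simp
    · rintro (rfl | rfl | rfl)
      · exact ⟨0, rfl⟩
      · exact ⟨1, rfl⟩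
      · exact ⟨2, rfl⟩

/-- contraction case: many elements -/
lemma large_case (hM : TutteConnected 4 M) {C X : Set α} (hX : X ⊆ M.E)
    (hX3 : X.encard = 3) (hC : C ⊆ M.E \ X) (hr : M.eRank = C.encard + 4)
    (hs : 5 ≤ M✶.eRank) (hcirc : ∀ D, M.IsCircuit D → 4 ≤ (D \ C).encard) :
    InU24Minor M X := by
  classical
  by_contra hbad
  obtain ⟨e, he, rfl⟩ := exists_fin3 hX3
  have hCE : C ⊆ M.E := hC.trans sdiff_subset
  have heE : ∀ i, e i ∈ M.E \ C := fun i => ⟨hX ⟨i, rfl⟩, fun h => (hC h).2 ⟨i, rfl⟩⟩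
  have hps := planeSys hCE hr hcirc he heE hbad
  obtain ⟨r, s, n, hr', hs', hn, hrs⟩ := nat_data M
  rw [hs'] at hs
  have hs5 : 5 ≤ s := by exact_mod_cast hs
  have hCfin : C.encard ≠ ⊤ := (M.ground_finite.subset hCE).encard_lt_top.ne
  obtain ⟨c, hc⟩ : ∃ c : ℕ, C.encard = c := by
    lift C.encard to ℕ using hCfin with c
    exact ⟨c, rfl⟩
  have hrc : r = c + 4 := by
    rw [hr', hc] at hr; exact_mod_cast hr
  have hI : (6 : ℕ) ≤ ((M.E \ C) \ range e).encard := by
    have h1 : (M.E \ C) \ range e = M.E \ (C ∪ range e) := by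
      rw [sdiff_sdiff]
    have hdisj : Disjoint C (range e) := (subset_sdiff.1 hC).2
    have h2 : (C ∪ range e).encard = ((c + 3 : ℕ) : ℕ∞) := by
      rw [encard_union_eq hdisj, hc, hX3]; rfl
    obtain ⟨h3, h4⟩ := encard_compl_nat hn (union_subset hCE hX) h2
    rw [h1, h3]
    exact_mod_cast (by omega : 6 ≤ n - (c + 3))
  obtain ⟨i, hi⟩ := hps.main hI
  unfold Cop at hi
  -- complement has two elements
  obtain ⟨a, b, hai, hbi, hab⟩ := fin3_two i
  have h2 : ({e a, e b} : Set α).encard = 2 := encard_pair (he.ne hab)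
  have hsubE : ({e a, e b} : Set α) ⊆ M.E := by
    intro t ht
    simp only [mem_insert_iff, mem_singleton_iff] at ht
    rcases ht with rfl | rfl
    · exact (heE a).1
    · exact (heE b).1
  obtain ⟨h3, h4⟩ := encard_compl_nat hn hsubE (k := 2) (by rw [h2]; rfl)
  have hsp := hM.spanning_compl (k := 2) hsubE (by rw [h2]; rfl) (by
    rw [h3]; exact_mod_cast (by omega : 2 ≤ n - 2)) (by norm_num)
  have h5 : M.E \ {e a, e b} ⊆ C ∪ ((M.E \ C) \ range e ∪ {e i}) := by
    intro t ht
    by_cases htC : t ∈ C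
    · exact Or.inl htC
    · by_cases hte : t ∈ range e
      · obtain ⟨j, rfl⟩ := hte
        have htn := ht.2
        simp only [mem_insert_iff, mem_singleton_iff, not_or] at htn
        rcases fin3_all i a b j (Ne.symm hai) (Ne.symm hbi) hab with h' | h' | h'
        · rw [h']; right; right; rfl
        · exact absurd (by rw [h']) htn.1
        · exact absurd (by rw [h']) htn.2
      · exact Or.inr (Or.inl ⟨⟨ht.1, htC⟩, hte⟩)
  have h6 : M.eRank ≤ C.encard + 3 := by
    rw [← hsp.eRk_eq]
    exact (M.eRk_mono h5).trans hi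
  rw [hr] at h6
  have h7 := (ENat.add_le_add_iff_left hCfin).1 h6
  exact absurd h7 (by norm_num)

lemma eight_case (hM : TutteConnected 4 M) {X : Set α} (hX : X ⊆ M.E)
    (hX3 : X.encard = 3) (hr : M.eRank = 4) (hs : M✶.eRank = 4) : InU24Minor M X := by
  classical
  by_contra hbad
  obtain ⟨e, he, rfl⟩ := exists_fin3 hX3
  obtain ⟨r, s, n, hr', hs', hn, hrs⟩ := nat_data M
  have hr4 : r = 4 := by rw [hr'] at hr; exact_mod_cast hr
  have hs4 : s = 4 := by rw [hs'] at hs; exact_mod_cast hs
  have hn8 : n = 8 := by omega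
  subst hn8
  have hcirc : ∀ D, M.IsCircuit D → 4 ≤ (D \ ∅).encard := by
    intro D hD
    rw [sdiff_empty]
    by_contra hcon
    push Not at hcon
    have hDfin : D.encard ≠ ⊤ := (M.ground_finite.subset hD.subset_ground).encard_lt_top.ne
    obtain ⟨d, hd⟩ : ∃ d : ℕ, D.encard = d := by
      lift D.encard to ℕ using hDfin with d
      exact ⟨d, rfl⟩
    rw [hd] at hcon
    have hd3 : d < 4 := by exact_mod_cast hcon
    obtain ⟨h1, h2⟩ := encard_compl_nat hn hD.subset_ground hd
    have hi := hM.indep_of_encard (k := d) hD.subset_ground hd (by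
      rw [h1]; exact_mod_cast (by omega : d ≤ 8 - d)) hd3
    exact hD.not_indep hi
  have heE : ∀ i, e i ∈ M.E \ ∅ := fun i => ⟨hX ⟨i, rfl⟩, fun h => h⟩
  have hps := planeSys (C := ∅) (empty_subset _) (by rw [hr, encard_empty, zero_add]) hcirc he heE
    hbad
  rw [sdiff_empty] at hps
  obtain ⟨h3, h4⟩ := encard_compl_nat hn hX (k := 3) (by rw [hX3]; rfl)
  have hCop : ∀ S, Cop M ∅ S → M.eRk S ≤ 3 := by
    intro S hS
    unfold Cop at hS
    rwa [empty_union, encard_empty, zero_add] at hS
  apply hps.main8 (by rw [h3])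
  · -- no five coplanar
    intro S hS hSc
    by_contra hcon
    push Not at hcon
    have hSE : S ⊆ M.E := by
      intro t ht
      rcases hS ht with h | h
      · exact h.1
      · exact hX h
    have hSfin : S.encard ≠ ⊤ := (M.ground_finite.subset hSE).encard_lt_top.ne
    obtain ⟨d, hd⟩ : ∃ d : ℕ, S.encard = d := by
      lift S.encard to ℕ using hSfin with d
      exact ⟨d, rfl⟩
    rw [hd] at hcon
    have hd5 : 5 ≤ d := by exact_mod_cast hcon
    obtain ⟨h5, h6⟩ := encard_compl_nat hn hSE hd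
    have hsp := hM.spanning_compl (A := M.E \ S) (k := 8 - d) sdiff_subset h5 (by
      rw [sdiff_sdiff_cancel_left hSE, hd]; exact_mod_cast (by omega : 8 - d ≤ d)) (by omega)
    rw [sdiff_sdiff_cancel_left hSE] at hsp
    have h7 := hCop S hSc
    rw [hsp.eRk_eq, hr] at h7
    exact absurd h7 (by norm_num)
  · -- complementary planes
    intro a ha b hb m hm k hk l hl hab ham hbm hkl hka hkb hkm hla hlb hlm c h1 h2
    have hA : ({a, b, m, e c} : Set α) ⊆ M.E := by
      intro t ht
      simp only [mem_insert_iff, mem_singleton_iff] at ht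
      rcases ht with rfl | rfl | rfl | rfl
      · exact ha.1
      · exact hb.1
      · exact hm.1
      · exact hX ⟨c, rfl⟩
    have hne : ∀ t ∈ M.E \ range e, t ≠ e c := fun t ht h' => ht.2 ⟨c, h'.symm⟩
    have hAc : ({a, b, m, e c} : Set α).encard = (4 : ℕ) := by
      rw [encard_insert_of_notMem, encard_insert_of_notMem, encard_pair (hne m hm)]
      · norm_num
      · simp only [mem_insert_iff, mem_singleton_iff, not_or]; exact ⟨hbm, hne b hb⟩
      · simp only [mem_insert_iff, mem_singleton_iff, not_or]; exact ⟨hab, ham, hne a ha⟩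
    obtain ⟨h5, h6⟩ := encard_compl_nat hn hA hAc
    have h7 := hM.rank_ineq (k := 3) hA (by rw [hAc]; norm_num) (by rw [h5]; norm_num)
      (by norm_num)
    have h8 := hCop _ h1
    have h9 := hCop _ h2
    -- the five points are all of `I`
    have hI5 : ({a, b, m, k, l} : Set α) = M.E \ range e := by
      apply (M.ground_finite.subset sdiff_subset).eq_of_subset_of_encard_le'
      · intro t ht
        simp only [mem_insert_iff, mem_singleton_iff] at ht
        rcases ht with rfl | rfl | rfl | rfl | rfl <;> assumption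
      · rw [h3]
        exact PlaneSys.five_le hab ham hka.symm hla.symm hbm hkb.symm hlb.symm hkm.symm hlm.symm
          hkl
    have h10 : M.E \ {a, b, m, e c} ⊆ {k, l} ∪ e '' {c}ᶜ := by
      intro t ht
      have htn := ht.2
      simp only [mem_insert_iff, mem_singleton_iff, not_or] at htn
      by_cases hte : t ∈ range e
      · obtain ⟨j, rfl⟩ := hte
        right
        refine ⟨j, ?_, rfl⟩
        intro hjc
        rw [mem_singleton_iff] at hjc
        exact htn.2.2.2 (by rw [hjc])
      · have h11 : t ∈ ({a, b, m, k, l} : Set α) := by rw [hI5]; exact ⟨ht.1, hte⟩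
        simp only [mem_insert_iff, mem_singleton_iff] at h11
        left
        simp only [mem_insert_iff, mem_singleton_iff]
        tauto
    have h11 : M.eRk (M.E \ {a, b, m, e c}) ≤ 3 := (M.eRk_mono h10).trans h9
    rw [hr] at h7
    have h12 : (4 : ℕ∞) + (3 : ℕ) ≤ 3 + 3 := h7.trans (add_le_add h8 h11)
    exact absurd h12 (by norm_num)

lemma five_le_eRank (hM : TutteConnected 4 M) (h4 : 4 ≤ M.E.encard) {X : Set α}
    (hX : X ⊆ M.E) (hX3 : X.encard = 3) (hbad : ¬ InU24Minor M X) : 5 ≤ M.eRank := by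
  by_contra hcon
  push Not at hcon
  obtain ⟨r, s, n, hr, hs, hn, hrs⟩ := nat_data M
  have hr5 : r < 5 := by rw [hr] at hcon; exact_mod_cast hcon
  have hr3 : ¬ r ≤ 3 := by
    intro h
    apply hbad
    exact small_case hM h4 (Or.inl (by rw [hr]; exact_mod_cast h)) hX hX3
  have hs3 : ¬ s ≤ 3 := by
    intro h
    apply hbad
    exact small_case hM h4 (Or.inr (by rw [hs]; exact_mod_cast h)) hX hX3
  have hr4 : r = 4 := by omega
  subst hr4
  by_cases hs4 : s = 4
  · subst hs4
    exact hbad (eight_case hM hX hX3 hr hs)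
  · apply hbad
    apply large_case hM hX hX3 (C := ∅) (empty_subset _)
    · rw [hr, encard_empty, zero_add]; rfl
    · rw [hs]; exact_mod_cast (by omega : 5 ≤ s)
    · intro D hD
      rw [sdiff_empty]
      by_contra hcon
      push Not at hcon
      have hDfin : D.encard ≠ ⊤ := (M.ground_finite.subset hD.subset_ground).encard_lt_top.ne
      obtain ⟨d, hd⟩ : ∃ d : ℕ, D.encard = d := by
        lift D.encard to ℕ using hDfin with d
        exact ⟨d, rfl⟩
      rw [hd] at hcon
      have hd3 : d < 4 := by exact_mod_cast hcon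
      obtain ⟨h1, h2⟩ := encard_compl_nat hn hD.subset_ground hd
      have hi := hM.indep_of_encard (k := d) hD.subset_ground hd (by
        rw [h1]; exact_mod_cast (by omega : d ≤ n - d)) hd3
      exact hD.not_indep hi

/-- Necessary conditions for a three-element set in no `U_{2,4}`-minor. -/
theorem necessary (hM : TutteConnected 4 M) (h4 : 4 ≤ M.E.encard) {X : Set α}
    (hX : X ⊆ M.E) (hX3 : X.encard = 3) (hbad : ¬ InU24Minor M X) :
    5 ≤ M.eRank ∧ 5 ≤ M✶.eRank ∧
      (∀ C ⊆ M.E \ X, C.encard + 4 = M.eRank → ∃ D, M.IsCircuit D ∧ (D \ C).encard ≤ 3) ∧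
      (∀ C ⊆ M.E \ X, C.encard + 4 = M✶.eRank → ∃ D, M.IsCocircuit D ∧ (D \ C).encard ≤ 3) := by
  have h1 := five_le_eRank hM h4 hX hX3 hbad
  have hbad' : ¬ InU24Minor M✶ X := fun h => hbad (inU24_dual_iff.1 h)
  have h2 := five_le_eRank (M := M✶) hM.dual h4 hX hX3 hbad'
  refine ⟨h1, h2, ?_, ?_⟩
  · intro C hC hCr
    by_contra hcon
    push Not at hcon
    apply hbad
    apply large_case hM hX hX3 hC hCr.symm h2
    intro D hD
    have h3 := Order.add_one_le_of_lt (hcon D hD)
    exact le_trans (by norm_num) h3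
  · intro C hC hCr
    by_contra hcon
    push Not at hcon
    apply hbad'
    apply large_case (M := M✶) hM.dual hX hX3 hC hCr.symm (by rw [Matroid.dual_dual]; exact h1)
    intro D hD
    have h3 := Order.add_one_le_of_lt (hcon D hD)
    exact le_trans (by norm_num) h3

end

end H36Mat
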