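import Pool.Agent.Lib_helper36.Mat.Dual
import Pool.Agent.Lib_helper36.Mat.Planes

/-!
Matroids of rank at most four, and contractions of rank four.
-/

open Set

namespace H36Mat

universe u
variable {α : Type u} {M : Matroid α}

/-- `C ∪ S` has rank at most `|C| + 3` -/
def Cop (M : Matroid α) (C S : Set α) : Prop := M.eRk (C ∪ S) ≤ C.encard + 3

section planes

set_option linter.unusedSectionVars false

variable [M.Finite] {C : Set α} {e : Fin 3 → α}

lemma indep_of_circ (hCE : C ⊆ M.E) (hcirc : ∀ D, M.IsCircuit D → 4 ≤ (D \ C).encard)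
    {S : Set α} (hS : S ⊆ M.E \ C) (hS3 : S.encard ≤ 3) : M.Indep (C ∪ S) := by
  by_contra hcon
  have hdep : M.Dep (C ∪ S) := ⟨hcon, union_subset hCE (hS.trans sdiff_subset)⟩
  obtain ⟨D, hD, hDc⟩ := hdep.exists_isCircuit_subset
  have h1 := hcirc D hDc
  have h2 : D \ C ⊆ S := by
    intro x hx
    rcases hD hx.1 with h | h
    · exact absurd h hx.2
    · exact h
  have h3 := encard_le_encard h2
  have h4 : (4 : ℕ∞) ≤ 3 := h1.trans (h3.trans hS3)
  exact absurd h4 (by norm_num)

lemma Cop.mono' {S T : Set α} (hST : S ⊆ T) (hT : Cop M C T) : Cop M C S :=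
  (M.eRk_mono (union_subset_union_right C hST)).trans hT

/-- A four-element set outside `C` which is not coplanar gives a base. -/
lemma base_of_not_cop (hCE : C ⊆ M.E) (hr : M.eRank = C.encard + 4) {S : Set α}
    (hS : S ⊆ M.E \ C) (hS4 : S.encard = 4) (hn : ¬ Cop M C S) : M.IsBase (C ∪ S) := by
  unfold Cop at hn
  push Not at hn
  have hSE : S ⊆ M.E := hS.trans sdiff_subset
  have hdisj : Disjoint C S := (subset_sdiff.1 hS).2.symm
  have hCfin : C.encard ≠ ⊤ := (M.ground_finite.subset hCE).encard_lt_top.ne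
  have hcard : (C ∪ S).encard = C.encard + 4 := by rw [encard_union_eq hdisj, hS4]
  have h1 : C.encard + 4 ≤ M.eRk (C ∪ S) := by
    have h2 : C.encard + 3 + 1 ≤ M.eRk (C ∪ S) := Order.add_one_le_of_lt hn
    have h3 : C.encard + 3 + 1 = C.encard + 4 := by rw [add_assoc]; norm_num
    rwa [h3] at h2
  have h2 : M.Indep (C ∪ S) := by
    rw [Matroid.indep_iff_eRk_eq_encard_of_finite
      (M.ground_finite.subset (union_subset hCE hSE))]
    apply le_antisymm (M.eRk_le_encard _)
    rw [hcard]; exact h1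
  apply h2.isBase_of_eRk_ge (M.ground_finite.subset h2.subset_ground)
  rw [hr]; exact h1

lemma planeSys (hCE : C ⊆ M.E) (hr : M.eRank = C.encard + 4)
    (hcirc : ∀ D, M.IsCircuit D → 4 ≤ (D \ C).encard) (he : Function.Injective e)
    (heE : ∀ i, e i ∈ M.E \ C) (hbad : ¬ InU24Minor M (range e)) :
    PlaneSys (Cop M C) e ((M.E \ C) \ range e) := by
  classical
  have hIE : ∀ a ∈ (M.E \ C) \ range e, a ∈ M.E \ C := fun a ha => ha.1
  have hGE : ∀ p ∈ ((M.E \ C) \ range e) ∪ range e, p ∈ M.E \ C := by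
    rintro p (hp | ⟨i, rfl⟩)
    · exact hp.1
    · exact heE i
  have hCfin : C.encard ≠ ⊤ := (M.ground_finite.subset hCE).encard_lt_top.ne
  have hindep := fun {S : Set α} => indep_of_circ (S := S) hCE hcirc
  have hrange : range e = {e 0, e 1, e 2} := by
    ext x
    simp only [mem_range, mem_insert_iff, mem_singleton_iff]
    constructor
    · rintro ⟨i, rfl⟩
      fin_cases i
      · left; rfl
      · right; left; rfl
      · right; right; rfl
    · rintro (rfl | rfl | rfl) <;> exact ⟨_, rfl⟩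
  have h01 : e 0 ≠ e 1 := he.ne (by decide)
  have h02 : e 0 ≠ e 2 := he.ne (by decide)
  have h12 : e 1 ≠ e 2 := he.ne (by decide)
  have hpair : ∀ c : Fin 3, ∀ s t : Fin 3, s ≠ c → t ≠ c → s ≠ t → e '' {c}ᶜ = {e s, e t} := by
    intro c s t hs ht hst
    ext x
    simp only [mem_image, mem_compl_iff, mem_singleton_iff, mem_insert_iff]
    constructor
    · rintro ⟨i, hi, rfl⟩
      rcases fin3_all c s t i (Ne.symm hs) (Ne.symm ht) hst with h' | h' | h'
      · exact absurd h' hi
      · left; rw [h']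
      · right; rw [h']
    · rintro (rfl | rfl)
      · exact ⟨s, hs, rfl⟩
      · exact ⟨t, ht, rfl⟩
  refine ⟨he, fun i h => h.2 ⟨i, rfl⟩, fun S T hST hT => Cop.mono' hST hT, ?_, ?_, ?_⟩
  · -- glueAll
    intro p hp q hq r hr' hpq hpr hqr J hJ
    have hpE := hGE p hp
    have hqE := hGE q hq
    have hrE := hGE r hr'
    have hsub : ({p, q, r} : Set α) ⊆ M.E \ C := by
      intro x hx
      simp only [mem_insert_iff, mem_singleton_iff] at hx
      rcases hx with rfl | rfl | rfl <;> assumption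
    have h3 : ({p, q, r} : Set α).encard = 3 := by
      rw [encard_eq_three]; exact ⟨p, q, r, hpq, hpr, hqr, rfl⟩
    have hi := hindep hsub h3.le
    have hdisj : Disjoint C ({p, q, r} : Set α) := (subset_sdiff.1 hsub).2.symm
    have hrk : M.eRk (C ∪ {p, q, r}) = C.encard + 3 := by
      rw [hi.eRk_eq_encard, encard_union_eq hdisj, h3]
    have hcl : (C ∪ ({p, q, r} ∪ J)) ∩ M.E ⊆ M.closure (C ∪ {p, q, r}) := by
      rintro x ⟨hx | hx | hx, hxE⟩
      · exact M.mem_closure_of_mem (Or.inl hx) hi.subset_ground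
      · exact M.mem_closure_of_mem (Or.inr hx) hi.subset_ground
      · by_contra hncl
        have h4 := M.eRk_insert_eq_add_one ⟨hxE, hncl⟩
        have h5 := hJ x hx
        unfold Cop at h5
        have h6 : insert x (C ∪ {p, q, r}) = C ∪ {p, q, r, x} := by
          ext t; simp only [mem_insert_iff, mem_union, mem_singleton_iff]; tauto
        rw [h6, hrk] at h4
        rw [h4] at h5
        have h7 : C.encard + 3 + 1 ≤ C.encard + 3 + 0 := by rw [add_zero]; exact h5
        have hfin : C.encard + 3 ≠ ⊤ := by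
          lift C.encard to ℕ using hCfin with n
          exact ENat.natCast_ne_top (n + 3)
        have h8 := (ENat.add_le_add_iff_left hfin).1 h7
        exact absurd h8 (by norm_num)
    unfold Cop
    rw [← M.eRk_inter_ground, ← hrk, ← M.eRk_closure_eq (C ∪ {p, q, r})]
    exact M.eRk_mono hcl
  · -- bad
    intro a ha b hb w hw hab haw hbw
    by_contra hcon
    push Not at hcon
    obtain ⟨hn1, hn2⟩ := hcon
    apply hbad
    rw [hrange]
    have haE := (hIE a ha)
    have hbE := (hIE b hb)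
    have hwE := (hIE w hw)
    have hae : ∀ i, a ≠ e i := fun i h' => ha.2 ⟨i, h'.symm⟩
    have hbe : ∀ i, b ≠ e i := fun i h' => hb.2 ⟨i, h'.symm⟩
    have hwe : ∀ i, w ≠ e i := fun i h' => hw.2 ⟨i, h'.symm⟩
    have key : ∀ s t : α, s ∈ M.E \ C → t ∈ M.E \ C → a ≠ s → a ≠ t → b ≠ s → b ≠ t → s ≠ t →
        ¬ Cop M C {a, b, s, t} → M.IsBase ((C ∪ {a, b}) ∪ {s, t}) := by
      intro s t hs ht has hat hbs hbt hst hn
      have e1 : (C ∪ {a, b}) ∪ {s, t} = C ∪ {a, b, s, t} := by
        ext x; simp only [mem_union, mem_insert_iff, mem_singleton_iff]; tauto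
      rw [e1]
      apply base_of_not_cop hCE hr _ _ hn
      · intro x hx
        simp only [mem_insert_iff, mem_singleton_iff] at hx
        rcases hx with rfl | rfl | rfl | rfl <;> assumption
      · rw [encard_insert_of_notMem, encard_insert_of_notMem, encard_pair hst]
        · norm_num
        · simp only [mem_insert_iff, mem_singleton_iff, not_or]; exact ⟨hbs, hbt⟩
        · simp only [mem_insert_iff, mem_singleton_iff, not_or]; exact ⟨hab, has, hat⟩
    have keye : ∀ c s t : Fin 3, s ≠ c → t ≠ c → s ≠ t →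
        M.IsBase ((C ∪ {a, b}) ∪ {e s, e t}) := by
      intro c s t hs ht hst
      apply key (e s) (e t) (heE s) (heE t) (hae s) (hae t) (hbe s) (hbe t) (he.ne hst)
      intro hc
      apply hn1 c
      rw [hpair c s t hs ht hst]
      apply Cop.mono' _ hc
      intro x hx
      simp only [mem_union, mem_insert_iff, mem_singleton_iff] at hx ⊢
      tauto
    have keyw : ∀ i, M.IsBase ((C ∪ {a, b}) ∪ {w, e i}) := by
      intro i
      exact key w (e i) hwE (heE i) haw (hae i) hbw (hbe i) (hwe i) (hn2 i)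
    have hnA : ∀ t ∈ M.E \ C, a ≠ t → b ≠ t → t ∉ C ∪ {a, b} := by
      intro t ht hat hbt
      simp only [mem_union, mem_insert_iff, mem_singleton_iff, not_or]
      exact ⟨ht.2, hat.symm, hbt.symm⟩
    exact inU24_of_six h01 h02 h12 (hwe 0) (hwe 1) (hwe 2) (hnA _ (heE 0) (hae 0) (hbe 0))
      (hnA _ (heE 1) (hae 1) (hbe 1)) (hnA _ (heE 2) (hae 2) (hbe 2)) (hnA _ hwE haw hbw)
      (keye 2 0 1 (by decide) (by decide) (by decide))
      (keye 1 0 2 (by decide) (by decide) (by decide))
      (keye 0 1 2 (by decide) (by decide) (by decide)) (keyw 0) (keyw 1) (keyw 2)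
  · -- full
    intro a ha b hb hab hc
    apply hbad
    rw [hrange]
    have haE := (hIE a ha)
    have hbE := (hIE b hb)
    have hae : ∀ i, a ≠ e i := fun i h' => ha.2 ⟨i, h'.symm⟩
    have hbe : ∀ i, b ≠ e i := fun i h' => hb.2 ⟨i, h'.symm⟩
    set Pt := C ∪ ({a, b} ∪ range e) with hPi
    have hPiE : Pt ⊆ M.E := by
      rintro x (hx | (hx | ⟨i, rfl⟩))
      · exact hCE hx
      · simp only [mem_insert_iff, mem_singleton_iff] at hx
        rcases hx with rfl | rfl
        · exact haE.1
        · exact hbE.1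
      · exact (heE i).1
    obtain ⟨w, hwE, hwcl⟩ : ∃ w ∈ M.E, w ∉ M.closure Pt := by
      by_contra hcon
      push Not at hcon
      have h1 : M.eRank ≤ M.eRk Pt := by
        rw [Matroid.eRank_def, ← M.eRk_closure_eq Pt]
        exact M.eRk_mono hcon
      unfold Cop at hc
      rw [hr] at h1
      have h2 : C.encard + 4 ≤ C.encard + 3 := h1.trans hc
      have h3 := (ENat.add_le_add_iff_left hCfin).1 h2
      exact absurd h3 (by norm_num)
    have hwn : ∀ t ∈ Pt, w ≠ t := by
      rintro t ht rfl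
      exact hwcl (M.mem_closure_of_mem ht hPiE)
    have haPi : a ∈ Pt := Or.inr (Or.inl (by simp))
    have hbPi : b ∈ Pt := Or.inr (Or.inl (by simp))
    have hePi : ∀ i, e i ∈ Pt := fun i => Or.inr (Or.inr ⟨i, rfl⟩)
    have key : ∀ s t : α, s ∈ M.E \ C → t ∈ M.E \ C → s ∈ Pt → t ∈ Pt → a ≠ s → a ≠ t →
        s ≠ t → M.IsBase ((C ∪ {a, w}) ∪ {s, t}) := by
      intro s t hs ht hsPi htPi has hat hst
      have hsub : ({a, s, t} : Set α) ⊆ M.E \ C := by
        intro x hx
        simp only [mem_insert_iff, mem_singleton_iff] at hx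
        rcases hx with rfl | rfl | rfl <;> assumption
      have h3 : ({a, s, t} : Set α).encard = 3 := by
        rw [encard_eq_three]; exact ⟨a, s, t, has, hat, hst, rfl⟩
      have hi := hindep hsub h3.le
      have hsubPi : C ∪ {a, s, t} ⊆ Pt := by
        rintro x (hx | hx)
        · exact Or.inl hx
        · simp only [mem_insert_iff, mem_singleton_iff] at hx
          rcases hx with rfl | rfl | rfl <;> assumption
      have hwn' : w ∉ C ∪ {a, s, t} := fun h' => hwn w (hsubPi h') rfl
      have hwcl' : w ∉ M.closure (C ∪ {a, s, t}) := fun h' =>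
        hwcl (M.closure_subset_closure hsubPi h')
      have hi2 : M.Indep (insert w (C ∪ {a, s, t})) :=
        (hi.insert_indep_iff_of_notMem hwn').2 ⟨hwE, hwcl'⟩
      have hdisj : Disjoint C ({a, s, t} : Set α) := (subset_sdiff.1 hsub).2.symm
      have hb : M.IsBase (insert w (C ∪ {a, s, t})) := by
        apply hi2.isBase_of_eRk_ge (M.ground_finite.subset hi2.subset_ground)
        rw [hi2.eRk_eq_encard, encard_insert_of_notMem hwn', encard_union_eq hdisj, h3, hr,
          add_assoc]
        norm_num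
      have e1 : (C ∪ {a, w}) ∪ {s, t} = insert w (C ∪ {a, s, t}) := by
        ext x; simp only [mem_union, mem_insert_iff, mem_singleton_iff]; tauto
      rw [e1]; exact hb
    have hnA : ∀ t ∈ M.E \ C, t ∈ Pt → a ≠ t → t ∉ C ∪ {a, w} := by
      intro t ht htPi hat
      simp only [mem_union, mem_insert_iff, mem_singleton_iff, not_or]
      exact ⟨ht.2, hat.symm, fun h' => hwn t htPi h'.symm⟩
    exact inU24_of_six (w := b) h01 h02 h12 (hbe 0) (hbe 1) (hbe 2)
      (hnA _ (heE 0) (hePi 0) (hae 0)) (hnA _ (heE 1) (hePi 1) (hae 1))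
      (hnA _ (heE 2) (hePi 2) (hae 2)) (hnA _ hbE hbPi hab)
      (key _ _ (heE 0) (heE 1) (hePi 0) (hePi 1) (hae 0) (hae 1) h01)
      (key _ _ (heE 0) (heE 2) (hePi 0) (hePi 2) (hae 0) (hae 2) h02)
      (key _ _ (heE 1) (heE 2) (hePi 1) (hePi 2) (hae 1) (hae 2) h12)
      (key _ _ hbE (heE 0) hbPi (hePi 0) hab (hae 0) (hbe 0))
      (key _ _ hbE (heE 1) hbPi (hePi 1) hab (hae 1) (hbe 1))
      (key _ _ hbE (heE 2) hbPi (hePi 2) hab (hae 2) (hbe 2))

end planes

end H36Mat
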