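import Pool.Agent.Lib_helper36.Mat.Conn

/-!
Matroids represented by vectors.
-/

open Set

namespace H36Mat

universe u w

section rep

variable {α : Type u} {M : Matroid α} {F : Type*} [Field F] {Z : Type w} [AddCommGroup Z]
  [Module F Z]

/-- `v` represents `M` over `F`. -/
def Rep (F : Type*) [Field F] {Z : Type w} [AddCommGroup Z] [Module F Z] (M : Matroid α)
    (v : α → Z) : Prop :=
  ∀ I ⊆ M.E, (M.Indep I ↔ LinearIndepOn F v I)

lemma Rep.closure_aux {v : α → Z} (hM : Rep F M v) {I : Set α} (hI : M.Indep I) {e : α}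
    (he : e ∈ M.E) : e ∈ M.closure I ↔ v e ∈ Submodule.span F (v '' I) := by
  by_cases heI : e ∈ I
  · exact ⟨fun _ => Submodule.subset_span ⟨e, heI, rfl⟩,
      fun _ => M.mem_closure_of_mem heI hI.subset_ground⟩
  · have h1 := hI.mem_closure_iff_of_notMem heI
    have hsub : insert e I ⊆ M.E := insert_subset he hI.subset_ground
    have h2 := hM _ hsub
    rw [linearIndepOn_insert heI] at h2
    have h3 := (hM I hI.subset_ground).1 hI
    rw [h1]
    constructor
    · intro hd
      by_contra hcon
      exact hd.not_indep (h2.2 ⟨h3, hcon⟩)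
    · intro hs
      refine ⟨fun hi => (h2.1 hi).2 hs, hsub⟩

lemma Rep.span_isBasis {v : α → Z} (hM : Rep F M v) {I A : Set α} (hI : M.IsBasis I A) :
    Submodule.span F (v '' I) = Submodule.span F (v '' A) := by
  apply le_antisymm
  · exact Submodule.span_mono (image_mono hI.subset)
  · rw [Submodule.span_le]
    rintro _ ⟨a, ha, rfl⟩
    exact (hM.closure_aux hI.indep (hI.subset_ground ha)).1 (hI.subset_closure ha)

lemma Rep.mem_closure_iff {v : α → Z} (hM : Rep F M v) {A : Set α} (hA : A ⊆ M.E) {e : α}
    (he : e ∈ M.E) : e ∈ M.closure A ↔ v e ∈ Submodule.span F (v '' A) := by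
  obtain ⟨I, hI⟩ := M.exists_isBasis A
  rw [← hI.closure_eq_closure, hM.closure_aux hI.indep he, hM.span_isBasis hI]

lemma Rep.eRk_eq [M.Finite] {v : α → Z} (hM : Rep F M v) {A : Set α} (hA : A ⊆ M.E) :
    M.eRk A = (Module.finrank F (Submodule.span F (v '' A)) : ℕ∞) := by
  classical
  obtain ⟨I, hI⟩ := M.exists_isBasis A
  have hfin : I.Finite := M.ground_finite.subset hI.indep.subset_ground
  have := hfin.fintype
  have h1 : LinearIndependent F (fun i : I => v i) := (hM I hI.indep.subset_ground).1 hI.indep
  have h2 := finrank_span_eq_card h1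
  rw [← hI.encard_eq_eRk, ← hM.span_isBasis hI, image_eq_range, h2, ← Set.toFinset_card,
    Set.encard_eq_coe_toFinset_card]

/-- The matroid on the finite set `E` represented by the vectors `v e`. -/
noncomputable def repMatroid (F : Type*) [Field F] {Z : Type w} [AddCommGroup Z] [Module F Z]
    (v : α → Z) (E : Set α) (hE : E.Finite) : Matroid α :=
  (IndepMatroid.ofFinite hE (fun I => I ⊆ E ∧ LinearIndepOn F v I)
    ⟨empty_subset _, linearIndepOn_empty F v⟩
    (fun _ _ hJ hIJ => ⟨hIJ.trans hJ.1, hJ.2.mono hIJ⟩)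
    (by
      rintro I J ⟨hIE, hI⟩ ⟨hJE, hJ⟩ hlt
      by_contra hcon
      push Not at hcon
      have hIfin : I.Finite := hE.subset hIE
      have hJfin : J.Finite := hE.subset hJE
      have := hIfin.fintype
      have := hJfin.fintype
      have hsub : Submodule.span F (v '' J) ≤ Submodule.span F (v '' I) := by
        rw [Submodule.span_le]
        rintro _ ⟨e, he, rfl⟩
        by_cases heI : e ∈ I
        · exact Submodule.subset_span ⟨e, heI, rfl⟩
        · by_contra hns
          exact hcon e he heI (insert_subset (hJE he) hIE)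
            ((linearIndepOn_insert heI).2 ⟨hI, hns⟩)
      have : FiniteDimensional F (Submodule.span F (v '' I)) :=
        FiniteDimensional.span_of_finite F (hIfin.image v)
      have h1 := Submodule.finrank_mono hsub
      rw [image_eq_range, image_eq_range v I, finrank_span_eq_card hI, finrank_span_eq_card hJ,
        ← Set.toFinset_card, ← Set.toFinset_card, ← Set.ncard_eq_toFinset_card',
        ← Set.ncard_eq_toFinset_card'] at h1
      omega)
    (fun _ h => h.1)).matroid

lemma repMatroid_E (v : α → Z) (E : Set α) (hE : E.Finite) :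
    (repMatroid F v E hE).E = E := rfl

lemma repMatroid_indep (v : α → Z) (E : Set α) (hE : E.Finite) (I : Set α) :
    (repMatroid F v E hE).Indep I ↔ I ⊆ E ∧ LinearIndepOn F v I := by
  simp [repMatroid]

lemma repMatroid_rep (v : α → Z) (E : Set α) (hE : E.Finite) :
    Rep F (repMatroid F v E hE) v := by
  intro I hI
  rw [repMatroid_indep]
  exact ⟨fun h => h.2, fun h => ⟨hI, h⟩⟩

lemma repMatroid_finite (v : α → Z) (E : Set α) (hE : E.Finite) :
    (repMatroid F v E hE).Finite := ⟨hE⟩

lemma Rep.representableOver {ι : Type*} [Fintype ι] {v : α → (ι → F)} (hM : Rep F M v) :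
    RepresentableOver F M := by
  classical
  let e : ι ≃ Fin (Fintype.card ι) := Fintype.equivFin ι
  let L : (ι → F) ≃ₗ[F] (Fin (Fintype.card ι) → F) := LinearEquiv.funCongrLeft F F e.symm
  refine ⟨Fintype.card ι, fun x => L (v x), fun I hI => ?_⟩
  rw [hM I hI]
  have := LinearMap.linearIndepOn_iff_of_injOn (s := I) (v := v) L.toLinearMap
    (L.injective.injOn)
  exact this.symm

end rep

end H36Mat
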