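import Pool.Agent.Lib_helper36.Mat.FrameGraph

/-!
Twisting one edge of a well connected graph gives a non-binary matroid.
-/

open Set

namespace H36Mat

section parity

universe u

variable {α : Type u} {M : Matroid α}

/-- In a binary matroid a hyperplane gives a linear functional. -/
lemma exists_functional {m : ℕ} {w : α → (Fin m → ZMod 2)} (hw : Rep (ZMod 2) M w) {A : Set α}
    (hA : A ⊆ M.E) {e₁ : α} (he₁ : e₁ ∈ M.E) (h1 : e₁ ∉ M.closure A)
    (h2 : ∀ e ∈ M.E, e ∈ M.closure (insert e₁ A)) :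
    ∃ φ : (Fin m → ZMod 2) →ₗ[ZMod 2] ZMod 2,
      ∀ e ∈ M.E, (e ∈ M.closure A → φ (w e) = 0) ∧ (e ∉ M.closure A → φ (w e) = 1) := by
  have h3 : w e₁ ∉ Submodule.span (ZMod 2) (w '' A) := by
    rwa [hw.mem_closure_iff hA he₁] at h1
  obtain ⟨φ, hφ1, hφ2⟩ := Submodule.exists_le_ker_of_notMem h3
  have hz2 : ∀ a : ZMod 2, a ≠ 0 → a = 1 := by decide
  refine ⟨φ, fun e he => ⟨fun hc => ?_, fun hc => ?_⟩⟩
  · rw [hw.mem_closure_iff hA he] at hc
    exact hφ2 hc
  · have h4 := h2 e he
    rw [hw.mem_closure_iff (insert_subset he₁ hA) he, image_insert_eq,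
      Submodule.mem_span_insert'] at h4
    obtain ⟨a, ha⟩ := h4
    have h5 : φ (w e) + a * φ (w e₁) = 0 := by
      have := hφ2 ha
      rwa [LinearMap.mem_ker, map_add, map_smul, smul_eq_mul] at this
    have ha0 : a ≠ 0 := by
      rintro rfl
      rw [zero_smul, add_zero] at ha
      exact hc ((hw.mem_closure_iff hA he).2 ha)
    rw [hz2 a ha0, hz2 _ hφ1, one_mul] at h5
    have hz2' : ∀ b : ZMod 2, b + 1 = 0 → b = 1 := by decide
    exact hz2' _ h5

end parity

section graph

set_option linter.unusedSectionVars false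

variable {W : Type} [Fintype W] {G : SimpleGraph W} {k γ : ℕ}

/-- Deleting a vertex and an edge leaves the other vertices joined. -/
lemma Core.joined (h : Core G k γ) (hk : 2 ≤ k) (hγ : 3 * k ≤ γ) {a b : W}
    (u : W) {p q : W} (hp : p ≠ u) (hq : q ≠ u) :
    Joined {e | e ∈ G.edgeSet ∧ e ≠ s(a, b) ∧ u ∉ e} p q := by
  classical
  set Au : Set (Sym2 W) := {e | e ∈ G.edgeSet ∧ e ≠ s(a, b) ∧ u ∉ e} with hAu
  have hedge : ∀ x y, x ≠ u → y ≠ u → x ≠ a → y ≠ a → G.Adj x y → s(x, y) ∈ Au := by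
    intro x y hx hy hxa hya hadj
    refine ⟨hadj, ?_, ?_⟩
    · intro heq
      rcases Sym2.eq_iff.1 heq with ⟨h1, _⟩ | ⟨_, h1⟩
      · exact hxa h1
      · exact hya h1
    · rw [Sym2.mem_iff, not_or]
      exact ⟨hx.symm, hy.symm⟩
  have hedge2 : ∀ y, a ≠ u → y ≠ u → y ≠ b → G.Adj a y → s(a, y) ∈ Au := by
    intro y ha hy hyb hadj
    refine ⟨hadj, ?_, ?_⟩
    · intro heq
      rcases Sym2.eq_iff.1 heq with ⟨_, h1⟩ | ⟨h1, h2⟩
      · exact hyb h1
      · exact hyb (h2.trans h1)
    · rw [Sym2.mem_iff, not_or]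
      exact ⟨ha.symm, hy.symm⟩
  have hdeg : ∀ v, ∃ y, G.Adj v y ∧ y ≠ u ∧ y ≠ b := by
    intro v
    by_contra hcon
    push Not at hcon
    have h1 : nb G v ⊆ {u, b} := by
      intro y hy
      rw [mem_nb] at hy
      rw [Finset.mem_insert, Finset.mem_singleton]
      by_cases hyu : y = u
      · exact Or.inl hyu
      · exact Or.inr (hcon y hy hyu)
    have h2 := Finset.card_le_card h1
    have h3 := h.deg v
    have h4 : ({u, b} : Finset W).card ≤ 2 := Finset.card_le_two
    omega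
  by_contra hcon
  let P : Finset W := Finset.univ.filter (fun v => v ≠ u ∧ v ≠ a ∧ Joined Au p v)
  let Q : Finset W := Finset.univ.filter (fun v => v ≠ u ∧ v ≠ a ∧ ¬ Joined Au p v)
  have hmP : ∀ v, v ∈ P ↔ (v ≠ u ∧ v ≠ a ∧ Joined Au p v) := fun v => by simp [P]
  have hmQ : ∀ v, v ∈ Q ↔ (v ≠ u ∧ v ≠ a ∧ ¬ Joined Au p v) := fun v => by simp [Q]
  have hP : P.Nonempty := by
    by_cases hpa : p = a
    · obtain ⟨y, hy1, hy2, hy3⟩ := hdeg a
      refine ⟨y, (hmP y).2 ⟨hy2, hy1.ne', ?_⟩⟩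
      rw [hpa]
      exact Joined.of_mem (hedge2 y (hpa ▸ hp) hy2 hy3 hy1)
    · exact ⟨p, (hmP p).2 ⟨hp, hpa, Joined.refl _⟩⟩
  have hQ : Q.Nonempty := by
    by_cases hqa : q = a
    · obtain ⟨y, hy1, hy2, hy3⟩ := hdeg a
      refine ⟨y, (hmQ y).2 ⟨hy2, hy1.ne', ?_⟩⟩
      intro hj
      apply hcon
      rw [hqa]
      exact hj.trans (Joined.of_mem (hedge2 y (hqa ▸ hq) hy2 hy3 hy1)).symm
    · exact ⟨q, (hmQ q).2 ⟨hq, hqa, hcon⟩⟩
  apply h.no_cut hγ P Q {u, a} (le_trans Finset.card_le_two hk) hP hQ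
  · rw [Finset.disjoint_left]
    intro v hv hv'
    exact ((hmQ v).1 hv').2.2 ((hmP v).1 hv).2.2
  · rw [Finset.disjoint_left]
    intro v hv hv'
    rw [Finset.mem_insert, Finset.mem_singleton] at hv'
    rcases hv' with h' | h'
    · exact ((hmP v).1 hv).1 h'
    · exact ((hmP v).1 hv).2.1 h'
  · rw [Finset.disjoint_left]
    intro v hv hv'
    rw [Finset.mem_insert, Finset.mem_singleton] at hv'
    rcases hv' with h' | h'
    · exact ((hmQ v).1 hv).1 h'
    · exact ((hmQ v).1 hv).2.1 h'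
  · intro v
    rw [hmP, hmQ, Finset.mem_insert, Finset.mem_singleton]
    tauto
  · intro x hx y hy hadj
    rw [hmP] at hx
    rw [hmQ] at hy
    exact hy.2.2 (hx.2.2.trans (Joined.of_mem (hedge x y hx.1 hy.1 hx.2.1 hy.2.1 hadj)))

variable (F : Type*) [Field F]

open Classical in
/-- the gain function equal to `t` at the edge `e₀` and `1` elsewhere -/
noncomputable def tw {W : Type} {F : Type*} [Field F] (e₀ : Sym2 W) (t : F) : Sym2 W → F :=
  fun e => if e = e₀ then t else 1

lemma tw_self {e₀ : Sym2 W} {t : F} : tw e₀ t e₀ = t := by simp [tw]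

lemma tw_ne {e₀ e : Sym2 W} {t : F} (h : e ≠ e₀) : tw e₀ t e = 1 := by simp [tw, h]

/-- an edge with gain one -/
lemma gv_one (c : W) {e₀ : Sym2 W} {t : F} {p q : W} (h : s(p, q) ≠ e₀) :
    gv F c (tw e₀ t) s(p, q) = inc F c p - inc F c q ∨
    gv F c (tw e₀ t) s(p, q) = -(inc F c p - inc F c q) := by
  rw [gv, tw_ne F h, one_smul]
  rcases gv_ends (p := p) (q := q) with ⟨h1, h2⟩ | ⟨h1, h2⟩
  · left; rw [h1, h2]
  · right; rw [h1, h2]; abel

lemma sub_mem_of_joined (c : W) {e₀ : Sym2 W} {t : F} {B : Set (Sym2 W)} (hB : e₀ ∉ B) {p q : W}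
    (hj : Joined B p q) :
    inc F c p - inc F c q ∈ Submodule.span F (gv F c (tw e₀ t) '' B) := by
  induction hj with
  | rel x y hxy =>
    have h1 : gv F c (tw e₀ t) s(x, y) ∈ Submodule.span F (gv F c (tw e₀ t) '' B) :=
      Submodule.subset_span ⟨_, hxy, rfl⟩
    rcases gv_one F c (t := t) (p := x) (q := y) (e₀ := e₀)
      (fun h => hB (h ▸ hxy)) with h | h
    · rw [← h]; exact h1
    · rw [h] at h1
      have := Submodule.neg_mem _ h1
      rwa [neg_neg] at this
  | refl x => rw [sub_self]; exact Submodule.zero_mem _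
  | symm x y _ ih =>
    have := Submodule.neg_mem _ ih
    rwa [neg_sub] at this
  | trans x y z _ _ ih1 ih2 =>
    have := Submodule.add_mem _ ih1 ih2
    rwa [sub_add_sub_cancel] at this

theorem Core.twist_nonbinary (h : Core G k γ) (hk : 2 ≤ k) (hγ : 3 * k ≤ γ) {a b c : W}
    (hab : G.Adj a b) (hac : a ≠ c) (hbc : b ≠ c) {t : F} (ht0 : t ≠ 0) (ht1 : t ≠ 1) :
    ¬ Binary (GM F c (tw s(a, b) t) G) := by
  classical
  rintro ⟨m, w, hw⟩
  have hw' : Rep (ZMod 2) (GM F c (tw s(a, b) t) G) w := hw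
  set M := GM F c (tw s(a, b) t) G with hM
  set θ := tw s(a, b) t with hθ
  have hrep : Rep F M (gv F c θ) := GM_rep F c θ G
  have hE : M.E = G.edgeSet := rfl
  let Au : W → Set (Sym2 W) := fun u => {e | e ∈ G.edgeSet ∧ e ≠ s(a, b) ∧ u ∉ e}
  have hAuE : ∀ u, Au u ⊆ M.E := fun u e he => he.1
  have hAu0 : ∀ u, s(a, b) ∉ Au u := fun u he => he.2.1 rfl
  have hj : ∀ u p q, p ≠ u → q ≠ u → Joined (Au u) p q := fun u p q hp hq =>
    h.joined hk hγ u hp hq
  -- coordinate `u` vanishes on `Au u`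
  have hcoord : ∀ u, ∀ x ∈ Submodule.span F (gv F c θ '' Au u), x u = 0 := by
    intro u x hx
    have : Submodule.span F (gv F c θ '' Au u) ≤
        LinearMap.ker (LinearMap.proj u : (W → F) →ₗ[F] F) := by
      rw [Submodule.span_le]
      rintro _ ⟨e, he, rfl⟩
      show gv F c θ e u = 0
      have h1 : u ∉ e := he.2.2
      apply gv_apply_of_ne
      · intro h2
        apply h1
        rw [h2, ← src_tgt e]
        have h3 : src e ∈ s(src e, tgt e) := Sym2.mem_mk_left _ _
        rwa [src_tgt] at h3 ⊢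
      · intro h2
        apply h1
        rw [h2, ← src_tgt e]
        have h3 : tgt e ∈ s(src e, tgt e) := Sym2.mem_mk_right _ _
        rwa [src_tgt] at h3 ⊢
    exact this hx
  -- the sum of coordinates vanishes on `Au c`
  let Sc : (W → F) →ₗ[F] F := ∑ u : W, LinearMap.proj u
  have hSg : ∀ x : W → F, Sc x = ∑ u, x u := by
    intro x
    simp [Sc]
  have hSinc : ∀ p, p ≠ c → Sc (inc F c p) = 1 := by
    intro p hp
    rw [hSg, Finset.sum_eq_single p]
    · exact inc_apply_self F c hp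
    · intro q _ hq
      exact inc_apply_of_ne F c hq
    · intro h'; exact absurd (Finset.mem_univ _) h'
  have hsum : ∀ x ∈ Submodule.span F (gv F c θ '' Au c), Sc x = 0 := by
    intro x hx
    have : Submodule.span F (gv F c θ '' Au c) ≤ LinearMap.ker Sc := by
      rw [Submodule.span_le]
      rintro _ ⟨e, he, rfl⟩
      show Sc (gv F c θ e) = 0
      have h1 : c ∉ e := he.2.2
      have h2 : src e ≠ c := by
        rintro h2
        apply h1
        rw [← h2]
        have h3 : src e ∈ s(src e, tgt e) := Sym2.mem_mk_left _ _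
        rwa [src_tgt] at h3
      have h3 : tgt e ≠ c := by
        rintro h3
        apply h1
        rw [← h3]
        have h4 : tgt e ∈ s(src e, tgt e) := Sym2.mem_mk_right _ _
        rwa [src_tgt] at h4
      rw [gv, map_sub, map_smul, hSinc _ h2, hSinc _ h3, hθ, tw_ne F he.2.1]
      simp
    exact this hx
  have hgvu : ∀ u p, u ≠ c → u ≠ p → gv F c θ s(u, p) u ≠ 0 := by
    intro u p hu hup
    rw [gv, Pi.sub_apply, Pi.smul_apply]
    rcases gv_ends (p := u) (q := p) with ⟨h1, h2⟩ | ⟨h1, h2⟩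
    · rw [h1, h2, inc_apply_self F c hu, inc_apply_of_ne F c hup]
      simp
    · rw [h1, h2, inc_apply_self F c hu, inc_apply_of_ne F c hup]
      simp only [smul_eq_mul, mul_one, zero_sub, ne_eq, neg_eq_zero]
      rw [hθ]
      unfold tw
      split_ifs
      · exact ht0
      · exact one_ne_zero
  -- (f1)
  have f1 : ∀ u p, G.Adj u p → s(u, p) ≠ s(a, b) → s(u, p) ∉ M.closure (Au u) := by
    intro u p hup hne hcl
    rw [hrep.mem_closure_iff (hAuE u) hup] at hcl
    by_cases hu : u = c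
    · subst hu
      have h1 := hsum _ hcl
      rcases gv_one F u (t := t) hne with h2 | h2
      · rw [hθ, h2, inc_self, zero_sub, map_neg, hSinc _ hup.ne'] at h1
        simp at h1
      · rw [hθ, h2, inc_self, zero_sub, map_neg, map_neg, hSinc _ hup.ne'] at h1
        simp at h1
    · exact hgvu u p hu hup.ne (hcoord u _ hcl)
  -- spanning
  have hspan : ∀ u p, G.Adj u p → s(u, p) ≠ s(a, b) → ∀ q,
      inc F c q ∈ Submodule.span F (gv F c θ '' (insert s(u, p) (Au u))) := by
    intro u p hup hne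
    have hmono : Submodule.span F (gv F c θ '' Au u) ≤
        Submodule.span F (gv F c θ '' (insert s(u, p) (Au u))) :=
      Submodule.span_mono (image_mono (subset_insert _ _))
    have hup' : inc F c u - inc F c p ∈
        Submodule.span F (gv F c θ '' (insert s(u, p) (Au u))) := by
      have h1 : gv F c θ s(u, p) ∈ Submodule.span F (gv F c θ '' (insert s(u, p) (Au u))) :=
        Submodule.subset_span ⟨_, mem_insert _ _, rfl⟩
      rcases gv_one F c (t := t) hne with h2 | h2
      · rw [← h2]; exact h1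
      · rw [hθ, h2] at h1
        have := Submodule.neg_mem _ h1
        rwa [neg_neg] at this
    have hsub : ∀ x y, inc F c x - inc F c y ∈
        Submodule.span F (gv F c θ '' (insert s(u, p) (Au u))) := by
      have h0 : ∀ x, inc F c x - inc F c p ∈
          Submodule.span F (gv F c θ '' (insert s(u, p) (Au u))) := by
        intro x
        by_cases hx : x = u
        · rw [hx]; exact hup'
        · exact hmono (sub_mem_of_joined F c (hAu0 u) (hj u x p hx hup.ne'))
      intro x y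
      have := Submodule.sub_mem _ (h0 x) (h0 y)
      rwa [sub_sub_sub_cancel_right] at this
    intro q
    have := hsub q c
    rwa [inc_self, sub_zero] at this
  have hspan' : ∀ u p, G.Adj u p → s(u, p) ≠ s(a, b) → ∀ e ∈ M.E,
      e ∈ M.closure (insert s(u, p) (Au u)) := by
    intro u p hup hne e he
    rw [hrep.mem_closure_iff (insert_subset hup (hAuE u)) he, gv]
    exact Submodule.sub_mem _ (hspan u p hup hne _)
      (Submodule.smul_mem _ _ (hspan u p hup hne _))
  -- a good neighbour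
  have hnb : ∀ u, ∃ p, G.Adj u p ∧ s(u, p) ≠ s(a, b) := by
    intro u
    by_contra hcon
    push Not at hcon
    have h1 : nb G u ⊆ {a, b} := by
      intro y hy
      rw [mem_nb] at hy
      rw [Finset.mem_insert, Finset.mem_singleton]
      rcases Sym2.eq_iff.1 (hcon y hy) with ⟨_, h2⟩ | ⟨_, h2⟩
      · exact Or.inr h2
      · exact Or.inl h2
    have h2 := Finset.card_le_card h1
    have h3 := h.deg u
    have h4 : ({a, b} : Finset W).card ≤ 2 := Finset.card_le_two
    omega
  -- functionals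
  have hfun : ∀ u, ∃ φ : (Fin m → ZMod 2) →ₗ[ZMod 2] ZMod 2,
      ∀ e ∈ M.E, (e ∈ M.closure (Au u) → φ (w e) = 0) ∧ (e ∉ M.closure (Au u) → φ (w e) = 1) := by
    intro u
    obtain ⟨p, hp, hne⟩ := hnb u
    exact exists_functional hw' (hAuE u) hp (f1 u p hp hne) (hspan' u p hp hne)
  choose φ hφ using hfun
  let Φ : (Fin m → ZMod 2) →ₗ[ZMod 2] ZMod 2 := ∑ u : W, φ u
  have hΦ : ∀ x, Φ x = ∑ u, φ u x := by
    intro x; simp [Φ]
  -- `Φ` vanishes on all edges but `ab`
  have hΦ0 : ∀ e ∈ G.edgeSet, e ≠ s(a, b) → Φ (w e) = 0 := by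
    intro e he hne
    induction e with
    | h p q =>
      have hpq : G.Adj p q := he
      rw [hΦ, ← Finset.sum_subset (Finset.subset_univ {p, q})]
      · rw [Finset.sum_pair hpq.ne, ((hφ p) _ he).2 (f1 p q hpq hne),
          ((hφ q) _ he).2 (by rw [Sym2.eq_swap]; exact f1 q p hpq.symm (by rwa [Sym2.eq_swap]))]
        decide
      · intro u _ hu
        rw [Finset.mem_insert, Finset.mem_singleton, not_or] at hu
        apply ((hφ u) _ he).1
        apply M.mem_closure_of_mem _ (hAuE u)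
        refine ⟨he, hne, ?_⟩
        rw [Sym2.mem_iff, not_or]
        exact hu
  -- membership of `ab`
  have heE : s(a, b) ∈ M.E := hab
  have f3 : ∀ u, u ≠ a → u ≠ b → u ≠ c → s(a, b) ∈ M.closure (Au u) := by
    intro u hua hub huc
    rw [hrep.mem_closure_iff (hAuE u) heE, gv]
    have h1 : ∀ x, x ≠ u → inc F c x ∈ Submodule.span F (gv F c θ '' Au u) := by
      intro x hx
      have := sub_mem_of_joined F c (t := t) (hAu0 u) (hj u x c hx huc.symm)
      rwa [inc_self, sub_zero] at this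
    rcases gv_ends (p := a) (q := b) with ⟨h2, h3⟩ | ⟨h2, h3⟩
    · rw [h2, h3]
      exact Submodule.sub_mem _ (h1 a hua.symm) (Submodule.smul_mem _ _ (h1 b hub.symm))
    · rw [h2, h3]
      exact Submodule.sub_mem _ (h1 b hub.symm) (Submodule.smul_mem _ _ (h1 a hua.symm))
  have f4a : s(a, b) ∉ M.closure (Au a) := by
    intro hcl
    rw [hrep.mem_closure_iff (hAuE a) heE] at hcl
    exact hgvu a b hac hab.ne (hcoord a _ hcl)
  have f4b : s(a, b) ∉ M.closure (Au b) := by
    intro hcl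
    rw [hrep.mem_closure_iff (hAuE b) heE] at hcl
    have h1 := hgvu b a hbc hab.ne'
    rw [Sym2.eq_swap] at h1
    exact h1 (hcoord b _ hcl)
  have f4c : s(a, b) ∉ M.closure (Au c) := by
    intro hcl
    rw [hrep.mem_closure_iff (hAuE c) heE] at hcl
    have h1 := hsum _ hcl
    have h2 : Sc (gv F c θ s(a, b)) = 1 - t := by
      rw [gv, map_sub, map_smul, hθ, tw_self, smul_eq_mul]
      rcases gv_ends (p := a) (q := b) with ⟨h2, h3⟩ | ⟨h2, h3⟩
      · rw [h2, h3, hSinc _ hac, hSinc _ hbc, mul_one]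
      · rw [h2, h3, hSinc _ hac, hSinc _ hbc, mul_one]
    rw [h2, sub_eq_zero] at h1
    exact ht1 h1.symm
  have hΦ1 : Φ (w s(a, b)) = 1 := by
    rw [hΦ, ← Finset.sum_subset (Finset.subset_univ {a, b, c})]
    · rw [Finset.sum_insert, Finset.sum_pair hbc, ((hφ a) _ heE).2 f4a, ((hφ b) _ heE).2 f4b,
        ((hφ c) _ heE).2 f4c]
      · decide
      · rw [Finset.mem_insert, Finset.mem_singleton, not_or]
        exact ⟨hab.ne, hac⟩
    · intro u _ hu
      rw [Finset.mem_insert, Finset.mem_insert, Finset.mem_singleton, not_or, not_or] at hu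
      exact ((hφ u) _ heE).1 (f3 u hu.1 hu.2.1 hu.2.2)
  -- but `ab` is spanned by the other edges
  have hcl : s(a, b) ∈ M.closure (G.edgeSet \ {s(a, b)}) := by
    obtain ⟨p, hp, hne⟩ := hnb a
    have h1 := hspan' a p hp hne _ heE
    apply M.closure_subset_closure _ h1
    intro e he
    rcases he with rfl | he
    · exact ⟨hp, hne⟩
    · exact ⟨he.1, he.2.1⟩
  rw [hw'.mem_closure_iff (by rw [hE]; exact sdiff_subset) heE] at hcl
  have hle : Submodule.span (ZMod 2) (w '' (G.edgeSet \ {s(a, b)})) ≤ LinearMap.ker Φ := by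
    rw [Submodule.span_le]
    rintro _ ⟨e, he, rfl⟩
    exact hΦ0 e he.1 he.2
  have := hle hcl
  rw [LinearMap.mem_ker, hΦ1] at this
  exact one_ne_zero this

end graph

end H36Mat
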